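import Mathlib

/-!
# SLit piece ANN: the sum over classes
-/

set_option autoImplicit false

namespace Pool.Agent.SLit

/-- `∑_{l<L} 1/√(s+l) ≤ 2√(s+L-1)` for `s ≥ 1`. -/
theorem ann_aux (s : ℝ) (hs : 1 ≤ s) (L : ℕ) :
    ∑ l ∈ Finset.range L, 1 / √(s + l) ≤ 2 * √(s + L - 1) := by
  induction L with
  | zero => simp
  | succ L ih =>
    rw [Finset.sum_range_succ]
    have hL : (0 : ℝ) ≤ L := Nat.cast_nonneg L
    have hx : 1 ≤ s + L := by linarith
    have hstep : 1 / √(s + L) ≤ 2 * √(s + L) - 2 * √(s + L - 1) := by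
      have h0 : 0 < √(s + L) := Real.sqrt_pos.2 (by linarith)
      rw [div_le_iff₀ h0]
      have h1 : √(s + L) * √(s + L) = s + L := Real.mul_self_sqrt (by linarith)
      have h2 : √(s + L - 1) * √(s + L - 1) = s + L - 1 := Real.mul_self_sqrt (by linarith)
      nlinarith [sq_nonneg (√(s + L) - √(s + L - 1))]
    have e : s + ((L + 1 : ℕ) : ℝ) - 1 = s + L := by push_cast; ring
    rw [e]
    linarith

/-- The class sum. -/
theorem ann_class (s : ℝ) (hs : 1 ≤ s) (N κ : ℕ) (hκ : κ ≤ N) :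
    ∑ j ∈ Finset.Ico κ N, 1 / √(s + ((N : ℝ) - j - 1)) ≤ 2 * √(s + ((N : ℝ) - κ)) := by
  have h := ann_aux s hs (N - κ)
  have e : ∑ j ∈ Finset.Ico κ N, 1 / √(s + ((N : ℝ) - j - 1)) =
      ∑ l ∈ Finset.range (N - κ), 1 / √(s + l) := by
    rw [Finset.sum_Ico_eq_sum_range, ← Finset.sum_range_reflect]
    refine Finset.sum_congr rfl fun i hi => ?_
    rw [Finset.mem_range] at hi
    have e1 : ((κ + (N - κ - 1 - i) : ℕ) : ℝ) = N - 1 - i := by
      have : κ + (N - κ - 1 - i) + 1 + i = N := by omega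
      have h2 : ((κ + (N - κ - 1 - i) : ℕ) : ℝ) + 1 + i = N := by exact_mod_cast this
      linarith
    rw [e1]
    congr 2
    ring
  rw [e]
  refine h.trans (mul_le_mul_of_nonneg_left (Real.sqrt_le_sqrt ?_) (by norm_num))
  rw [Nat.cast_sub hκ]
  linarith

/-- PROOF. Split the sum according to the value of `cls` (`Finset.sum_fiberwise` over the image). On a class `κ = k j` is constant and `j ≥ κ`, so the class sum is at most
`(1/√(s+N-κ)) ∑_{j=κ}^{N-1} 1/√(s+N-1-j) = (1/√(s+N-κ)) ∑_{l=0}^{N-κ-1} 1/√(s+l) ≤ 2`, since `∑_{l<L} 1/√(s+l) ≤ 2 √(s+L)` (induction: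
`2√(x+1) - 2√x ≥ 1/√(x+1)`... for the shifted terms use `1/√(s+l) ≤ 2(√(s+l) - √(s+l-1))`, `s ≥ 1`). -/
theorem ann (s : ℝ) (hs : 1 ≤ s) (N : ℕ) (cls k : ℕ → ℕ) (hk : ∀ j < N, k j ≤ j)
    (hk' : ∀ j < N, ∀ j' < N, cls j = cls j' → k j = k j') :
    ∑ j ∈ Finset.range N, 1 / (√(s + ((N : ℝ) - j - 1)) * √(s + ((N : ℝ) - k j))) ≤
      2 * (((Finset.range N).image cls).card : ℝ) := by
  classical
  rw [← Finset.sum_fiberwise_of_maps_to (s := Finset.range N) (t := (Finset.range N).image cls)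
    (g := cls) (fun j hj => Finset.mem_image_of_mem cls hj)]
  have hcls : ∀ c ∈ (Finset.range N).image cls,
      ∑ j ∈ Finset.range N with cls j = c,
        1 / (√(s + ((N : ℝ) - j - 1)) * √(s + ((N : ℝ) - k j))) ≤ 2 := by
    intro c hc
    obtain ⟨j0, hj0, hc0⟩ := Finset.mem_image.1 hc
    rw [Finset.mem_range] at hj0
    have hκ : k j0 ≤ N := (hk j0 hj0).trans hj0.le
    have hκR : (k j0 : ℝ) ≤ N := by exact_mod_cast hκ
    have hpos : 0 < √(s + ((N : ℝ) - k j0)) := Real.sqrt_pos.2 (by linarith)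
    have h1 : ∑ j ∈ Finset.range N with cls j = c,
        1 / (√(s + ((N : ℝ) - j - 1)) * √(s + ((N : ℝ) - k j))) =
        (∑ j ∈ Finset.range N with cls j = c, 1 / √(s + ((N : ℝ) - j - 1))) *
          (1 / √(s + ((N : ℝ) - k j0))) := by
      rw [Finset.sum_mul]
      refine Finset.sum_congr rfl fun j hj => ?_
      rw [Finset.mem_filter, Finset.mem_range] at hj
      have hkj : k j = k j0 := hk' j hj.1 j0 hj0 (by rw [hj.2, hc0])
      rw [hkj, one_div_mul_one_div]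
    have h2 : ∑ j ∈ Finset.range N with cls j = c, 1 / √(s + ((N : ℝ) - j - 1)) ≤
        ∑ j ∈ Finset.Ico (k j0) N, 1 / √(s + ((N : ℝ) - j - 1)) := by
      refine Finset.sum_le_sum_of_subset_of_nonneg ?_ fun j _ _ => by positivity
      intro j hj
      rw [Finset.mem_filter, Finset.mem_range] at hj
      have hkj : k j = k j0 := hk' j hj.1 j0 hj0 (by rw [hj.2, hc0])
      rw [Finset.mem_Ico]
      exact ⟨hkj ▸ hk j hj.1, hj.1⟩
    rw [h1]
    have h3 := h2.trans (ann_class s hs N (k j0) hκ)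
    calc (∑ j ∈ Finset.range N with cls j = c, 1 / √(s + ((N : ℝ) - j - 1))) *
          (1 / √(s + ((N : ℝ) - k j0)))
        ≤ (2 * √(s + ((N : ℝ) - k j0))) * (1 / √(s + ((N : ℝ) - k j0))) :=
          mul_le_mul_of_nonneg_right h3 (by positivity)
      _ = 2 := by
          field_simp
  refine (Finset.sum_le_sum hcls).trans ?_
  rw [Finset.sum_const, nsmul_eq_mul, mul_comm]

end Pool.Agent.SLit
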