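import Pool.Agent.Lib_SLit.Defs

/-!
# SLit piece BAS: elementary facts on Fourier coefficients
-/

set_option autoImplicit false

namespace Pool.Agent.SLit

open MeasureTheory AddCircle

theorem integrable_cc {E : Type} [NormedAddCommGroup E] (φ : UnitAddCircle → E) (h : Continuous φ) :
    Integrable φ (haarAddCircle (T := (1:ℝ))) := by
  rw [← integrableOn_univ]
  exact h.continuousOn.integrableOn_compact isCompact_univ

theorem co_eq (n : ℤ) (f : CC) :
    co n f = ∫ x, ex (-n) x * f x ∂(haarAddCircle (T := (1:ℝ))) := rfl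

theorem co_add (n : ℤ) (f g : CC) : co n (f + g) = co n f + co n g := by
  exact congrFun (fourierCoeff.add (integrable_cc f f.continuous) (integrable_cc g g.continuous)) n

theorem co_smul (n : ℤ) (c : ℂ) (f : CC) : co n (c • f) = c * co n f := by
  exact fourierCoeff.const_mul f c n

theorem co_zero' (n : ℤ) : co n 0 = 0 := by
  have h := co_add n 0 0
  have h2 : (0 : CC) + 0 = 0 := add_zero 0
  rw [h2] at h
  exact left_eq_add.mp h

theorem co_sum {ι : Type} (s : Finset ι) (n : ℤ) (f : ι → CC) : co n (∑ i ∈ s, f i) = ∑ i ∈ s, co n (f i) := by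
  classical
  induction s using Finset.induction_on with
  | empty => simp only [Finset.sum_empty]; exact co_zero' n
  | insert a s ha ih => rw [Finset.sum_insert ha, Finset.sum_insert ha, co_add, ih]

theorem ex_mul (m n : ℤ) : ex m * ex n = ex (m + n) := by
  refine ContinuousMap.ext fun x => ?_
  exact (fourier_add (T := (1:ℝ)) (m := m) (n := n) (x := x)).symm

theorem ex_zero : ex 0 = 1 := by
  refine ContinuousMap.ext fun x => ?_
  exact fourier_zero (T := (1:ℝ)) (x := x)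

theorem norm_ex (n : ℤ) (x : UnitAddCircle) : ‖ex n x‖ = 1 := by
  exact Circle.norm_coe _

theorem star_ex (n : ℤ) : star (ex n) = ex (-n) := by
  refine ContinuousMap.ext fun x => ?_
  exact (fourier_neg (T := (1:ℝ)) (n := n) (x := x)).symm

theorem co_ex (n m : ℤ) : co n (ex m) = if n = m then 1 else 0 := by
  have h : co n (ex m) = (Pi.single m 1 : ℤ → ℂ) n :=
    congrFun (fourierCoeff_fourier (T := (1:ℝ)) m) n
  rw [h, Pi.single_apply]

theorem co_one (n : ℤ) : co n 1 = if n = 0 then 1 else 0 := by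
  rw [← ex_zero, co_ex]

theorem co_ex_mul (n m : ℤ) (f : CC) : co n (ex m * f) = co (n - m) f := by
  rw [co_eq, co_eq]
  refine congrArg (fun φ : UnitAddCircle → ℂ => ∫ x, φ x ∂(haarAddCircle (T := (1:ℝ)))) ?_
  funext x
  have h : ex (-n) * ex m = ex (-(n - m)) := by
    rw [ex_mul]; congr 1; ring
  have h2 : ex (-n) x * ex m x = ex (-(n - m)) x := by
    rw [← h]; rfl
  rw [← h2, mul_assoc]; rfl

theorem co_star (n : ℤ) (f : CC) : co n (star f) = starRingEnd ℂ (co (-n) f) := by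
  rw [co_eq, co_eq, ← integral_conj]
  refine congrArg (fun φ : UnitAddCircle → ℂ => ∫ x, φ x ∂(haarAddCircle (T := (1:ℝ)))) ?_
  funext x
  have h2 : ex (-n) x = starRingEnd ℂ (ex (- -n) x) := by
    have h3 := congrArg (fun φ : CC => φ x) (star_ex (- -n))
    simp only [neg_neg] at h3 ⊢
    exact h3.symm
  rw [map_mul, ← h2]; rfl

theorem norm_co_le (n : ℤ) (f : CC) : ‖co n f‖ ≤ ∫ x, ‖f x‖ ∂(haarAddCircle (T := (1:ℝ))) := by
  rw [co_eq]
  refine (norm_integral_le_integral_norm _).trans (le_of_eq ?_)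
  refine congrArg (fun φ : UnitAddCircle → ℝ => ∫ x, φ x ∂(haarAddCircle (T := (1:ℝ)))) ?_
  funext x
  rw [norm_mul, norm_ex, one_mul]

theorem norm_co_le_of_bound (n : ℤ) (f : CC) (C : ℝ) (h : ∀ x, ‖f x‖ ≤ C) : ‖co n f‖ ≤ C := by
  refine (norm_co_le n f).trans ?_
  calc ∫ x, ‖f x‖ ∂(haarAddCircle (T := (1:ℝ)))
      ≤ ∫ _x : UnitAddCircle, C ∂(haarAddCircle (T := (1:ℝ))) :=
        integral_mono (integrable_cc _ (by fun_prop)) (integrable_const C) h
    _ = C := by simp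

/-- `|co n (F x x)| ≤ ∫ |x|²` if `|F| ≤ 1` -/
theorem norm_co_sq_le (n : ℤ) (F x : CC) (hF : ∀ t, ‖F t‖ ≤ 1) : ‖co n (F * (x * x))‖ ≤ nsq x := by
  refine (norm_co_le n _).trans ?_
  unfold nsq
  refine integral_mono (integrable_cc _ (by fun_prop)) (integrable_cc _ (by fun_prop)) ?_
  intro t
  show ‖F t * (x t * x t)‖ ≤ ‖x t‖ ^ 2
  rw [norm_mul, norm_mul, sq]
  have h0 : 0 ≤ ‖x t‖ * ‖x t‖ := mul_self_nonneg _
  calc ‖F t‖ * (‖x t‖ * ‖x t‖) ≤ 1 * (‖x t‖ * ‖x t‖) := mul_le_mul_of_nonneg_right (hF t) h0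
    _ = _ := one_mul _

theorem memLp_cc (f : CC) (p : ENNReal) : MemLp f p (haarAddCircle (T := (1:ℝ))) :=
  MemLp.of_bound f.continuous.aestronglyMeasurable ‖f‖
    (Filter.Eventually.of_forall fun x => f.norm_coe_le_norm x)

/-- Cauchy-Schwarz: `|co n (f g G)| ≤ ‖f‖₂ ‖g‖₂` if `|G| ≤ 1` -/
theorem norm_co_mul_le (n : ℤ) (f g G : CC) (hG : ∀ t, ‖G t‖ ≤ 1) :
    ‖co n (f * g * G)‖ ≤ √(nsq f) * √(nsq g) := by
  have h1 : ‖co n (f * g * G)‖ ≤ ∫ x, ‖f x‖ * ‖g x‖ ∂(haarAddCircle (T := (1:ℝ))) := by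
    refine (norm_co_le n _).trans ?_
    refine integral_mono (integrable_cc _ (by fun_prop)) (integrable_cc _ (by fun_prop)) ?_
    intro t
    show ‖f t * g t * G t‖ ≤ ‖f t‖ * ‖g t‖
    rw [norm_mul, norm_mul]
    have h0 : 0 ≤ ‖f t‖ * ‖g t‖ := mul_nonneg (norm_nonneg _) (norm_nonneg _)
    calc ‖f t‖ * ‖g t‖ * ‖G t‖ ≤ ‖f t‖ * ‖g t‖ * 1 := mul_le_mul_of_nonneg_left (hG t) h0
      _ = _ := mul_one _
  refine h1.trans ?_
  have hpq : (2:ℝ).HolderConjugate 2 := Real.HolderConjugate.two_two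
  have h2 := integral_mul_norm_le_Lp_mul_Lq (μ := haarAddCircle (T := (1:ℝ))) (f := f) (g := g) hpq
    (memLp_cc f _) (memLp_cc g _)
  refine h2.trans (le_of_eq ?_)
  unfold nsq
  rw [Real.sqrt_eq_rpow, Real.sqrt_eq_rpow]
  simp only [Real.rpow_two]

theorem nsq_nonneg (f : CC) : 0 ≤ nsq f := by
  exact integral_nonneg fun x => sq_nonneg _

theorem hasSum_co (f : CC) : HasSum (fun n : ℤ => ‖co n f‖ ^ 2) (nsq f) := by
  have h := hasSum_sq_fourierCoeff (ContinuousMap.toLp (E := ℂ) 2 (haarAddCircle (T := (1:ℝ))) ℂ f)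
  simp only [fourierCoeff_toLp] at h
  have h2 : ∫ t : UnitAddCircle, ‖(ContinuousMap.toLp (E := ℂ) 2 (haarAddCircle (T := (1:ℝ))) ℂ f) t‖ ^ 2
      ∂(haarAddCircle (T := (1:ℝ))) = nsq f := by
    unfold nsq
    refine integral_congr_ae ?_
    filter_upwards [ContinuousMap.coeFn_toAEEqFun (haarAddCircle (T := (1:ℝ))) f] with x hx
    have hx' : (ContinuousMap.toLp (E := ℂ) 2 (haarAddCircle (T := (1:ℝ))) ℂ f) x = f x := hx
    rw [hx']
  rw [h2] at h
  exact h

/-- Bessel -/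
theorem bessel (f : CC) (S : Finset ℤ) : ∑ n ∈ S, ‖co n f‖ ^ 2 ≤ nsq f := by
  exact sum_le_hasSum S (fun n _ => sq_nonneg _) (hasSum_co f)

theorem co_trig (S : Finset ℤ) (a : ℤ → ℂ) (m : ℤ) :
    co m (∑ n ∈ S, a n • ex n) = if m ∈ S then a m else 0 := by
  rw [co_sum]
  simp only [co_smul, co_ex, mul_ite, mul_one, mul_zero]
  rw [Finset.sum_ite_eq]

/-- Parseval for trigonometric polynomials -/
theorem nsq_trig (S : Finset ℤ) (a : ℤ → ℂ) : nsq (∑ n ∈ S, a n • ex n) = ∑ n ∈ S, ‖a n‖ ^ 2 := by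
  have h := hasSum_co (∑ n ∈ S, a n • ex n)
  have h2 : HasSum (fun m : ℤ => ‖co m (∑ n ∈ S, a n • ex n)‖ ^ 2)
      (∑ m ∈ S, ‖co m (∑ n ∈ S, a n • ex n)‖ ^ 2) := by
    refine hasSum_sum_of_ne_finset_zero ?_
    intro m hm
    rw [co_trig, if_neg hm]; simp
  rw [h.unique h2]
  refine Finset.sum_congr rfl fun m hm => ?_
  rw [co_trig, if_pos hm]

theorem HS.add {m : ℤ} {f g : CC} (hf : HS m f) (hg : HS m g) : HS m (f + g) := by
  intro n hn
  rw [co_add, hf n hn, hg n hn, add_zero]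

theorem HS.smul {m : ℤ} {f : CC} (c : ℂ) (hf : HS m f) : HS m (c • f) := by
  intro n hn
  rw [co_smul, hf n hn, mul_zero]

theorem HS.mono {m m' : ℤ} {f : CC} (hf : HS m f) (h : m' ≤ m) : HS m' f := by
  intro n hn
  exact hf n (lt_of_lt_of_le hn h)

theorem HS.ex_mul {m : ℤ} {f : CC} (n : ℤ) (hf : HS m f) : HS (n + m) (ex n * f) := by
  intro k hk
  rw [co_ex_mul]
  exact hf (k - n) (by linarith)

theorem HS.ex (n : ℤ) : HS n (ex n) := by
  intro k hk
  rw [co_ex, if_neg (ne_of_lt hk)]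

theorem HS.one : HS 0 (1 : CC) := by
  intro k hk
  rw [co_one, if_neg (ne_of_lt hk)]

/-- `co n` as a continuous linear map -/
noncomputable def coL (n : ℤ) : CC →L[ℂ] ℂ :=
  LinearMap.mkContinuous
    { toFun := co n
      map_add' := co_add n
      map_smul' := fun c f => co_smul n c f } 1
    (fun f => by
      rw [one_mul]
      exact norm_co_le_of_bound n f ‖f‖ fun x => f.norm_coe_le_norm x)

theorem continuous_co (n : ℤ) : Continuous (fun f : CC => co n f) := (coL n).continuous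

/-- `HS m` is closed under uniform limits -/
theorem HS.closed (m : ℤ) : IsClosed {f : CC | HS m f} := by
  have h : {f : CC | HS m f} = ⋂ n : ℤ, ⋂ _ : n < m, {f : CC | co n f = 0} := by
    ext f
    simp only [Set.mem_setOf_eq, Set.mem_iInter]
    rfl
  rw [h]
  exact isClosed_iInter fun n => isClosed_iInter fun _ =>
    isClosed_eq (continuous_co n) continuous_const

end Pool.Agent.SLit
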