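import Pool.Agent.Lib_SLit.XC

/-!
# SLit: the weights `chi m = (r/σ) X0 (m/σ)`
-/

set_option autoImplicit false

namespace Pool.Agent.SLit

open MeasureTheory Set Real

noncomputable def chi (r σ : ℝ) (m : ℕ) : ℝ := (r / σ) * X0 (m / σ)

theorem chi_nonneg {r σ : ℝ} (hr : 0 ≤ r) (hσ : 0 < σ) (m : ℕ) : 0 ≤ chi r σ m := by
  unfold chi
  exact mul_nonneg (by positivity) (X0_nonneg _ (by positivity))

theorem chi_mono {r σ : ℝ} (hr : 0 ≤ r) (hσ : 0 < σ) (m m' : ℕ) (h : m ≤ m') :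
    (σ + m') * chi r σ m' ≤ (σ + m) * chi r σ m := by
  unfold chi
  have h1 := X0_mono (m / σ) (m' / σ) (by positivity)
    (by have : (m:ℝ) ≤ m' := by exact_mod_cast h
        gcongr)
  have h2 : ∀ k : ℕ, (σ + k) * (r / σ * X0 (k / σ)) = r * ((1 + k / σ) * X0 (k / σ)) := by
    intro k; field_simp
  rw [h2, h2]
  exact mul_le_mul_of_nonneg_left h1 hr

/-- `X0 x ≤ (1/4)/(1+x)`, so `chi ≤ (π/4) g` -/
theorem chi_le {r σ : ℝ} (hr : 0 ≤ r) (hσ : 0 < σ) (m : ℕ) : chi r σ m ≤ (π / 4) * (r / π / (σ + m)) := by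
  unfold chi
  have h1 := X0_mono 0 (m / σ) le_rfl (by positivity)
  rw [X0_zero] at h1
  have h2 : (0:ℝ) < 1 + m / σ := by positivity
  have h3 : X0 (m / σ) ≤ (1 / 4) / (1 + m / σ) := by
    rw [le_div_iff₀ h2]; nlinarith
  calc r / σ * X0 (m / σ) ≤ r / σ * ((1 / 4) / (1 + m / σ)) :=
        mul_le_mul_of_nonneg_left h3 (by positivity)
    _ = (π / 4) * (r / π / (σ + m)) := by
        have := Real.pi_pos
        field_simp

end Pool.Agent.SLit
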