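import Pool.Agent.Lib_SLit.DP

/-!
# SLit piece COL: the column lemma
-/

set_option autoImplicit false

namespace Pool.Agent.SLit

/-- symmetrisation of a double sum -/
private theorem col_symm (F : ℕ → ℕ → ℝ) (hF : ∀ a b, F a b = F b a) (K : ℕ) :
    ∑ m ∈ Finset.Icc 1 K, ∑ m' ∈ Finset.Icc 1 K, F m m' =
      ∑ r ∈ Finset.Icc 1 K, ∑ i ∈ Finset.Icc 1 r, (if i < r then (2 : ℝ) else 1) * F i r := by
  induction K with
  | zero => simp
  | succ K ih =>
    have h1 : ∀ f : ℕ → ℝ, ∑ m ∈ Finset.Icc 1 (K + 1), f m = ∑ m ∈ Finset.Icc 1 K, f m + f (K + 1) :=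
      fun f => Finset.sum_Icc_succ_top (by omega) f
    rw [h1 (fun r => ∑ i ∈ Finset.Icc 1 r, (if i < r then (2 : ℝ) else 1) * F i r), ← ih]
    rw [h1 (fun m => ∑ m' ∈ Finset.Icc 1 (K + 1), F m m')]
    rw [h1 (fun m' => F (K + 1) m')]
    rw [h1 (fun i => (if i < K + 1 then (2 : ℝ) else 1) * F i (K + 1))]
    rw [if_neg (lt_irrefl _), one_mul]
    have h2 : ∑ m ∈ Finset.Icc 1 K, ∑ m' ∈ Finset.Icc 1 (K + 1), F m m' =
        ∑ m ∈ Finset.Icc 1 K, ∑ m' ∈ Finset.Icc 1 K, F m m' + ∑ m ∈ Finset.Icc 1 K, F m (K + 1) := by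
      rw [← Finset.sum_add_distrib]
      exact Finset.sum_congr rfl fun m _ => h1 (fun m' => F m m')
    have h3 : ∑ i ∈ Finset.Icc 1 K, (if i < K + 1 then (2 : ℝ) else 1) * F i (K + 1) =
        ∑ m ∈ Finset.Icc 1 K, F m (K + 1) + ∑ m ∈ Finset.Icc 1 K, F (K + 1) m := by
      rw [← Finset.sum_add_distrib]
      refine Finset.sum_congr rfl fun i hi => ?_
      rw [if_pos (by rw [Finset.mem_Icc] at hi; omega), hF (K + 1) i]
      ring
    rw [h2, h3]
    ring

private theorem col_card (P : ℕ → Prop) (i : ℕ) (hi : 1 ≤ i) (d1 : DecidablePred P)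
    (d2 : DecidablePred (fun j => ¬ P j)) :
    ((Finset.Ico 1 i).filter P).card + ((Finset.Ico 1 i).filter (fun j => ¬ P j)).card + 1 = i := by
  have h1 : (Finset.Ico 1 i).filter (fun j => ¬ P j) = (Finset.Ico 1 i) \ ((Finset.Ico 1 i).filter P) := by
    ext x
    rw [Finset.mem_filter, Finset.mem_sdiff, Finset.mem_filter]
    tauto
  have h2 := Finset.card_sdiff_add_card_eq_card (Finset.filter_subset P (Finset.Ico 1 i))
  rw [Nat.card_Ico] at h2
  rw [h1]
  omega

/-- the number of hits -/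
private theorem col_count (K : ℕ) (t : ℕ → ℤ) (ht : StrictMono t) (n : ℤ) (hn : ∀ j < K, t j < n)
    (r : ℕ) (hr : 1 ≤ r) (hrK : r ≤ K) (S : Finset ℕ) (hS : ∀ i ∈ S, 1 ≤ i ∧ i ≤ r) (j : ℕ)
    (hjK : j ≤ K - r)
    (hj : ∀ i ∈ S, ∃ j', j' < K ∧ t j' = t (K - r) + t (K - i) - n ∧ j ≤ j') :
    S.card + j ≤ K - r := by
  have hex : ∀ i, ∃ j', i ∈ S → (j' < K ∧ t j' = t (K - r) + t (K - i) - n ∧ j ≤ j') := by
    intro i
    by_cases hi : i ∈ S
    · obtain ⟨j', h⟩ := hj i hi
      exact ⟨j', fun _ => h⟩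
    · exact ⟨0, fun h => absurd h hi⟩
  choose f hf using hex
  have h1 : S.card ≤ (Finset.Ico j (K - r)).card := by
    refine Finset.card_le_card_of_injOn f ?_ ?_
    · intro i hi
      have hi' : i ∈ S := hi
      obtain ⟨_, h2, h3⟩ := hf i hi'
      have h4 := (hS i hi').1
      have h5 : t (K - i) < n := hn _ (by omega)
      have h6 : t (f i) < t (K - r) := by
        rw [h2]
        linarith
      have h7 : f i ∈ Finset.Ico j (K - r) := Finset.mem_Ico.2 ⟨h3, ht.lt_iff_lt.1 h6⟩
      exact h7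
    · intro i hi i' hi' he
      have h2 := (hf i hi).2.1
      have h3 := (hf i' hi').2.1
      rw [he, h3] at h2
      have h4 : t (K - i') = t (K - i) := by linarith
      have h5 := ht.injective h4
      have h6 := hS i hi
      have h7 := hS i' hi'
      omega
  rw [Nat.card_Ico] at h1
  omega

/-- PROOF. By symmetry both double sums are `∑_{r=1}^K χ r ∑_{i=1}^r w_{i,r} χ i (…)`, `w = 2` for `i < r` and `1` for `i = r`. So it suffices, for each `r`, to apply `dp` with
`β i = w_{i,r} χ i` for `i ≤ r` (`0` for `i > r`; still `(σ+i) β i` nonincreasing on `[1,r]`), `Wv i = W (p i)`, `p i = t (K-r) + t (K-i) - n`, `hit i := ∃ j < K, t j = p i`.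
`p` is strictly decreasing in `i ∈ [1,r]` and `p i < t (K-r)`. If `i` is a hit, `p i = t j`, then `K - j ≥ r + h` where `h` = number of hits among `1..i` (the hits
`p 1 > p 2 > …` are distinct elements `t j'` with `t j ≤ t j' < t (K-r)`, so `j ≤ j' < K - r`), and `h = i - b`, `b` = number of non-hits among `1..i-1`.
If `i` is not a hit let `j` be minimal with `p i < t j` (`j ≤ K-r` exists); then `t i' < p i` for `i' < j`, so `hgap` applies, and `K - j ≥ r + h`, `h = (i-1) - b` = number of hits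
among `1..i-1`. -/
theorem column (K : ℕ) (t : ℕ → ℤ) (ht : StrictMono t) (n : ℤ) (hn : ∀ j < K, t j < n)
    (σ c θ : ℝ) (hσ : 1000 ≤ σ) (hc : 0 ≤ c) (hθ0 : 0 ≤ θ) (hθ : θ ≤ 0.63) (W : ℤ → ℝ)
    (hhit : ∀ j < K, W (t j) ≤ c / (σ + ((K : ℝ) - j)))
    (hgap : ∀ p : ℤ, ∀ j < K, p < t j → (∀ i < j, t i < p) → W p ≤ θ * c / (σ + ((K : ℝ) - j)))
    (χ : ℕ → ℝ) (hχ : ∀ m, 0 ≤ χ m)
    (hmono : ∀ m m' : ℕ, 1 ≤ m → m ≤ m' → (σ + m') * χ m' ≤ (σ + m) * χ m) :
    ∑ m ∈ Finset.Icc 1 K, ∑ m' ∈ Finset.Icc 1 K, χ m * χ m' * W (t (K - m) + t (K - m') - n) ≤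
      ∑ m ∈ Finset.Icc 1 K, ∑ m' ∈ Finset.Icc 1 K, χ m * χ m' * (c / (σ + m + m')) := by
  have hFs : ∀ a b : ℕ, χ a * χ b * W (t (K - a) + t (K - b) - n) =
      χ b * χ a * W (t (K - b) + t (K - a) - n) := by
    intro a b
    rw [add_comm (t (K - a)) (t (K - b)), mul_comm (χ a) (χ b)]
  have hGs : ∀ a b : ℕ, χ a * χ b * (c / (σ + a + b)) = χ b * χ a * (c / (σ + b + a)) := by
    intro a b
    rw [add_right_comm σ (a : ℝ) (b : ℝ), mul_comm (χ a) (χ b)]
  rw [col_symm (fun a b => χ a * χ b * W (t (K - a) + t (K - b) - n)) hFs K,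
    col_symm (fun a b => χ a * χ b * (c / (σ + a + b))) hGs K]
  refine Finset.sum_le_sum fun r hr => ?_
  rw [Finset.mem_Icc] at hr
  obtain ⟨hr1, hrK⟩ := hr
  obtain ⟨P, hP⟩ : ∃ P : ℕ → Prop, ∀ i, P i ↔ ∃ j, j < K ∧ t j = t (K - r) + t (K - i) - n :=
    ⟨_, fun _ => Iff.rfl⟩
  obtain ⟨hdec⟩ : Nonempty (DecidablePred P) := ⟨Classical.decPred P⟩
  have key : ∑ i ∈ Finset.Icc 1 r, ((if i < r then (2 : ℝ) else 1) * χ i) *
      W (t (K - r) + t (K - i) - n) ≤
      ∑ i ∈ Finset.Icc 1 r, ((if i < r then (2 : ℝ) else 1) * χ i) * (c / (σ + r + i)) := by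
    refine dp r σ c θ hσ hc hθ0 hθ (fun i => (if i < r then (2 : ℝ) else 1) * χ i) ?_ ?_
      P (fun i => W (t (K - r) + t (K - i) - n)) ?_ ?_
    · intro i
      refine mul_nonneg ?_ (hχ i)
      by_cases h : i < r
      · rw [if_pos h]; norm_num
      · rw [if_neg h]; norm_num
    · intro i i' h1 h2 h3
      have h4 := hmono i i' h1 h2
      have h5 : 0 ≤ (σ + i) * χ i := mul_nonneg (by positivity) (hχ i)
      change (σ + i') * ((if i' < r then (2 : ℝ) else 1) * χ i') ≤
        (σ + i) * ((if i < r then (2 : ℝ) else 1) * χ i)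
      by_cases h6 : i' < r
      · rw [if_pos h6, if_pos (lt_of_le_of_lt h2 h6)]
        linarith
      · rw [if_neg h6]
        by_cases h7 : i < r
        · rw [if_pos h7]
          linarith
        · rw [if_neg h7]
          linarith
    · intro i h1 h2 h3
      obtain ⟨j, hjK, hj⟩ := (hP i).1 h3
      have hlt : t j < t (K - r) := by
        rw [hj]
        have := hn (K - i) (by omega)
        linarith
      have hjr : j < K - r := ht.lt_iff_lt.1 hlt
      have hcnt := col_count K t ht n hn r hr1 hrK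
        (insert i (@Finset.filter _ P hdec (Finset.Ico 1 i))) (by
          intro x hx
          rw [Finset.mem_insert, Finset.mem_filter, Finset.mem_Ico] at hx
          rcases hx with rfl | ⟨⟨hx1, hx2⟩, _⟩
          · exact ⟨h1, h2⟩
          · exact ⟨hx1, by omega⟩) j hjr.le (by
          intro x hx
          rw [Finset.mem_insert, Finset.mem_filter, Finset.mem_Ico] at hx
          rcases hx with rfl | ⟨⟨hx1, hx2⟩, hx3⟩
          · exact ⟨j, hjK, hj, le_rfl⟩
          · obtain ⟨j', hj', hj''⟩ := (hP x).1 hx3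
            refine ⟨j', hj', hj'', ?_⟩
            have h5 : t (K - i) < t (K - x) := ht (by omega)
            have h6 : t j < t j' := by
              rw [hj, hj'']
              linarith
            exact (ht.lt_iff_lt.1 h6).le)
      rw [Finset.card_insert_of_notMem (by
        rw [Finset.mem_filter, Finset.mem_Ico]
        rintro ⟨⟨_, hx⟩, _⟩
        exact lt_irrefl _ hx)] at hcnt
      have hle : ∀ d2 : DecidablePred (fun j => ¬ P j), c / (σ + ((K : ℝ) - j)) ≤
          c / (σ + r + i - ((@Finset.filter _ (fun j => ¬ P j) d2 (Finset.Ico 1 i)).card : ℝ)) := by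
        intro d2
        have h8 := col_card P i h1 hdec d2
        have h9 := hcnt
        generalize (@Finset.filter _ (fun j => ¬ P j) d2 (Finset.Ico 1 i)).card = b at h8 ⊢
        generalize (@Finset.filter _ P hdec (Finset.Ico 1 i)).card = g at h8 h9
        have h10 : r + i + j ≤ K + b := by omega
        have h11 : b + 1 ≤ i := by omega
        have h10' : (r : ℝ) + i + j ≤ K + b := by exact_mod_cast h10
        have h11' : (b : ℝ) + 1 ≤ i := by exact_mod_cast h11
        have hr0 : (0 : ℝ) ≤ r := Nat.cast_nonneg r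
        refine div_le_div_of_nonneg_left hc (by linarith) (by linarith)
      have hW := hhit j hjK
      rw [hj] at hW
      exact hW.trans (hle _)
    · intro i h1 h2 h3
      have hlt : t (K - r) + t (K - i) - n < t (K - r) := by
        have := hn (K - i) (by omega)
        linarith
      have hex : ∃ j, t (K - r) + t (K - i) - n < t j := ⟨K - r, hlt⟩
      classical
      obtain ⟨j, hj1, hj2⟩ : ∃ j, t (K - r) + t (K - i) - n < t j ∧
          ∀ i' < j, ¬ (t (K - r) + t (K - i) - n < t i') :=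
        ⟨Nat.find hex, Nat.find_spec hex, fun i' hi' => Nat.find_min hex hi'⟩
      have hjr : j ≤ K - r := by
        by_contra hcon
        exact hj2 (K - r) (by omega) hlt
      have hjK : j < K := by omega
      have hcnt := col_count K t ht n hn r hr1 hrK
        (@Finset.filter _ P hdec (Finset.Ico 1 i)) (by
          intro x hx
          rw [Finset.mem_filter, Finset.mem_Ico] at hx
          exact ⟨hx.1.1, by omega⟩) j hjr (by
          intro x hx
          rw [Finset.mem_filter, Finset.mem_Ico] at hx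
          obtain ⟨⟨hx1, hx2⟩, hx3⟩ := hx
          obtain ⟨j', hj', hj''⟩ := (hP x).1 hx3
          refine ⟨j', hj', hj'', ?_⟩
          have h5 : t (K - i) < t (K - x) := ht (by omega)
          by_contra hcon
          refine hj2 j' (not_le.1 hcon) ?_
          rw [hj'']
          linarith)
      have hle : ∀ d2 : DecidablePred (fun j => ¬ P j), θ * c / (σ + ((K : ℝ) - j)) ≤
          θ * c / (σ + r + i - 1 - ((@Finset.filter _ (fun j => ¬ P j) d2 (Finset.Ico 1 i)).card : ℝ)) := by
        intro d2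
        have h8 := col_card P i h1 hdec d2
        have h9 := hcnt
        generalize (@Finset.filter _ (fun j => ¬ P j) d2 (Finset.Ico 1 i)).card = b at h8 ⊢
        generalize (@Finset.filter _ P hdec (Finset.Ico 1 i)).card = g at h8 h9
        have h10 : r + i + j ≤ K + b + 1 := by omega
        have h11 : b + 1 ≤ i := by omega
        have h10' : (r : ℝ) + i + j ≤ K + b + 1 := by exact_mod_cast h10
        have h11' : (b : ℝ) + 1 ≤ i := by exact_mod_cast h11
        have hr0 : (0 : ℝ) ≤ r := Nat.cast_nonneg r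
        refine div_le_div_of_nonneg_left (mul_nonneg hθ0 hc) (by linarith) (by linarith)
      have hW := hgap _ j hjK hj1 (fun i' hi' => by
        have h12 := not_lt.1 (hj2 i' hi')
        rcases h12.lt_or_eq with h13 | h13
        · exact h13
        · exact absurd ((hP i).2 ⟨i', by omega, h13⟩) h3)
      exact hW.trans (hle _)
  have h1 : ∀ X : ℕ → ℝ, ∑ i ∈ Finset.Icc 1 r, (if i < r then (2 : ℝ) else 1) * (χ i * χ r * X i) =
      χ r * ∑ i ∈ Finset.Icc 1 r, ((if i < r then (2 : ℝ) else 1) * χ i) * X i := by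
    intro X
    rw [Finset.mul_sum]
    refine Finset.sum_congr rfl fun i _ => ?_
    ring
  have e1 := h1 (fun i => W (t (K - i) + t (K - r) - n))
  have e2 := h1 (fun i => c / (σ + i + r))
  rw [e1, e2]
  refine mul_le_mul_of_nonneg_left ?_ (hχ r)
  refine le_trans (le_of_eq ?_) (le_trans key (le_of_eq ?_))
  · refine Finset.sum_congr rfl fun i _ => ?_
    rw [add_comm (t (K - i)) (t (K - r))]
  · refine Finset.sum_congr rfl fun i _ => ?_
    rw [add_right_comm σ (r : ℝ) (i : ℝ)]

end Pool.Agent.SLit
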