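import Pool.Agent.Lib_SLit.Defs

/-!
# SLit piece CONV: Fourier coefficients of a product
-/

set_option autoImplicit false

namespace Pool.Agent.SLit

open MeasureTheory AddCircle

private theorem conv_int (f : CC) (n : ℤ) :
    co n f = ∫ t : AddCircle (1:ℝ), fourier (-n) t * f t ∂haarAddCircle := by
  unfold co fourierCoeff
  simp only [smul_eq_mul]

private theorem conv_fmul (m n : ℤ) (t : AddCircle (1:ℝ)) :
    (fourier m t : ℂ) * fourier n t = fourier (m + n) t := by
  rw [fourier_add]

private theorem conv_repr (f : CC) (k : ℤ) :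
    inner ℂ (fourierBasis (T := (1:ℝ)) k) (ContinuousMap.toLp (E := ℂ) 2 haarAddCircle ℂ f) = co k f := by
  rw [← HilbertBasis.repr_apply_apply, fourierBasis_repr, fourierCoeff_toLp]
  rfl

/-- Convolution formula. PROOF: `f`, `g` are in `L²`, so `(co k f)`, `(co k g)` are square summable and by Parseval (`fourierBasis` is a Hilbert basis of
`Lp ℂ 2 haarAddCircle`, `HilbertBasis.hasSum_inner_mul_inner` / `hasSum_fourier_series_L2`) applied to the two `L²` functions `f` and `ex n * star g`:
`∫ f g e(-n x) = ⟪ex n * star g, f⟫ = ∑_k conj(co k (ex n * star g)) co k f`, and `conj (co k (ex n * star g)) = co (n-k) g`.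
(Alternative: both sides are continuous in `f` for the `L²` norm and it is trivial for `f = ex m`; use
`has_pointwise_sum...` or `HasSum` of the Fourier series in `L²`.) -/
theorem hasSum_co_mul (f g : CC) (n : ℤ) : HasSum (fun k : ℤ => co k f * co (n - k) g) (co n (f * g)) := by
  have h := (fourierBasis (T := (1:ℝ))).hasSum_inner_mul_inner
    (ContinuousMap.toLp (E := ℂ) 2 haarAddCircle ℂ (ex n * star g))
    (ContinuousMap.toLp (E := ℂ) 2 haarAddCircle ℂ f)
  have h1 : inner ℂ (ContinuousMap.toLp (E := ℂ) 2 (haarAddCircle (T := (1:ℝ))) ℂ (ex n * star g))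
      (ContinuousMap.toLp (E := ℂ) 2 haarAddCircle ℂ f) = co n (f * g) := by
    rw [ContinuousMap.inner_toLp, conv_int]
    apply integral_congr_ae
    refine Filter.Eventually.of_forall fun t => ?_
    simp only [ContinuousMap.mul_apply, ContinuousMap.star_apply, map_mul, ex, fourier_neg]
    simp
    ring
  have h2 : ∀ k : ℤ, inner ℂ (ContinuousMap.toLp (E := ℂ) 2 (haarAddCircle (T := (1:ℝ))) ℂ (ex n * star g))
      (fourierBasis (T := (1:ℝ)) k) = co (n - k) g := by
    intro k
    rw [← inner_conj_symm, conv_repr, conv_int, conv_int, ← integral_conj]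
    apply integral_congr_ae
    refine Filter.Eventually.of_forall fun t => ?_
    have h3 : (fourier (-(n - k)) t : ℂ) = fourier k t * fourier (-n) t := by
      rw [conv_fmul]
      congr 2
      ring
    simp only [ContinuousMap.mul_apply, ContinuousMap.star_apply, map_mul, ex, h3, fourier_neg]
    simp
    ring
  rw [h1] at h
  have h4 : (fun k : ℤ => co k f * co (n - k) g) = fun k : ℤ =>
      inner ℂ (ContinuousMap.toLp (E := ℂ) 2 (haarAddCircle (T := (1:ℝ))) ℂ (ex n * star g))
        (fourierBasis (T := (1:ℝ)) k) *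
      inner ℂ (fourierBasis (T := (1:ℝ)) k) (ContinuousMap.toLp (E := ℂ) 2 haarAddCircle ℂ f) := by
    funext k
    rw [h2, conv_repr, mul_comm]
  rw [h4]
  exact h

end Pool.Agent.SLit
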