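import Pool.Agent.Lib_SLit.Exch

/-!
# SLit piece DP: one column
-/

set_option autoImplicit false

namespace Pool.Agent.SLit

/-- One non-hit step of the backward induction. -/
theorem dp_step (r i b : ℕ) (σ c θ : ℝ) (hσ : 1000 ≤ σ) (hc : 0 ≤ c) (hθ : θ ≤ 0.63)
    (β : ℕ → ℝ) (hβ : ∀ i, 0 ≤ β i)
    (hmono : ∀ i i', 1 ≤ i → i ≤ i' → i' ≤ r → (σ + i') * β i' ≤ (σ + i) * β i)
    (hi1 : 1 ≤ i) (hir : i ≤ r) (hb : b + 1 ≤ i) :
    β i * (θ * c / (σ + r + i - 1 - b)) +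
      ∑ n ∈ Finset.Ico (i + 1) (r + 1), β n * (c / (σ + r + n - ((b + 1 : ℕ) : ℝ))) ≤
    β i * (c / (σ + r + i - b)) +
      ∑ n ∈ Finset.Ico (i + 1) (r + 1), β n * (c / (σ + r + n - b)) := by
  have hbi : (b : ℝ) + 1 ≤ i := by exact_mod_cast hb
  have hi1' : (1 : ℝ) ≤ i := by exact_mod_cast hi1
  have hir' : (i : ℝ) ≤ r := by exact_mod_cast hir
  set y : ℝ := σ + r + i - b with hy
  have hy1 : σ + r + 1 ≤ y := by rw [hy]; linarith
  obtain ⟨L, hL⟩ : ∃ L, r = i + L := Nat.exists_eq_add_of_le hir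
  have hLr : (r : ℝ) = i + L := by rw [hL]; push_cast; ring
  have hex := exch (σ + i) y L (by linarith) (by rw [hLr] at hy1; linarith)
  have hyp : 0 < y - 1 := by linarith
  have hθy : 1 / y - 0.63 / (y - 1) ≤ 1 / y - θ / (y - 1) := by
    have : θ / (y - 1) ≤ 0.63 / (y - 1) := by
      apply div_le_div_of_nonneg_right hθ hyp.le
    linarith
  have hsum : ∑ n ∈ Finset.Ico (i + 1) (r + 1),
      (β n * (c / (σ + r + n - ((b + 1 : ℕ) : ℝ))) - β n * (c / (σ + r + n - b))) ≤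
      c * β i * ((σ + i) * ∑ n ∈ Finset.Icc 1 L,
        1 / ((σ + i + n) * ((y + n - 1) * (y + n)))) := by
    have h1 : Finset.Ico (i + 1) (r + 1) = Finset.Ico (1 + i) (L + 1 + i) := by
      rw [hL]
      congr 1 <;> omega
    rw [h1, ← Finset.sum_Ico_add']
    have h2 : Finset.Icc 1 L = Finset.Ico 1 (L + 1) := rfl
    rw [h2, Finset.mul_sum, Finset.mul_sum]
    refine Finset.sum_le_sum fun k hk => ?_
    rw [Finset.mem_Ico] at hk
    have hk1 : (1 : ℝ) ≤ k := by exact_mod_cast hk.1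
    have hm := hmono i (k + i) hi1 (by omega) (by omega)
    push_cast at hm ⊢
    have hpos : 0 < σ + i + k := by linarith
    have hβk : β (k + i) ≤ β i * (σ + i) / (σ + i + k) := by
      rw [le_div_iff₀ hpos]
      have : σ + ((k : ℝ) + i) = σ + i + k := by ring
      rw [this] at hm
      linarith
    have hd1 : 0 < y + k - 1 := by linarith
    have hd2 : 0 < y + k := by linarith
    have e1 : σ + r + ((k : ℝ) + i) - (b + 1) = y + k - 1 := by rw [hy]; ring
    have e2 : σ + r + ((k : ℝ) + i) - b = y + k := by rw [hy]; ring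
    rw [e1, e2]
    have e3 : β (k + i) * (c / (y + k - 1)) - β (k + i) * (c / (y + k)) =
        β (k + i) * (c / ((y + k - 1) * (y + k))) := by
      field_simp
      ring
    have e4 : c * β i * ((σ + i) * (1 / ((σ + i + k) * ((y + k - 1) * (y + k))))) =
        β i * (σ + i) / (σ + i + k) * (c / ((y + k - 1) * (y + k))) := by
      field_simp
    rw [e3, e4]
    exact mul_le_mul_of_nonneg_right hβk (by positivity)
  have hfin : c * β i * ((σ + i) * ∑ n ∈ Finset.Icc 1 L,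
        1 / ((σ + i + n) * ((y + n - 1) * (y + n)))) ≤ c * β i * (1 / y - θ / (y - 1)) :=
    mul_le_mul_of_nonneg_left (hex.trans hθy) (mul_nonneg hc (hβ i))
  rw [Finset.sum_sub_distrib] at hsum
  have e5 : σ + r + i - 1 - b = y - 1 := by rw [hy]; ring
  rw [e5]
  have e6 : c * β i * (1 / y - θ / (y - 1)) = β i * (c / y) - β i * (θ * c / (y - 1)) := by
    ring
  linarith

open Classical in
/-- PROOF. Let `b i` be the number of non-hits before `i`, `s = σ + r`, `V i b := ∑_{n = i}^r β n * (c/(s + n - b))` the cost of the all-hit continuation. Backward induction on `i`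
(from `r+1` to `1`): `∑_{n=i}^r β n Wv n ≤ V i (b i)`.
Hit at `i`: `b (i+1) = b i` and equality of the leading terms. Non-hit: `b (i+1) = b i + 1`, so
`∑ ≤ β i θ c/(s+i-1-b) + V (i+1) (b+1)` and this is `≤ V i b` iff
`∑_{n=i+1}^r β n (1/(s+n-b-1) - 1/(s+n-b)) ≤ β i (1/(s+i-b) - θ/(s+i-1-b))`. As `β (i+n) ≤ β i (σ+i)/(σ+i+n)` this follows from `exch` with `u = σ+i`,
`L = r - i`, `y = s+i-b ≥ σ + r + 1 = u + L + 1` (`b ≤ i-1`). Finally `i = 1`, `b = 0`. -/
theorem dp (r : ℕ) (σ c θ : ℝ) (hσ : 1000 ≤ σ) (hc : 0 ≤ c) (hθ0 : 0 ≤ θ) (hθ : θ ≤ 0.63) (β : ℕ → ℝ)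
    (hβ : ∀ i, 0 ≤ β i) (hmono : ∀ i i', 1 ≤ i → i ≤ i' → i' ≤ r → (σ + i') * β i' ≤ (σ + i) * β i)
    (hit : ℕ → Prop) (Wv : ℕ → ℝ)
    (hW : ∀ i, 1 ≤ i → i ≤ r → hit i →
      Wv i ≤ c / (σ + r + i - (((Finset.Ico 1 i).filter (fun j => ¬ hit j)).card : ℝ)))
    (hW' : ∀ i, 1 ≤ i → i ≤ r → ¬ hit i →
      Wv i ≤ θ * c / (σ + r + i - 1 - (((Finset.Ico 1 i).filter (fun j => ¬ hit j)).card : ℝ))) :
    ∑ i ∈ Finset.Icc 1 r, β i * Wv i ≤ ∑ i ∈ Finset.Icc 1 r, β i * (c / (σ + r + i)) := by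
  set b : ℕ → ℕ := fun i => ((Finset.Ico 1 i).filter (fun j => ¬ hit j)).card with hb
  have hcl : ∀ i, 1 ≤ i → b i + 1 ≤ i := by
    intro i hi
    have h1 : b i ≤ (Finset.Ico 1 i).card := Finset.card_filter_le _ _
    rw [Nat.card_Ico] at h1
    omega
  have main : ∑ n ∈ Finset.Ico 1 (r + 1), β n * Wv n ≤
      ∑ n ∈ Finset.Ico 1 (r + 1), β n * (c / (σ + r + n - (b 1 : ℝ))) := by
    refine Nat.decreasingInduction' (P := fun i => ∑ n ∈ Finset.Ico i (r + 1), β n * Wv n ≤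
      ∑ n ∈ Finset.Ico i (r + 1), β n * (c / (σ + r + n - (b i : ℝ)))) (m := 1) (n := r + 1)
      ?_ (by omega) (by simp)
    intro i hir hi1 ih
    rw [Finset.sum_eq_sum_Ico_succ_bot hir, Finset.sum_eq_sum_Ico_succ_bot hir]
    have hIns : Finset.Ico 1 (i + 1) = insert i (Finset.Ico 1 i) := by
      rw [Finset.insert_Ico_right_eq_Ico_add_one hi1]
    by_cases hh : hit i
    · have hb1 : b (i + 1) = b i := by
        simp only [hb]
        rw [hIns, Finset.filter_insert, if_neg (by simpa using hh)]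
      rw [hb1] at ih
      have h1 := mul_le_mul_of_nonneg_left (hW i hi1 (by omega) hh) (hβ i)
      exact add_le_add h1 ih
    · have hb1 : b (i + 1) = b i + 1 := by
        simp only [hb]
        rw [hIns, Finset.filter_insert, if_pos hh, Finset.card_insert_of_notMem (by simp)]
      rw [hb1] at ih
      have h1 := mul_le_mul_of_nonneg_left (hW' i hi1 (by omega) hh) (hβ i)
      exact (add_le_add h1 ih).trans
        (dp_step r i (b i) σ c θ hσ hc hθ β hβ hmono hi1 (by omega) (hcl i hi1))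
  have hb0 : b 1 = 0 := by simp [hb]
  rw [hb0] at main
  simp only [Nat.cast_zero, sub_zero] at main
  exact main

end Pool.Agent.SLit
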