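import Mathlib

/-!
# MP_25630e_an (strong Littlewood conjecture): definitions

`CC` = continuous complex functions on `ℝ/ℤ`; `co n f` = `n`-th Fourier coefficient; `HS m f`: the spectrum of `f`
is contained in `{m, m+1, …}`; `nsq f = ∫ |f|²`; `Sch T F ρ`: `F = A/B` is a Schur function of the cascade
(Wall polynomials `A`, `B` with spectrum in `[0, T]`, `B(0) = 1`, `|B|² - |A|² = ρ`, `1/B` analytic).
-/

set_option autoImplicit false

namespace Pool.Agent.SLit

open MeasureTheory AddCircle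

/-- continuous complex functions on the circle `ℝ/ℤ` -/
abbrev CC := C(UnitAddCircle, ℂ)

/-- `n`-th Fourier coefficient -/
noncomputable def co (n : ℤ) (f : CC) : ℂ := fourierCoeff (f : UnitAddCircle → ℂ) n

/-- the spectrum of `f` is contained in `{m, m+1, …}` -/
def HS (m : ℤ) (f : CC) : Prop := ∀ n < m, co n f = 0

/-- `∫ |f|²` -/
noncomputable def nsq (f : CC) : ℝ := ∫ x, ‖f x‖ ^ 2 ∂(haarAddCircle (T := (1:ℝ)))

/-- the exponential `e(n x)` as an element of `CC` -/
noncomputable def ex (n : ℤ) : CC := (fourier n : C(AddCircle (1:ℝ), ℂ))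

/-- a stage of the cascade -/
structure Stage (T : ℤ) (A B H : CC) (ρ : ℝ) : Prop where
  inv : B * H = 1
  specA : HS 0 A
  specA' : HS 0 (ex T * star A)
  specB : HS 0 B
  specB' : HS 0 (ex T * star B)
  specH : HS 0 H
  coH : co 0 H = 1
  pos : 0 < ρ
  id : ∀ x, ‖B x‖ ^ 2 - ‖A x‖ ^ 2 = ρ

/-- `F` is the Schur function `A/B` of a stage with last time `T` -/
def Sch (T : ℤ) (F : CC) (ρ : ℝ) : Prop := ∃ A B H, Stage T A B H ρ ∧ F = A * H

end Pool.Agent.SLit
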