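import Pool.Agent.Lib_SLit.TwoB

/-!
# SLit: sets of small diameter
-/

set_option autoImplicit false

namespace Pool.Agent.SLit

open MeasureTheory Set Real

/-- a median -/
theorem exists_median (A : Finset ℤ) (hA : A.Nonempty) :
    ∃ x0 ∈ A, (A.filter (fun a => a < x0)).card = A.card / 2 ∧
      (A.filter (fun a => x0 < a)).card = A.card - 1 - A.card / 2 := by
  classical
  have hn : 0 < A.card := hA.card_pos
  set i : Fin A.card := ⟨A.card / 2, by omega⟩ with hi
  set f := A.orderEmbOfFin rfl with hf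
  have hfA : ∀ j, f j ∈ A := fun j => A.orderEmbOfFin_mem rfl j
  have himg : (Finset.univ : Finset (Fin A.card)).image f = A := by
    apply Finset.eq_of_subset_of_card_le
    · intro a ha
      rw [Finset.mem_image] at ha
      obtain ⟨j, -, rfl⟩ := ha
      exact hfA j
    · rw [Finset.card_image_of_injective _ f.injective, Finset.card_univ, Fintype.card_fin]
  refine ⟨f i, hfA i, ?_, ?_⟩
  · have h1 : A.filter (fun a => a < f i) = (Finset.Iio i).image f := by
      ext a
      constructor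
      · intro ha
        rw [Finset.mem_filter] at ha
        obtain ⟨ha1, ha2⟩ := ha
        rw [← himg, Finset.mem_image] at ha1
        obtain ⟨j, -, rfl⟩ := ha1
        rw [Finset.mem_image]
        exact ⟨j, by rw [Finset.mem_Iio]; exact f.lt_iff_lt.1 ha2, rfl⟩
      · intro ha
        rw [Finset.mem_image] at ha
        obtain ⟨j, hj, rfl⟩ := ha
        rw [Finset.mem_filter]
        exact ⟨hfA j, f.lt_iff_lt.2 (Finset.mem_Iio.1 hj)⟩
    rw [h1, Finset.card_image_of_injective _ f.injective, Fin.card_Iio]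
  · have h1 : A.filter (fun a => f i < a) = (Finset.Ioi i).image f := by
      ext a
      constructor
      · intro ha
        rw [Finset.mem_filter] at ha
        obtain ⟨ha1, ha2⟩ := ha
        rw [← himg, Finset.mem_image] at ha1
        obtain ⟨j, -, rfl⟩ := ha1
        rw [Finset.mem_image]
        exact ⟨j, by rw [Finset.mem_Ioi]; exact f.lt_iff_lt.1 ha2, rfl⟩
      · intro ha
        rw [Finset.mem_image] at ha
        obtain ⟨j, hj, rfl⟩ := ha
        rw [Finset.mem_filter]
        exact ⟨hfA j, f.lt_iff_lt.2 (Finset.mem_Ioi.1 hj)⟩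
    rw [h1, Finset.card_image_of_injective _ f.injective, Fin.card_Ioi]

theorem card_right (A : Finset ℤ) (x0 : ℤ) (D : ℕ) (hD : 0 < D) :
    (A.filter (fun a => x0 < a)).card ≤ (A.filter (fun a => x0 + D ≤ a)).card + (D - 1) := by
  classical
  have h1 : A.filter (fun a => x0 < a) ⊆ A.filter (fun a => x0 + D ≤ a) ∪ Finset.Ioo x0 (x0 + D) := by
    intro a ha
    rw [Finset.mem_filter] at ha
    rw [Finset.mem_union, Finset.mem_filter, Finset.mem_Ioo]
    by_cases h : x0 + D ≤ a
    · exact Or.inl ⟨ha.1, h⟩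
    · exact Or.inr ⟨ha.2, by omega⟩
  have h2 := (Finset.card_le_card h1).trans (Finset.card_union_le _ _)
  rw [Int.card_Ioo] at h2
  have h3 : (x0 + (D:ℤ) - x0 - 1).toNat = D - 1 := by omega
  rw [h3] at h2
  exact h2

theorem card_left (A : Finset ℤ) (x0 : ℤ) (D : ℕ) (hD : 0 < D) :
    (A.filter (fun a => a < x0)).card ≤ (A.filter (fun a => a ≤ x0 - D)).card + (D - 1) := by
  classical
  have h1 : A.filter (fun a => a < x0) ⊆ A.filter (fun a => a ≤ x0 - D) ∪ Finset.Ioo (x0 - D) x0 := by
    intro a ha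
    rw [Finset.mem_filter] at ha
    rw [Finset.mem_union, Finset.mem_filter, Finset.mem_Ioo]
    by_cases h : a ≤ x0 - D
    · exact Or.inl ⟨ha.1, h⟩
    · exact Or.inr ⟨by omega, ha.2⟩
  have h2 := (Finset.card_le_card h1).trans (Finset.card_union_le _ _)
  rw [Int.card_Ioo] at h2
  have h3 : (x0 - (x0 - (D:ℤ)) - 1).toNat = D - 1 := by omega
  rw [h3] at h2
  exact h2

theorem dense_bound (δ : ℝ) (hδ : 0 < δ) : ∃ C : ℝ, ∀ (A : Finset ℤ) (hA : A.Nonempty),
    (4 / π ^ 2 - δ) * Real.log (A.card : ℝ) -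
      C * (1 + Real.log (((A.max' hA - A.min' hA + 1 : ℤ) : ℝ) / A.card)) ≤
      ∫ x in (0:ℝ)..1, ‖∑ a ∈ A, Complex.exp (2 * (Real.pi : ℂ) * Complex.I * (a : ℂ) * (x : ℂ))‖ := by
  classical
  have hπ := Real.pi_pos
  have hπ3 := Real.pi_gt_three
  have hπ4 := Real.pi_lt_four
  set δ' : ℝ := min (δ / 2) (1 / 10) with hδ'
  have hδ'0 : 0 < δ' := lt_min (by linarith) (by norm_num)
  obtain ⟨C0, hC0, hC⟩ := two_bound δ' hδ'0
  set η : ℝ := 2 / π ^ 2 - δ' with hη
  have hη0 : 0 ≤ η := by
    have h1 : 2 / 16 ≤ 2 / π ^ 2 := by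
      apply div_le_div_of_nonneg_left (by norm_num) (by positivity); nlinarith
    have h2 : δ' ≤ 1 / 10 := min_le_right _ _
    linarith
  have hη1 : η ≤ 2 / 9 := by
    have h1 : 2 / π ^ 2 ≤ 2 / 9 := by
      apply div_le_div_of_nonneg_left (by norm_num) (by norm_num); nlinarith
    linarith
  have hηδ : 4 / π ^ 2 - δ ≤ 2 * η := by
    have h1 : δ' ≤ δ / 2 := min_le_left _ _
    have h2 : 4 / π ^ 2 = 2 * (2 / π ^ 2) := by ring
    rw [hη, h2]
    linarith
  have hl2 := Real.log_two_gt_d9
  have hl2' := Real.log_two_lt_d9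
  have hl4 : Real.log 4 = 2 * Real.log 2 := by
    rw [show (4:ℝ) = 2 ^ 2 by norm_num, Real.log_pow]; norm_num
  have hl16 : Real.log 16 = 4 * Real.log 2 := by
    rw [show (16:ℝ) = 2 ^ 4 by norm_num, Real.log_pow]; norm_num
  refine ⟨6 * C0 + 2, fun A hA => ?_⟩
  set n := A.card with hn
  have hn0 : 0 < n := hA.card_pos
  set d : ℤ := A.max' hA - A.min' hA + 1 with hd
  have hmm := A.min'_le _ (A.max'_mem hA)
  have hd1 : (n : ℤ) ≤ d := by
    have h1 : A ⊆ Finset.Icc (A.min' hA) (A.max' hA) := by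
      intro a ha
      rw [Finset.mem_Icc]
      exact ⟨A.min'_le a ha, A.le_max' a ha⟩
    have h2 := Finset.card_le_card h1
    rw [Int.card_Icc] at h2
    omega
  have hnR : (0:ℝ) < n := by exact_mod_cast hn0
  have hdR : (n:ℝ) ≤ (d:ℝ) := by exact_mod_cast hd1
  have hlog0 : 0 ≤ Real.log ((d:ℝ) / n) := Real.log_nonneg (by rw [le_div_iff₀ hnR]; linarith)
  have hlogn : 0 ≤ Real.log (n:ℝ) := Real.log_natCast_nonneg n
  have hI : 0 ≤ ∫ x in (0:ℝ)..1, ‖∑ a ∈ A, Complex.exp (2 * (Real.pi : ℂ) * Complex.I * (a : ℂ) * (x : ℂ))‖ :=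
    intervalIntegral.integral_nonneg (by norm_num) fun x _ => norm_nonneg _
  have hA0 : (4 / π ^ 2 - δ) * Real.log (n : ℝ) ≤ 2 * η * Real.log (n:ℝ) :=
    mul_le_mul_of_nonneg_right hηδ hlogn
  by_cases hn16 : n < 16
  · have h1 : Real.log (n:ℝ) ≤ Real.log 16 :=
      Real.log_le_log hnR (by exact_mod_cast hn16.le)
    have h2 : 2 * η * Real.log (n:ℝ) ≤ 2 := by
      rw [hl16] at h1
      nlinarith
    have h3 : 0 ≤ C0 * Real.log ((d:ℝ) / n) := mul_nonneg hC0 hlog0
    nlinarith
  · push Not at hn16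
    obtain ⟨x0, hx0, hl, hr⟩ := exists_median A hA
    rw [← hn] at hl hr
    set D : ℕ := n / 8 with hD
    have hD0 : 0 < D := by omega
    have hcr := card_right A x0 D hD0
    have hcl := card_left A x0 D hD0
    rw [hr] at hcr
    rw [hl] at hcl
    have hb := hC A x0 D hD0
    -- number of annuli
    have hann : (annuli A x0 D : ℝ) ≤ 5 + 2 * Real.log ((d:ℝ) / n) := by
      have h1 : annuli A x0 D ≤ Nat.log 2 (d.toNat / D) + 1 := by
        unfold annuli
        have h2 : (A.filter (fun a => D ≤ (a - x0).natAbs)).image (fun a => Nat.log 2 ((a - x0).natAbs / D)) ⊆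
            Finset.range (Nat.log 2 (d.toNat / D) + 1) := by
          intro c hc
          rw [Finset.mem_image] at hc
          obtain ⟨a, ha, rfl⟩ := hc
          rw [Finset.mem_filter] at ha
          rw [Finset.mem_range, Nat.lt_succ_iff]
          apply Nat.log_mono_right
          apply Nat.div_le_div_right
          have h3 := A.min'_le a ha.1
          have h4 := A.le_max' a ha.1
          have h5 := A.min'_le x0 hx0
          have h6 := A.le_max' x0 hx0
          omega
        have h3 := Finset.card_le_card h2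
        rwa [Finset.card_range] at h3
      have h2 : ((Nat.log 2 (d.toNat / D) : ℕ) : ℝ) * Real.log 2 ≤ Real.log (16 * ((d:ℝ) / n)) := by
        have hq : d.toNat / D ≠ 0 := by
          have : D ≤ d.toNat := by omega
          exact (Nat.div_pos this hD0).ne'
        have h3 : 2 ^ Nat.log 2 (d.toNat / D) ≤ d.toNat / D := Nat.pow_log_le_self 2 hq
        have h4 : ((2:ℝ) ^ Nat.log 2 (d.toNat / D)) ≤ 16 * ((d:ℝ) / n) := by
          have h5 : ((2:ℝ) ^ Nat.log 2 (d.toNat / D)) ≤ ((d.toNat / D : ℕ) : ℝ) := by exact_mod_cast h3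
          have h6 : ((d.toNat / D : ℕ) : ℝ) ≤ (d.toNat : ℝ) / (D:ℝ) := Nat.cast_div_le
          have h7 : (d.toNat : ℝ) = (d:ℝ) := by
            have : (d.toNat : ℤ) = d := Int.toNat_of_nonneg (by omega)
            exact_mod_cast this
          have h8 : (n:ℝ) ≤ 16 * D := by
            have : n ≤ 16 * D := by omega
            exact_mod_cast this
          have hDR : (0:ℝ) < D := by exact_mod_cast hD0
          rw [h7] at h6
          refine h5.trans (h6.trans ?_)
          rw [mul_div_assoc', div_le_div_iff₀ hDR hnR]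
          have hd0 : (0:ℝ) ≤ d := by linarith
          nlinarith
        rw [← Real.log_pow]
        exact Real.log_le_log (by positivity) h4
      have hdn : (0:ℝ) < (d:ℝ) / n := div_pos (by linarith) hnR
      rw [Real.log_mul (by norm_num) hdn.ne', hl16] at h2
      have h3 : (annuli A x0 D : ℝ) ≤ (Nat.log 2 (d.toNat / D) : ℝ) + 1 := by exact_mod_cast h1
      have h4 : (Nat.log 2 (d.toNat / D) : ℝ) ≤ 4 + 2 * Real.log ((d:ℝ) / n) := by
        by_contra hcon
        push Not at hcon
        nlinarith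
      linarith
    -- cardinalities
    have hR4 : (n:ℝ) / 4 ≤ ((A.filter (fun a => x0 + D ≤ a)).card : ℝ) + 1 := by
      rw [div_le_iff₀ (by norm_num)]
      have : n ≤ ((A.filter (fun a => x0 + D ≤ a)).card + 1) * 4 := by omega
      exact_mod_cast this
    have hL4 : (n:ℝ) / 4 ≤ ((A.filter (fun a => a ≤ x0 - D)).card : ℝ) + 1 := by
      rw [div_le_iff₀ (by norm_num)]
      have : n ≤ ((A.filter (fun a => a ≤ x0 - D)).card + 1) * 4 := by omega
      exact_mod_cast this
    have hn4 : (0:ℝ) < (n:ℝ) / 4 := by positivity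
    have hlR := Real.log_le_log hn4 hR4
    have hlL := Real.log_le_log hn4 hL4
    rw [Real.log_div hnR.ne' (by norm_num), hl4] at hlR hlL
    refine le_trans ?_ hb
    have h1 : 2 * η * Real.log (n:ℝ) - 2 ≤ η * (Real.log (((A.filter (fun a => x0 + D ≤ a)).card : ℝ) + 1) +
        Real.log (((A.filter (fun a => a ≤ x0 - D)).card : ℝ) + 1)) := by
      have h2 := mul_le_mul_of_nonneg_left (add_le_add hlR hlL) hη0
      refine le_trans ?_ h2
      nlinarith
    have h2 : C0 * (1 + (annuli A x0 D : ℝ)) ≤ C0 * (6 * (1 + Real.log ((d:ℝ) / n))) := by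
      apply mul_le_mul_of_nonneg_left _ hC0
      linarith
    nlinarith

end Pool.Agent.SLit
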