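import Mathlib

/-!
# SLit piece EXCH: the exchange inequality (pure real inequality)
-/

set_option autoImplicit false

namespace Pool.Agent.SLit

/-- Telescoping majorant used in `exch`. -/
theorem exch_tele (w : ℝ) (L : ℕ) (hw : 1 ≤ w) (hLw : (L : ℝ) ≤ w) (k : ℕ) (hk : k ≤ L) :
    ∑ n ∈ Finset.Icc 1 k, (w - n) / ((w + n) * (w + n + 1)) ≤
      k * (3 * w - k) / (3 * w * (w + k + 1)) := by
  induction k with
  | zero => simp
  | succ m ih =>
    have ih' := ih (by omega)
    rw [Finset.sum_Icc_succ_top (by omega)]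
    have hm : ((m : ℝ) + 1) ≤ w := by
      have : ((m + 1 : ℕ) : ℝ) ≤ L := by exact_mod_cast hk
      push_cast at this
      linarith
    have hm0 : (0 : ℝ) ≤ m := Nat.cast_nonneg m
    push_cast
    have hstep : (w - (m + 1)) / ((w + (m + 1)) * (w + (m + 1) + 1)) ≤
        (m + 1) * (3 * w - (m + 1)) / (3 * w * (w + (m + 1) + 1)) -
          m * (3 * w - m) / (3 * w * (w + m + 1)) := by
      have e : (m + 1) * (3 * w - (m + 1)) / (3 * w * (w + (m + 1) + 1)) -
          m * (3 * w - m) / (3 * w * (w + m + 1)) =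
          ((m + 1) * (3 * w - (m + 1)) * (w + m + 1) - m * (3 * w - m) * (w + (m + 1) + 1)) /
            (3 * w * ((w + (m + 1)) * (w + (m + 1) + 1))) := by
        have h1 : w ≠ 0 := by positivity
        have h2 : w + (m + 1) + 1 ≠ 0 := by positivity
        have h3 : w + m + 1 ≠ 0 := by positivity
        have h4 : w + (m + 1) ≠ 0 := by positivity
        field_simp
        ring
      rw [e, div_le_div_iff₀ (by positivity) (by positivity)]
      have hpos : 0 ≤ (w + (m + 1)) * (w + (m + 1) + 1) := by positivity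
      have hnum : (w - (m + 1)) * (3 * w) ≤
          (m + 1) * (3 * w - (m + 1)) * (w + m + 1) - m * (3 * w - m) * (w + (m + 1) + 1) := by
        nlinarith [mul_nonneg hm0 (sub_nonneg.2 hm), mul_nonneg (show (0:ℝ) ≤ w by linarith) hm0]
      nlinarith [mul_le_mul_of_nonneg_right hnum hpos]
    linarith

/-- PROOF. Multiply by `y`. `y/((y+n-1)(y+n))` is nonincreasing in `y` for `y ≥ n`, and `1 - 0.63 y/(y-1)` is increasing in `y`, so we may take the smallest `y`; put
`w = u + L` and `y = w + 1` (for general `y ≥ w+1`: `y/((y+n-1)(y+n)) ≤ (w+1)/((w+n)(w+n+1))` for `1 ≤ n ≤ L ≤ w`). By convexity `u/(u+n) ≤ 1 - n/w = (w-n)/w` for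
`0 ≤ n ≤ L` (chord; directly: `u w ≤ (u+n)(w-n)` iff `n (L - n) ≥ 0`). So the left side times `y` is at most `(w+1)/w · S`,
`S = ∑_{n=1}^L (w-n)/((w+n)(w+n+1))`, which is at most `L(3w-L)/(3w(w+L+1)) ≤ 1/3` by telescoping (`exch_tele`). So the left side times `y` is
`≤ (w+1)/(3w) ≤ 0.3344` and the right side is `1 - 0.63 y/(y-1) ≥ 0.369` as `y ≥ 1001`. -/
theorem exch (u y : ℝ) (L : ℕ) (hu : 1000 ≤ u) (hy : u + L + 1 ≤ y) :
    u * ∑ n ∈ Finset.Icc 1 L, 1 / ((u + n) * ((y + n - 1) * (y + n))) ≤ 1 / y - 0.63 / (y - 1) := by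
  obtain ⟨w, hw⟩ : ∃ w : ℝ, w = u + L := ⟨_, rfl⟩
  have hL0 : (0 : ℝ) ≤ L := Nat.cast_nonneg L
  have hw1 : 1000 ≤ w := by linarith
  have hy1 : w + 1 ≤ y := by linarith
  have hy0 : 1001 ≤ y := by linarith
  have hypos : 0 < y := by linarith
  have hLw : (L : ℝ) ≤ w := by linarith
  have hterm : ∀ n ∈ Finset.Icc 1 L, u * (1 / ((u + n) * ((y + n - 1) * (y + n)))) ≤
      (w + 1) / (y * w) * ((w - n) / ((w + n) * (w + n + 1))) := by
    intro n hn
    rw [Finset.mem_Icc] at hn
    have hn1 : (1 : ℝ) ≤ n := by exact_mod_cast hn.1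
    have hnL : (n : ℝ) ≤ L := by exact_mod_cast hn.2
    have hwn : (n : ℝ) ≤ w := by linarith
    have h1 : u / (u + n) ≤ (w - n) / w := by
      rw [div_le_div_iff₀ (by positivity) (by positivity)]
      nlinarith [mul_nonneg (show (0:ℝ) ≤ n by linarith) (sub_nonneg.2 hnL)]
    have h2 : 1 / ((y + n - 1) * (y + n)) ≤ (w + 1) / (y * ((w + n) * (w + n + 1))) := by
      have ha : 0 < y + n - 1 := by linarith
      have hb : 0 < y + n := by linarith
      rw [div_le_div_iff₀ (by positivity) (by positivity)]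
      have hq : 0 ≤ (w + 1) * y - n * (n - 1) := by
        nlinarith [mul_nonneg (show (0:ℝ) ≤ n by linarith) (sub_nonneg.2 hwn),
          mul_nonneg (show (0:ℝ) ≤ w by linarith) (sub_nonneg.2 hy1),
          mul_nonneg (show (0:ℝ) ≤ w by linarith) (sub_nonneg.2 hwn)]
      nlinarith [mul_nonneg (sub_nonneg.2 hy1) hq]
    have h1' : 0 ≤ u / (u + n) := by positivity
    have h2' : 0 ≤ (w + 1) / (y * ((w + n) * (w + n + 1))) := by positivity
    have h3 : u * (1 / ((u + n) * ((y + n - 1) * (y + n)))) =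
        u / (u + n) * (1 / ((y + n - 1) * (y + n))) := by
      rw [one_div, one_div, mul_inv, div_eq_mul_inv]
      ring
    have h4 : (w + 1) / (y * w) * ((w - n) / ((w + n) * (w + n + 1))) =
        (w - n) / w * ((w + 1) / (y * ((w + n) * (w + n + 1)))) := by
      rw [div_mul_div_comm, div_mul_div_comm]
      congr 1 <;> ring
    rw [h3, h4]
    have hd : 0 ≤ 1 / ((y + n - 1) * (y + n)) := by
      have ha : 0 < y + n - 1 := by linarith
      have hb : 0 < y + n := by linarith
      positivity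
    exact mul_le_mul h1 h2 hd (by
      have : 0 ≤ w - n := by linarith
      positivity)
  rw [Finset.mul_sum]
  refine (Finset.sum_le_sum hterm).trans ?_
  rw [← Finset.mul_sum]
  have htele := exch_tele w L (by linarith) hLw L le_rfl
  have hthird : (L : ℝ) * (3 * w - L) / (3 * w * (w + L + 1)) ≤ 1 / 3 := by
    rw [div_le_div_iff₀ (by positivity) (by positivity)]
    nlinarith [sq_nonneg (w - L)]
  have hS := htele.trans hthird
  have hc : 0 ≤ (w + 1) / (y * w) := by positivity
  refine (mul_le_mul_of_nonneg_left hS hc).trans ?_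
  have hA : (w + 1) / (y * w) * (1 / 3) ≤ 0.334 / y := by
    rw [div_mul_div_comm, div_le_div_iff₀ (by positivity) (by positivity)]
    nlinarith [mul_nonneg hypos.le (sub_nonneg.2 hw1)]
  have hB : 0.334 / y ≤ 1 / y - 0.63 / (y - 1) := by
    have hy2 : 0 < y - 1 := by linarith
    have : 0.63 / (y - 1) ≤ 0.666 / y := by
      rw [div_le_div_iff₀ hy2 hypos]
      linarith
    have e : 1 / y = 0.334 / y + 0.666 / y := by
      rw [← add_div]
      norm_num
    linarith
  exact hA.trans hB

end Pool.Agent.SLit
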