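import Pool.Agent.Lib_SLit.SchL

/-!
# SLit piece EXPAND: the key inequality with the test polynomial `1 + ω ∑ χ_m conj(ε_m) z^{e_m}`
-/

set_option autoImplicit false

namespace Pool.Agent.SLit

open MeasureTheory AddCircle

/-- The trigonometric polynomial `∑ a_m z^{e_m}`. -/
noncomputable def expP (K : ℕ) (e : ℕ → ℤ) (a : ℕ → ℂ) : CC :=
  ∑ m ∈ Finset.Icc 1 K, a m • ex (e m)

theorem expP_mul (K : ℕ) (e : ℕ → ℤ) (a : ℕ → ℂ) (n : ℤ) (G : CC) :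
    co n (G * expP K e a) = ∑ m ∈ Finset.Icc 1 K, a m * co (n - e m) G := by
  have h : G * expP K e a = ∑ m ∈ Finset.Icc 1 K, a m • (ex (e m) * G) := by
    unfold expP
    rw [Finset.mul_sum]
    refine Finset.sum_congr rfl fun m _ => ?_
    rw [mul_smul_comm, mul_comm G]
  rw [h, co_sum]
  refine Finset.sum_congr rfl fun m _ => ?_
  rw [co_smul, co_ex_mul]

theorem expP_co (K : ℕ) (e : ℕ → ℤ) (a : ℕ → ℂ) (he : ∀ m ∈ Finset.Icc 1 K, 0 < e m) (k : ℤ)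
    (hk : k ≤ 0) : co k (expP K e a) = 0 := by
  unfold expP
  rw [co_sum]
  refine Finset.sum_eq_zero fun m hm => ?_
  have := he m hm
  rw [co_smul, co_ex, if_neg (by omega), mul_zero]

theorem expP_nsq (K : ℕ) (e : ℕ → ℤ) (a : ℕ → ℂ) (he : ∀ m ∈ Finset.Icc 1 K, 0 < e m)
    (hinj : ∀ m ∈ Finset.Icc 1 K, ∀ m' ∈ Finset.Icc 1 K, e m = e m' → m = m') :
    nsq (1 + expP K e a) = 1 + ∑ m ∈ Finset.Icc 1 K, ‖a m‖ ^ 2 := by
  classical
  set b : ℤ → ℂ := fun k => if k = 0 then 1 else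
    a (Function.invFunOn e ((Finset.Icc 1 K : Finset ℕ) : Set ℕ) k) with hb
  have hI : Set.InjOn e ((Finset.Icc 1 K : Finset ℕ) : Set ℕ) := fun m hm m' hm' h =>
    hinj m (Finset.mem_coe.1 hm) m' (Finset.mem_coe.1 hm') h
  have hbe : ∀ m ∈ Finset.Icc 1 K, b (e m) = a m := by
    intro m hm
    have h1 := he m hm
    have h2 : Function.invFunOn e ((Finset.Icc 1 K : Finset ℕ) : Set ℕ) (e m) = m :=
      hI.leftInvOn_invFunOn (Finset.mem_coe.2 hm)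
    simp only [hb]
    rw [if_neg (by omega), h2]
  have hb0 : b 0 = 1 := by simp [hb]
  have h0 : (0 : ℤ) ∉ (Finset.Icc 1 K).image e := by
    intro h
    obtain ⟨m, hm, h1⟩ := Finset.mem_image.1 h
    have := he m hm
    omega
  have hx : (1 : CC) + expP K e a = ∑ k ∈ insert 0 ((Finset.Icc 1 K).image e), b k • ex k := by
    rw [Finset.sum_insert h0, hb0, one_smul, ex_zero, Finset.sum_image (fun m hm m' hm' h =>
      hI hm hm' h)]
    congr 1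
    unfold expP
    exact Finset.sum_congr rfl fun m hm => by rw [hbe m hm]
  rw [hx, nsq_trig, Finset.sum_insert h0, hb0, Finset.sum_image (fun m hm m' hm' h =>
      hI hm hm' h)]
  rw [norm_one, one_pow]
  congr 1
  exact Finset.sum_congr rfl fun m hm => by rw [hbe m hm]

/-- PROOF. Let `ω` be unimodular with `co n F = |co n F| ω` (`ω = 1` if the coefficient is `0`), `x = 1 + ∑_{m ∈ Icc 1 K} (ω χ_m conj ε_m) • ex (e m)`.
`HS 0 x`, `co 0 x = 1` (as `e m > 0`), `nsq x = 1 + ∑ χ_m²` (`nsq_trig`, or directly: the exponentials `ex 0, ex (e m)` are distinct). Then (`co_ex_mul`)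
`co n (F x²) = co n F + 2 ω ∑ χ_m conj(ε_m) co (n - e m) F + ω² ∑ ∑ χ_m χ_m' conj(ε_m) conj(ε_m') co (n - e m - e m') F`
`= ω |co n F| + 2 ω ∑ χ_m g_m + ω² S₂`. So `|co n F| + 2 ∑ χ_m g_m - |S₂| ≤ |co n (F x²)| ≤ nsq x - ρ = 1 + ∑ χ_m² - ρ` by `sch_star`. -/
theorem expand {T n : ℤ} {F : CC} {ρ : ℝ} (h : Sch T F ρ) (hn : T < n) (K : ℕ) (e : ℕ → ℤ)
    (he : ∀ m ∈ Finset.Icc 1 K, 0 < e m) (hinj : ∀ m ∈ Finset.Icc 1 K, ∀ m' ∈ Finset.Icc 1 K, e m = e m' → m = m')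
    (χ g : ℕ → ℝ) (ε : ℕ → ℂ) (hε : ∀ m ∈ Finset.Icc 1 K, ‖ε m‖ = 1) (hχ : ∀ m ∈ Finset.Icc 1 K, 0 ≤ χ m)
    (hg : ∀ m ∈ Finset.Icc 1 K, co (n - e m) F = (g m : ℂ) * ε m) :
    ‖co n F‖ ≤ 1 - ρ + ∑ m ∈ Finset.Icc 1 K, χ m ^ 2 - 2 * ∑ m ∈ Finset.Icc 1 K, χ m * g m
      + ∑ m ∈ Finset.Icc 1 K, ∑ m' ∈ Finset.Icc 1 K, χ m * χ m' * ‖co (n - e m - e m') F‖ := by
  obtain ⟨ω, hω, hωF⟩ : ∃ ω : ℂ, ‖ω‖ = 1 ∧ co n F = ω * (‖co n F‖ : ℂ) := by
    by_cases hz : co n F = 0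
    · exact ⟨1, norm_one, by rw [hz, norm_zero, Complex.ofReal_zero, mul_zero]⟩
    · have h1 : ‖co n F‖ ≠ 0 := norm_ne_zero_iff.2 hz
      refine ⟨co n F / (‖co n F‖ : ℂ), ?_, ?_⟩
      · rw [norm_div, Complex.norm_real, norm_norm, div_self h1]
      · rw [div_mul_cancel₀]
        exact_mod_cast h1
  set a : ℕ → ℂ := fun m => ω * (χ m : ℂ) * (starRingEnd ℂ) (ε m) with ha
  set P : CC := expP K e a with hP
  have hna : ∀ m ∈ Finset.Icc 1 K, ‖a m‖ = χ m := by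
    intro m hm
    simp only [ha]
    rw [norm_mul, norm_mul, hω, one_mul, Complex.norm_real, RCLike.norm_conj, hε m hm, mul_one,
      Real.norm_of_nonneg (hχ m hm)]
  have hx : HS 0 (1 + P) := by
    intro k hk
    rw [co_add, co_one, if_neg (by omega), expP_co K e a he k (by omega), add_zero]
  have hx0 : co 0 (1 + P) = 1 := by
    rw [co_add, co_one, if_pos rfl, expP_co K e a he 0 le_rfl, add_zero]
  have key := sch_star h hn hx hx0
  have hnsq : nsq (1 + P) = 1 + ∑ m ∈ Finset.Icc 1 K, χ m ^ 2 := by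
    rw [hP, expP_nsq K e a he hinj]
    congr 1
    exact Finset.sum_congr rfl fun m hm => by rw [hna m hm]
  rw [hnsq] at key
  have e1 : F * ((1 + P) * (1 + P)) = F + (F * P + (F * P + (F * P) * P)) := by ring
  rw [e1, co_add, co_add, co_add] at key
  have e2 : co n (F * P) = ω * ((∑ m ∈ Finset.Icc 1 K, χ m * g m : ℝ) : ℂ) := by
    rw [hP, expP_mul, Complex.ofReal_sum, Finset.mul_sum]
    refine Finset.sum_congr rfl fun m hm => ?_
    rw [hg m hm]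
    have h1 : (starRingEnd ℂ) (ε m) * ε m = 1 := by
      rw [mul_comm, Complex.mul_conj, Complex.normSq_eq_norm_sq, hε m hm]
      norm_num
    simp only [ha]
    calc ω * (χ m : ℂ) * (starRingEnd ℂ) (ε m) * ((g m : ℂ) * ε m)
        = ω * ((χ m : ℂ) * (g m : ℂ)) * ((starRingEnd ℂ) (ε m) * ε m) := by ring
      _ = ω * ((χ m * g m : ℝ) : ℂ) := by rw [h1]; push_cast; ring
  have e3 : ‖co n (F * P * P)‖ ≤ ∑ m ∈ Finset.Icc 1 K, ∑ m' ∈ Finset.Icc 1 K,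
      χ m * χ m' * ‖co (n - e m - e m') F‖ := by
    rw [hP, expP_mul]
    refine (norm_sum_le _ _).trans (Finset.sum_le_sum fun m hm => ?_)
    rw [norm_mul, hna m hm, expP_mul]
    refine (mul_le_mul_of_nonneg_left (norm_sum_le _ _) (hχ m hm)).trans ?_
    rw [Finset.mul_sum]
    refine Finset.sum_le_sum fun m' hm' => ?_
    rw [norm_mul, hna m' hm', ← mul_assoc]
  rw [e2] at key
  set s : ℝ := ∑ m ∈ Finset.Icc 1 K, χ m * g m with hs
  have e4 : co n F + (ω * (s : ℂ) + (ω * (s : ℂ) + co n (F * P * P))) =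
      ω * ((‖co n F‖ + 2 * s : ℝ) : ℂ) + co n (F * P * P) := by
    conv_lhs => rw [hωF]
    push_cast
    ring
  rw [e4] at key
  have e5 : ‖co n F‖ + 2 * s ≤ ‖ω * ((‖co n F‖ + 2 * s : ℝ) : ℂ)‖ := by
    rw [norm_mul, hω, one_mul, Complex.norm_real]
    exact le_abs_self _
  have e6 : ‖ω * ((‖co n F‖ + 2 * s : ℝ) : ℂ)‖ ≤
      ‖ω * ((‖co n F‖ + 2 * s : ℝ) : ℂ) + co n (F * P * P)‖ + ‖co n (F * P * P)‖ := by
    have := norm_sub_le (ω * ((‖co n F‖ + 2 * s : ℝ) : ℂ) + co n (F * P * P)) (co n (F * P * P))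
    rwa [add_sub_cancel_right] at this
  linarith

end Pool.Agent.SLit
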