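import Pool.Agent.Lib_SLit.Chi

/-!
# SLit piece SUMB: Riemann sums with the weight `X0`
-/

set_option autoImplicit false

namespace Pool.Agent.SLit

open MeasureTheory Set Real

theorem sumB_f_le (x : ℝ) (hx : 0 ≤ x) : X0 x / (1 + x) ≤ (1 / 4) * (1 / (1 + x) ^ 2) := by
  have h1 := X0_mono 0 x le_rfl hx
  rw [X0_zero] at h1
  have h2 : (0:ℝ) < 1 + x := by positivity
  have h3 : X0 x ≤ (1 / 4) / (1 + x) := by
    rw [le_div_iff₀ h2]; nlinarith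
  calc X0 x / (1 + x) ≤ ((1 / 4) / (1 + x)) / (1 + x) := by gcongr
    _ = _ := by field_simp

theorem sumB_f_anti : AntitoneOn (fun x => X0 x / (1 + x)) (Ici 0) := by
  intro x hx y hy hxy
  simp only [mem_Ici] at hx hy
  have h1 := X0_mono x y hx hxy
  have hx1 : (0:ℝ) < 1 + x := by positivity
  have hy1 : (0:ℝ) < 1 + y := by positivity
  have h0 : 0 ≤ (1 + x) * X0 x := mul_nonneg hx1.le (X0_nonneg x hx)
  have e1 : X0 y / (1 + y) = ((1 + y) * X0 y) * (1 / (1 + y) ^ 2) := by field_simp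
  have e2 : X0 x / (1 + x) = ((1 + x) * X0 x) * (1 / (1 + x) ^ 2) := by field_simp
  show X0 y / (1 + y) ≤ X0 x / (1 + x)
  rw [e1, e2]
  have h3 : 1 / (1 + y) ^ 2 ≤ 1 / (1 + x) ^ 2 := by
    apply one_div_le_one_div_of_le (by positivity)
    gcongr
  calc ((1 + y) * X0 y) * (1 / (1 + y) ^ 2) ≤ ((1 + x) * X0 x) * (1 / (1 + y) ^ 2) :=
        mul_le_mul_of_nonneg_right h1 (by positivity)
    _ ≤ _ := mul_le_mul_of_nonneg_left h3 h0

theorem sumB_tail (L : ℝ) (hL : 0 ≤ L) :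
    IntegrableOn (fun x : ℝ => 1 / (1 + x) ^ 2) (Ioi L) ∧
      ∫ x in Ioi L, 1 / (1 + x) ^ 2 = 1 / (1 + L) := by
  have hd : ∀ x ∈ Ici L, HasDerivAt (fun x : ℝ => -(1 + x)⁻¹) (1 / (1 + x) ^ 2) x := by
    intro x hx
    have hx0 : (0:ℝ) < 1 + x := by
      have : L ≤ x := hx
      linarith
    have h1 : HasDerivAt (fun x : ℝ => 1 + x) 1 x := by
      simpa using (hasDerivAt_id x).const_add 1
    have h2 := (h1.inv hx0.ne').neg
    refine h2.congr_deriv ?_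
    ring
  have ht : Filter.Tendsto (fun x : ℝ => -(1 + x)⁻¹) Filter.atTop (nhds 0) := by
    have h1 : Filter.Tendsto (fun x : ℝ => (1 + x)) Filter.atTop Filter.atTop :=
      Filter.tendsto_atTop_add_const_left _ _ Filter.tendsto_id
    have h2 := (tendsto_inv_atTop_zero.comp h1).neg
    simpa using h2
  have hnn : ∀ x ∈ Ioi L, (0:ℝ) ≤ 1 / (1 + x) ^ 2 := by
    intro x _
    positivity
  refine ⟨integrableOn_Ioi_deriv_of_nonneg' hd hnn ht, ?_⟩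
  rw [integral_Ioi_of_hasDerivAt_of_nonneg' hd hnn ht]
  ring

theorem sumB_tele {σ : ℝ} (hσ : 0 < σ) (K : ℕ) :
    ∑ m ∈ Finset.Icc 1 K, 1 / (σ + m) ^ 2 ≤ 1 / σ - 1 / (σ + K) := by
  induction K with
  | zero => simp
  | succ n ih =>
    rw [Finset.sum_Icc_succ_top (by omega)]
    have h1 : (0:ℝ) < σ + n := by positivity
    have h2 : (0:ℝ) < σ + (n + 1 : ℕ) := by positivity
    have h3 : 1 / (σ + (n + 1 : ℕ)) ^ 2 ≤ 1 / (σ + n) - 1 / (σ + (n + 1 : ℕ)) := by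
      have e : 1 / (σ + n) - 1 / (σ + (n + 1 : ℕ)) = 1 / ((σ + n) * (σ + (n + 1 : ℕ))) := by
        push_cast
        push_cast at h2
        field_simp
        ring
      rw [e]
      apply one_div_le_one_div_of_le (by positivity)
      rw [sq]
      have h4 : (σ + n : ℝ) ≤ σ + (n + 1 : ℕ) := by push_cast; linarith
      exact mul_le_mul_of_nonneg_right h4 h2.le
    linarith

theorem sumB_riemann {σ : ℝ} (hσ : 0 < σ) (K : ℕ) :
    σ * (1 - π / 4 - (1 / 4) * (1 / (1 + K / σ))) - 1 / 4 ≤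
      ∑ m ∈ Finset.Icc 1 K, X0 ((m:ℝ) / σ) / (1 + (m:ℝ) / σ) := by
  set f : ℝ → ℝ := fun x => X0 x / (1 + x) with hf
  have hL : (0:ℝ) ≤ K / σ := by positivity
  -- the full integral
  obtain ⟨hi, hv⟩ := X0_eq 0 le_rfl
  have hi' : IntegrableOn f (Ioi 0) := by
    refine hi.congr_fun ?_ measurableSet_Ioi
    intro y _
    simp [hf]
  have hv' : ∫ y in Ioi (0:ℝ), f y = 1 - π / 4 := by
    have e : ∫ y in Ioi (0:ℝ), f y = ∫ y in Ioi (0:ℝ), X0 y / (1 + 0 + y) := by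
      refine setIntegral_congr_fun measurableSet_Ioi ?_
      intro y _
      simp [hf]
    rw [e, hv, X0_zero]
    ring
  obtain ⟨ti, tv⟩ := sumB_tail (K / σ) hL
  have hiL : IntegrableOn f (Ioi (K / σ)) := hi'.mono_set (Ioi_subset_Ioi hL)
  have htail : ∫ y in Ioi ((K:ℝ) / σ), f y ≤ (1 / 4) * (1 / (1 + K / σ)) := by
    rw [← tv, ← integral_const_mul]
    refine setIntegral_mono_on hiL (ti.const_mul _) measurableSet_Ioi ?_
    intro y hy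
    exact sumB_f_le y (hL.trans (le_of_lt hy))
  have hsplit : (∫ y in (0:ℝ)..(K / σ), f y) + ∫ y in Ioi ((K:ℝ) / σ), f y = ∫ y in Ioi (0:ℝ), f y := by
    exact intervalIntegral.integral_interval_add_Ioi hi' hiL
  have hanti : AntitoneOn (fun x : ℝ => f (x / σ)) (Icc (0:ℝ) (0 + (K:ℝ))) := by
    intro x hx y hy hxy
    exact sumB_f_anti (show (0:ℝ) ≤ x / σ from div_nonneg hx.1 hσ.le)
      (show (0:ℝ) ≤ y / σ from div_nonneg hy.1 hσ.le) (by gcongr)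
  have hsum := hanti.integral_le_sum
  have hcomp : ∫ x in (0:ℝ)..(0 + (K:ℝ)), f (x / σ) = σ * ∫ y in (0:ℝ)..(K / σ), f y := by
    rw [intervalIntegral.integral_comp_div f hσ.ne']
    simp
  rw [hcomp] at hsum
  have hs2 : ∑ i ∈ Finset.range K, f ((0 + (i:ℝ)) / σ) ≤
      ∑ m ∈ Finset.Icc 1 K, f ((m:ℝ) / σ) + 1 / 4 := by
    have h0 : f 0 = 1 / 4 := by simp [hf, X0_zero]
    have hK : 0 ≤ f ((K:ℝ) / σ) := div_nonneg (X0_nonneg _ hL) (by positivity)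
    have e1 : ∑ i ∈ Finset.range (K + 1), f ((0 + (i:ℝ)) / σ) =
        ∑ i ∈ Finset.range K, f ((0 + (i:ℝ)) / σ) + f ((K:ℝ) / σ) := by
      rw [Finset.sum_range_succ]; simp
    have e2 : ∑ i ∈ Finset.range (K + 1), f ((0 + (i:ℝ)) / σ) =
        f 0 + ∑ m ∈ Finset.Icc 1 K, f ((m:ℝ) / σ) := by
      rw [Finset.sum_range_succ', Finset.range_eq_Ico, Finset.sum_Ico_add' (fun i : ℕ => f ((0 + (i:ℝ)) / σ)) 0 K 1]
      have e3 : Finset.Ico (0 + 1) (K + 1) = Finset.Icc 1 K := by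
        ext a; simp
      rw [e3]
      simp [add_comm]
    linarith
  have hfin : σ * (1 - π / 4 - (1 / 4) * (1 / (1 + K / σ))) ≤ σ * ∫ y in (0:ℝ)..(K / σ), f y := by
    apply mul_le_mul_of_nonneg_left _ hσ.le
    linarith
  have : ∑ m ∈ Finset.Icc 1 K, X0 ((m:ℝ) / σ) / (1 + (m:ℝ) / σ) = ∑ m ∈ Finset.Icc 1 K, f ((m:ℝ) / σ) := rfl
  rw [this]
  linarith

/-- SUMB. PROOF: `χ m g m = (r²/(π σ²)) f(m/σ)`, `f x = X0 x/(1+x)` nonincreasing, `f 0 = 1/4`, `∫_0^∞ f = 1 - π/4` (`X0_eq` at `0`), so with `L = K/σ`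
`(1/σ) ∑_{m=1}^K f(m/σ) ≥ ∫_0^L f - f(0)/σ ≥ 1 - π/4 - ∫_L^∞ (1/4)/(1+x)² - 1/(4σ) = 1 - π/4 - (1/4)σ/(σ+K) - 1/(4σ)`.
And `∑_{m=1}^K 1/(σ+m)² ≤ 1/σ - 1/(σ+K)` (telescoping). So the left side is at most
`(1/4)(1/σ - 1/(σ+K)) - (r²/(πσ))(1 - π/4 - (1/4)σ/(σ+K) - 1/(4σ))`
`= (1/σ)(1/4 - r²(1/π - 1/4) + r²/(4πσ)) - (1/(σ+K))(1/4 - r²/(4π))`, and the last term is `≤ 0`. -/
theorem sumB {r σ : ℝ} (hr : 0 ≤ r) (hr1 : r ≤ 1) (hσ : 0 < σ) (K : ℕ) :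
    (1 / 4) * ∑ m ∈ Finset.Icc 1 K, 1 / (σ + m) ^ 2 -
      ∑ m ∈ Finset.Icc 1 K, chi r σ m * (r / π / (σ + m)) ≤
      (1 / 4 - r ^ 2 * (1 / π - 1 / 4) + 1 / (4 * π * σ)) / σ := by
  have hπ := Real.pi_pos
  have h1 := sumB_tele hσ K
  have h2 := sumB_riemann hσ K
  have e1 : ∑ m ∈ Finset.Icc 1 K, chi r σ m * (r / π / (σ + m)) =
      (r ^ 2 / (π * σ ^ 2)) * ∑ m ∈ Finset.Icc 1 K, X0 ((m:ℝ) / σ) / (1 + (m:ℝ) / σ) := by
    rw [Finset.mul_sum]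
    refine Finset.sum_congr rfl fun m _ => ?_
    unfold chi
    have h3 : (0:ℝ) < 1 + (m:ℝ) / σ := by positivity
    have h4 : (0:ℝ) < σ + m := by positivity
    have h5 : 1 + (m:ℝ) / σ = (σ + m) / σ := by field_simp
    rw [h5]
    field_simp
  rw [e1]
  have hc : 0 ≤ r ^ 2 / (π * σ ^ 2) := by positivity
  have h3 := mul_le_mul_of_nonneg_left h2 hc
  have hK : (0:ℝ) < σ + K := by positivity
  have e2 : (r ^ 2 / (π * σ ^ 2)) * (σ * (1 - π / 4 - (1 / 4) * (1 / (1 + K / σ))) - 1 / 4) =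
      (r ^ 2 / σ) * (1 / π - 1 / 4) - r ^ 2 / (4 * π) * (1 / (σ + K)) - r ^ 2 / (4 * π * σ ^ 2) := by
    have h5 : 1 + (K:ℝ) / σ = (σ + K) / σ := by field_simp
    rw [h5]
    field_simp
  rw [e2] at h3
  have hr2 : r ^ 2 ≤ 1 := by nlinarith
  have h6 : r ^ 2 / (4 * π * σ ^ 2) ≤ 1 / (4 * π * σ ^ 2) := by gcongr
  have h7 : r ^ 2 / (4 * π) * (1 / (σ + K)) ≤ (1 / 4) * (1 / (σ + K)) := by
    apply mul_le_mul_of_nonneg_right _ (by positivity)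
    rw [div_le_iff₀ (by positivity)]
    have := Real.pi_gt_three
    nlinarith
  have e3 : (1 / 4 - r ^ 2 * (1 / π - 1 / 4) + 1 / (4 * π * σ)) / σ =
      (1 / 4) * (1 / σ) - (r ^ 2 / σ) * (1 / π - 1 / 4) + 1 / (4 * π * σ ^ 2) := by
    field_simp
  rw [e3]
  linarith

end Pool.Agent.SLit
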