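import Pool.Agent.Lib_SLit.SumA
import Pool.Agent.Lib_SLit.SumB

/-!
# SLit: the sums of one step
-/

set_option autoImplicit false

namespace Pool.Agent.SLit

open MeasureTheory Set Real

/-- combination -/
theorem sums {r σ : ℝ} (hr : 0 ≤ r) (hr1 : r ≤ 1) (hσ : 0 < σ) (K : ℕ) :
    (1 / 4) * ∑ m ∈ Finset.Icc 1 K, 1 / (σ + m) ^ 2 + ∑ m ∈ Finset.Icc 1 K, chi r σ m ^ 2
      - 2 * ∑ m ∈ Finset.Icc 1 K, chi r σ m * (r / π / (σ + m))
      + ∑ m ∈ Finset.Icc 1 K, ∑ m' ∈ Finset.Icc 1 K, chi r σ m * chi r σ m' * (r / π / (σ + m + m')) ≤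
      (1 / 4 - r ^ 2 * (1 / π - 1 / 4) + 1 / (4 * π * σ)) / σ := by
  have hB := sumB hr hr1 hσ K
  have h1 : ∑ m ∈ Finset.Icc 1 K, ∑ m' ∈ Finset.Icc 1 K, chi r σ m * chi r σ m' * (r / π / (σ + m + m')) ≤
      ∑ m ∈ Finset.Icc 1 K, chi r σ m * (r * (r / π / (σ + m)) - r * chi r σ m) := by
    refine Finset.sum_le_sum fun m _ => ?_
    have h2 := mul_le_mul_of_nonneg_left (sumA hr hσ m K) (chi_nonneg hr hσ m)
    refine le_trans (le_of_eq ?_) h2
    rw [Finset.mul_sum]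
    exact Finset.sum_congr rfl fun m' _ => by ring
  have h3 : ∑ m ∈ Finset.Icc 1 K, chi r σ m ^ 2 +
      ∑ m ∈ Finset.Icc 1 K, chi r σ m * (r * (r / π / (σ + m)) - r * chi r σ m) ≤
      ∑ m ∈ Finset.Icc 1 K, chi r σ m * (r / π / (σ + m)) := by
    rw [← Finset.sum_add_distrib]
    refine Finset.sum_le_sum fun m _ => ?_
    have h4 := chi_le hr hσ m
    have h5 := chi_nonneg hr hσ m
    have h6 : chi r σ m ≤ r / π / (σ + m) := by
      refine h4.trans ?_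
      have h7 : (0:ℝ) ≤ r / π / (σ + m) := by have := Real.pi_pos; positivity
      have h8 : π / 4 ≤ 1 := by have := Real.pi_lt_four; linarith
      calc π / 4 * (r / π / (σ + m)) ≤ 1 * (r / π / (σ + m)) := mul_le_mul_of_nonneg_right h8 h7
        _ = _ := one_mul _
    have h9 : chi r σ m * (chi r σ m) ≤ chi r σ m * (r / π / (σ + m)) :=
      mul_le_mul_of_nonneg_left h6 h5
    nlinarith
  linarith

end Pool.Agent.SLit
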