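import Pool.Agent.Lib_SLit.Expand
import Pool.Agent.Lib_SLit.Col
import Pool.Agent.Lib_SLit.Sums

/-!
# SLit: the main estimate of one step
-/

set_option autoImplicit false

namespace Pool.Agent.SLit

open MeasureTheory Set Real

theorem main_est {r σ : ℝ} (hr : 0.95 ≤ r) (hr1 : r < 1) (hσ : 1000 ≤ σ) (K : ℕ) (t : ℕ → ℤ)
    (ht : StrictMono t) (n : ℤ) (hn : ∀ j < K, t j < n) {T : ℤ} {F : CC} {ρ : ℝ} (h : Sch T F ρ)
    (hTn : T < n) (ε : ℕ → ℂ) (hε : ∀ j, ‖ε j‖ = 1)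
    (hhit : ∀ j < K, co (t j) F = ((r / π / (σ + ((K : ℝ) - j)) : ℝ) : ℂ) * ε j)
    (hgap : ∀ p : ℤ, ∀ j < K, p < t j → (∀ i < j, t i < p) →
      ‖co p F‖ ≤ 0.63 * (r / π) / (σ + ((K : ℝ) - j)))
    (hρ : 1 - ρ ≤ (1 / 4) * ∑ m ∈ Finset.Icc 1 K, 1 / (σ + m) ^ 2) :
    ‖co n F‖ ≤ (1 / 4 - r ^ 2 * (1 / π - 1 / 4) + 1 / (4 * π * σ)) / σ := by
  have hπ := Real.pi_pos
  have hr0 : 0 ≤ r := by linarith
  have hσ0 : 0 < σ := by linarith
  have hcast : ∀ m ∈ Finset.Icc 1 K, ((K - m : ℕ) : ℝ) = (K : ℝ) - m := by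
    intro m hm
    rw [Finset.mem_Icc] at hm
    rw [Nat.cast_sub hm.2]
  have hlt : ∀ m ∈ Finset.Icc 1 K, K - m < K := by
    intro m hm
    rw [Finset.mem_Icc] at hm
    omega
  have h1 := expand h hTn K (fun m => n - t (K - m))
    (fun m hm => by have := hn (K - m) (hlt m hm); omega)
    (fun m hm m' hm' he => by
      have h2 : t (K - m) = t (K - m') := by omega
      have h3 := ht.injective h2
      rw [Finset.mem_Icc] at hm hm'
      omega)
    (chi r σ) (fun m => r / π / (σ + m)) (fun m => ε (K - m)) (fun m _ => hε _)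
    (fun m _ => chi_nonneg hr0 hσ0 m)
    (fun m hm => by
      have h2 := hhit (K - m) (hlt m hm)
      have h3 : n - (n - t (K - m)) = t (K - m) := by ring
      rw [h3, h2, hcast m hm]
      congr 3
      ring)
  have h2 := column K t ht n hn σ (r / π) 0.63 hσ (by positivity) (by norm_num) le_rfl
    (fun p => ‖co p F‖)
    (fun j hj => by
      have h3 := hhit j hj
      have h4 : (0:ℝ) ≤ r / π / (σ + ((K : ℝ) - j)) := by
        have : (j:ℝ) < K := by exact_mod_cast hj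
        have h5 : 0 < σ + ((K:ℝ) - j) := by linarith
        positivity
      simp only [h3, norm_mul, hε, mul_one, Complex.norm_real, Real.norm_eq_abs, abs_of_nonneg h4, le_refl])
    (fun p j hj hp hi => hgap p j hj hp hi)
    (chi r σ) (fun m => chi_nonneg hr0 hσ0 m)
    (fun m m' _ hmm => chi_mono hr0 hσ0 m m' hmm)
  have h3 : ∑ m ∈ Finset.Icc 1 K, ∑ m' ∈ Finset.Icc 1 K,
      chi r σ m * chi r σ m' * ‖co (n - (n - t (K - m)) - (n - t (K - m'))) F‖ =
      ∑ m ∈ Finset.Icc 1 K, ∑ m' ∈ Finset.Icc 1 K,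
      chi r σ m * chi r σ m' * ‖co (t (K - m) + t (K - m') - n) F‖ := by
    refine Finset.sum_congr rfl fun m _ => Finset.sum_congr rfl fun m' _ => ?_
    congr 3
    ring
  have h4 := sums hr0 hr1.le hσ0 K
  rw [h3] at h1
  linarith

end Pool.Agent.SLit
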