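import Pool.Agent.Lib_SLit.Mul

/-!
# SLit piece MIX: the bound for the mixed terms
-/

set_option autoImplicit false

namespace Pool.Agent.SLit

open MeasureTheory AddCircle

/-- PROOF. `m = n/2`, `P = ∑_{p ∈ Icc 0 m} co p U • ex p`, `R₁ = ∑_{p ∈ Ioc m n} co p U • ex p`, `R₂ = U - P - R₁`, `HS (n+1) R₂`, `HS (m+1) (R₁+R₂)`, `2(m+1) > n`.
`U U G = P P G + 2 P R₁ G + 2 P R₂ G + (R₁+R₂)² G`; the `n`-th coefficients of the last two vanish (`HS.mul`), and by Cauchy-Schwarz (`norm_co_mul_le`)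
`|co n (P P G)| ≤ nsq P`, `|co n (P R₁ G)| ≤ √(nsq P) √(nsq R₁)`; `nsq P = ∑_{Icc 0 m} ‖co p U‖²`, `nsq R₁ ≤ ∑_{Icc 0 n}` (`nsq_trig`). -/
theorem mix (U G : CC) (hU : HS 0 U) (hG : HS 0 G) (hG1 : ∀ x, ‖G x‖ ≤ 1) (n : ℤ) (hn : 0 ≤ n) :
    ‖co n (U * U * G)‖ ≤ 3 * √(∑ p ∈ Finset.Icc 0 (n / 2), ‖co p U‖ ^ 2) *
      √(∑ p ∈ Finset.Icc 0 n, ‖co p U‖ ^ 2) := by
  obtain ⟨m, hm⟩ : ∃ m : ℤ, m = n / 2 := ⟨_, rfl⟩
  have hm0 : 0 ≤ m := by omega
  have hmn : m ≤ n := by omega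
  have hsub : ∀ (j : ℤ) (f g : CC), co j (f - g) = co j f - co j g := by
    intro j f g
    have h1 : f - g = f + (-1 : ℂ) • g := by
      refine ContinuousMap.ext fun x => ?_
      show f x - g x = f x + (-1 : ℂ) * g x
      ring
    rw [h1, co_add, co_smul]
    ring
  obtain ⟨P, hP⟩ : ∃ P : CC, P = ∑ p ∈ Finset.Icc 0 m, co p U • ex p := ⟨_, rfl⟩
  obtain ⟨R, hR⟩ : ∃ R : CC, R = ∑ p ∈ Finset.Ioc m n, co p U • ex p := ⟨_, rfl⟩
  obtain ⟨R2, hR2⟩ : ∃ R2 : CC, R2 = U - P - R := ⟨_, rfl⟩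
  have hcoP : ∀ j, co j P = if j ∈ Finset.Icc 0 m then co j U else 0 := fun j => by
    rw [hP]
    exact co_trig _ (fun p => co p U) j
  have hcoR : ∀ j, co j R = if j ∈ Finset.Ioc m n then co j U else 0 := fun j => by
    rw [hR]
    exact co_trig _ (fun p => co p U) j
  have hHP : HS 0 P := by
    intro j hj
    rw [hcoP, if_neg]
    rw [Finset.mem_Icc]
    omega
  have hHR2 : HS (n + 1) R2 := by
    intro j hj
    rw [hR2, hsub, hsub, hcoP, hcoR]
    rcases lt_or_ge j 0 with h0 | h0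
    · rw [if_neg (by rw [Finset.mem_Icc]; omega), if_neg (by rw [Finset.mem_Ioc]; omega), hU j h0]
      ring
    · rcases le_or_gt j m with h1 | h1
      · rw [if_pos (by rw [Finset.mem_Icc]; omega), if_neg (by rw [Finset.mem_Ioc]; omega)]
        ring
      · rw [if_neg (by rw [Finset.mem_Icc]; omega), if_pos (by rw [Finset.mem_Ioc]; omega)]
        ring
  have hHS : HS (m + 1) (R + R2) := by
    intro j hj
    have h1 : R + R2 = U - P := by
      rw [hR2]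
      abel
    rw [h1, hsub, hcoP]
    rcases lt_or_ge j 0 with h0 | h0
    · rw [if_neg (by rw [Finset.mem_Icc]; omega), hU j h0]
      ring
    · rw [if_pos (by rw [Finset.mem_Icc]; omega)]
      ring
  have hUe : U = P + (R + R2) := by
    rw [hR2]
    abel
  have hexp : U * U * G = P * P * G + (P * R * G + P * R * G) + (P * R2 * G + P * R2 * G) +
      (R + R2) * (R + R2) * G := by
    rw [hUe]
    ring
  have hz1 : co n (P * R2 * G) = 0 := (HS.mul (HS.mul hHP hHR2) hG) n (by omega)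
  have hz2 : co n ((R + R2) * (R + R2) * G) = 0 := (HS.mul (HS.mul hHS hHS) hG) n (by omega)
  have hb1 := norm_co_mul_le n P P G hG1
  have hb2 := norm_co_mul_le n P R G hG1
  have hnP : nsq P = ∑ p ∈ Finset.Icc 0 (n / 2), ‖co p U‖ ^ 2 := by
    rw [hP, nsq_trig, hm]
  have hnR : nsq R ≤ ∑ p ∈ Finset.Icc 0 n, ‖co p U‖ ^ 2 := by
    rw [hR, nsq_trig]
    refine Finset.sum_le_sum_of_subset_of_nonneg ?_ fun _ _ _ => sq_nonneg _
    intro p hp
    rw [Finset.mem_Ioc] at hp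
    rw [Finset.mem_Icc]
    omega
  have hnP2 : nsq P ≤ ∑ p ∈ Finset.Icc 0 n, ‖co p U‖ ^ 2 := by
    rw [hnP]
    refine Finset.sum_le_sum_of_subset_of_nonneg ?_ fun _ _ _ => sq_nonneg _
    intro p hp
    rw [Finset.mem_Icc] at hp ⊢
    omega
  rw [← hnP]
  have ha := Real.sqrt_nonneg (nsq P)
  have hc1 := Real.sqrt_le_sqrt hnP2
  have hc2 := Real.sqrt_le_sqrt hnR
  have hn : ‖co n (U * U * G)‖ ≤ ‖co n (P * P * G)‖ + (‖co n (P * R * G)‖ + ‖co n (P * R * G)‖) := by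
    rw [hexp, co_add, co_add, co_add, co_add, co_add, hz1, hz2, add_zero, add_zero, add_zero]
    exact (norm_add_le _ _).trans (add_le_add le_rfl (norm_add_le _ _))
  have h5 := mul_le_mul_of_nonneg_left hc1 ha
  have h6 := mul_le_mul_of_nonneg_left hc2 ha
  linarith

end Pool.Agent.SLit
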