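import Pool.Agent.Lib_SLit.Conv
import Pool.Agent.Lib_SLit.Bas

/-!
# SLit: products of analytic functions (from CONV)
-/

set_option autoImplicit false

namespace Pool.Agent.SLit

open MeasureTheory AddCircle

theorem HS.mul {m m' : ℤ} {f g : CC} (hf : HS m f) (hg : HS m' g) : HS (m + m') (f * g) := by
  intro n hn
  have h := hasSum_co_mul f g n
  have h0 : (fun k : ℤ => co k f * co (n - k) g) = fun _ => 0 := by
    funext k
    rcases lt_or_ge k m with hk | hk
    · rw [hf k hk, zero_mul]
    · rw [hg (n - k) (by omega), mul_zero]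
  rw [h0] at h
  exact h.unique hasSum_zero

theorem co_mul_low {m m' : ℤ} {f g : CC} (hf : HS m f) (hg : HS m' g) :
    co (m + m') (f * g) = co m f * co m' g := by
  have h := hasSum_co_mul f g (m + m')
  have h1 : HasSum (fun k : ℤ => co k f * co (m + m' - k) g) (co m f * co (m + m' - m) g) := by
    refine hasSum_single m ?_
    intro k hk
    rcases lt_or_gt_of_ne hk with h2 | h2
    · rw [hf k h2, zero_mul]
    · rw [hg (m + m' - k) (by omega), mul_zero]
  have h2 := h.unique h1
  rw [h2]
  congr 2
  ring

theorem co_mul_zero {f g : CC} (hf : HS 0 f) (hg : HS 0 g) : co 0 (f * g) = co 0 f * co 0 g := by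
  have := co_mul_low hf hg
  simpa using this

theorem HS.mul0 {f g : CC} (hf : HS 0 f) (hg : HS 0 g) : HS 0 (f * g) := by
  have := HS.mul hf hg
  simpa using this

theorem HS.pow0 {f : CC} (hf : HS 0 f) (n : ℕ) : HS 0 (f ^ n) := by
  induction n with
  | zero => rw [pow_zero]; exact HS.one
  | succ n ih => rw [pow_succ]; exact HS.mul0 ih hf

end Pool.Agent.SLit
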