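import Pool.Agent.Lib_SLit.Bas

/-!
# SLit piece PAIR: duality, enumeration of a finite set, harmonic sums
-/

set_option autoImplicit false

namespace Pool.Agent.SLit

open MeasureTheory Set Real

/-- Duality. PROOF: `∑_{a ∈ A} co (a-m) F · conj (c a) = ∫ F(x) e(m x) conj(∑ c a e(a x)) dx`, `|F| ≤ 1`. (The circle integral
w.r.t. `haarAddCircle` of period `1` is `∫ x in 0..1`: see `UnitAddCircle.intervalIntegral_preimage`, `integral_haarAddCircle`, as in
`Pool/Agent/Results/MP_25630e_an/LittlewoodConstant.lean`.) -/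
theorem pairing (F : CC) (hF : ∀ x, ‖F x‖ ≤ 1) (A : Finset ℤ) (c : ℤ → ℂ) (m : ℤ) :
    ‖∑ a ∈ A, co (a - m) F * (starRingEnd ℂ) (c a)‖ ≤
      ∫ x in (0:ℝ)..1, ‖∑ a ∈ A, c a * Complex.exp (2 * (Real.pi : ℂ) * Complex.I * (a : ℂ) * (x : ℂ))‖ := by
  set P : CC := ∑ a ∈ A, c a • ex a with hP
  have hG : ∑ a ∈ A, co (a - m) F * (starRingEnd ℂ) (c a) =
      co 0 (∑ a ∈ A, (starRingEnd ℂ) (c a) • (ex (m - a) * F)) := by
    rw [co_sum]
    refine Finset.sum_congr rfl fun a _ => ?_
    rw [co_smul, co_ex_mul, zero_sub, neg_sub, mul_comm]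
  have hG2 : (∑ a ∈ A, (starRingEnd ℂ) (c a) • (ex (m - a) * F)) = ex m * star P * F := by
    rw [hP, star_sum, Finset.mul_sum, Finset.sum_mul]
    refine Finset.sum_congr rfl fun a _ => ?_
    rw [star_smul, star_ex, mul_smul_comm, smul_mul_assoc, ex_mul, sub_eq_add_neg]
    rfl
  rw [hG, hG2]
  have hint : ∫ x in (0:ℝ)..1, ‖∑ a ∈ A, c a * Complex.exp (2 * (Real.pi : ℂ) * Complex.I * (a : ℂ) * (x : ℂ))‖
      = ∫ x, ‖P x‖ ∂(AddCircle.haarAddCircle (T := (1:ℝ))) := by
    have h1 := UnitAddCircle.intervalIntegral_preimage 0 (fun x => ‖P x‖)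
    have h2 : ∫ x, ‖P x‖ ∂(AddCircle.haarAddCircle (T := (1:ℝ))) = ∫ x : UnitAddCircle, ‖P x‖ := by
      rw [AddCircle.integral_haarAddCircle, inv_one, one_smul]
    rw [h2, ← h1, zero_add]
    refine intervalIntegral.integral_congr fun x _ => ?_
    have h3 : P (x : UnitAddCircle) = ∑ a ∈ A, c a * Complex.exp (2 * (Real.pi : ℂ) * Complex.I * (a : ℂ) * (x : ℂ)) := by
      rw [hP, ContinuousMap.coe_sum, Finset.sum_apply]
      refine Finset.sum_congr rfl fun a _ => ?_
      rw [ContinuousMap.smul_apply, smul_eq_mul]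
      congr 1
      unfold ex
      rw [fourier_coe_apply]
      simp
    change ‖_‖ = ‖P (x : UnitAddCircle)‖
    rw [h3]
  rw [hint]
  refine (norm_co_le 0 _).trans ?_
  refine integral_mono (integrable_cc _ (by fun_prop)) (integrable_cc _ (by fun_prop)) fun x => ?_
  change ‖(ex m * star P * F) x‖ ≤ ‖P x‖
  rw [ContinuousMap.mul_apply, ContinuousMap.mul_apply, norm_mul, norm_mul, norm_ex, one_mul,
    ContinuousMap.star_apply, norm_star]
  exact mul_le_of_le_one_right (norm_nonneg _) (hF x)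

/-- Enumeration in increasing order, continued by arbitrary larger numbers (`Finset.orderEmbOfFin` for `j < A.card`, then `max + 1 + j`; for `A = ∅`
take `t j = D + j`). -/
theorem enum (A : Finset ℤ) (D : ℤ) (hA : ∀ a ∈ A, D ≤ a) :
    ∃ t : ℕ → ℤ, StrictMono t ∧ D ≤ t 0 ∧ A = (Finset.range A.card).image t := by
  rcases A.eq_empty_or_nonempty with h0 | hne
  · subst h0
    refine ⟨fun j => D + j, fun i j hij => ?_, by simp, by simp⟩
    change D + (i : ℤ) < D + (j : ℤ)
    omega
  · have hcard : 0 < A.card := hne.card_pos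
    set M := A.max' hne with hM
    let t : ℕ → ℤ := fun j => if h : j < A.card then A.orderEmbOfFin rfl ⟨j, h⟩ else M + 1 + j
    have ht1 : ∀ j (h : j < A.card), t j = A.orderEmbOfFin rfl ⟨j, h⟩ := fun j h => dif_pos h
    have ht2 : ∀ j, ¬ j < A.card → t j = M + 1 + j := fun j h => dif_neg h
    have hmem : ∀ j (h : j < A.card), t j ∈ A := by
      intro j h
      rw [ht1 j h]
      exact Finset.orderEmbOfFin_mem A rfl _
    refine ⟨t, strictMono_nat_of_lt_succ fun j => ?_, hA _ (hmem 0 hcard), ?_⟩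
    · by_cases h1 : j + 1 < A.card
      · rw [ht1 j (by omega), ht1 (j + 1) h1]
        exact (A.orderEmbOfFin rfl).strictMono (by
          rw [Fin.lt_def]
          exact Nat.lt_succ_self j)
      · rw [ht2 (j + 1) h1]
        by_cases h2 : j < A.card
        · have h3 := A.le_max' _ (hmem j h2)
          rw [← hM] at h3
          push_cast
          omega
        · rw [ht2 j h2]
          push_cast
          omega
    · ext a
      rw [Finset.mem_image]
      constructor
      · intro ha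
        have h1 : a ∈ Set.range (A.orderEmbOfFin rfl) := by
          rw [Finset.range_orderEmbOfFin]
          exact ha
        obtain ⟨i, hi⟩ := h1
        exact ⟨i, Finset.mem_range.2 i.2, by rw [ht1 i i.2, ← hi]⟩
      · rintro ⟨j, hj, rfl⟩
        exact hmem j (Finset.mem_range.1 hj)

/-- `∑_{j < N} 1/(s + (N-j)) ≥ log((s+N+1)/(s+1)) ≥ log (N+1) - log (s+1)` -/
theorem harm (s : ℝ) (hs : 0 ≤ s) (N : ℕ) :
    Real.log (N + 1) - Real.log (s + 1) ≤ ∑ j ∈ Finset.range N, 1 / (s + ((N : ℝ) - j)) := by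
  have h1 : ∑ j ∈ Finset.range N, 1 / (s + ((N : ℝ) - j)) = ∑ k ∈ Finset.range N, 1 / (s + ((k : ℝ) + 1)) := by
    rw [← Finset.sum_range_reflect]
    refine Finset.sum_congr rfl fun j hj => ?_
    have h2 : j < N := Finset.mem_range.1 hj
    have h3 : ((N - 1 - j : ℕ) : ℝ) = (N : ℝ) - 1 - j := by
      rw [Nat.cast_sub (by omega), Nat.cast_sub (by omega), Nat.cast_one]
    rw [h3]
    congr 2
    ring
  have h2 : ∀ n : ℕ, Real.log (s + (n + 1)) - Real.log (s + 1) ≤ ∑ k ∈ Finset.range n, 1 / (s + ((k : ℝ) + 1)) := by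
    intro n
    induction n with
    | zero => simp
    | succ n ih =>
      rw [Finset.sum_range_succ]
      have hy : (0:ℝ) < s + ((n : ℝ) + 1) := by positivity
      have h3 : Real.log (s + ((n + 1 : ℕ) + 1)) - Real.log (s + (n + 1)) ≤ 1 / (s + ((n : ℝ) + 1)) := by
        rw [← Real.log_div (by positivity) hy.ne']
        have h4 := Real.log_le_sub_one_of_pos (x := (s + (((n + 1 : ℕ) : ℝ) + 1)) / (s + ((n : ℝ) + 1))) (by positivity)
        refine h4.trans (le_of_eq ?_)
        push_cast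
        field_simp
        ring
      linarith
  rw [h1]
  have h3 := h2 N
  have h4 : Real.log (N + 1) ≤ Real.log (s + (N + 1)) :=
    Real.log_le_log (by positivity) (by linarith)
  linarith

end Pool.Agent.SLit
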