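import Pool.Agent.Lib_SLit.OneSided
import Pool.Agent.Lib_SLit.Pair

/-!
# SLit: the one-sided lower bound for exponential sums
-/

set_option autoImplicit false

namespace Pool.Agent.SLit

open MeasureTheory Set Real

/-- phase -/
noncomputable def ph (z : ℂ) : ℂ := if z = 0 then 1 else z / (‖z‖ : ℂ)

theorem norm_ph (z : ℂ) : ‖ph z‖ = 1 := by
  unfold ph
  split_ifs with h
  · simp
  · rw [norm_div, Complex.norm_real, norm_norm, div_self (norm_ne_zero_iff.2 h)]

theorem ph_mul_conj (z : ℂ) : ph z * (starRingEnd ℂ) z = (‖z‖ : ℂ) := by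
  unfold ph
  split_ifs with h
  · simp [h]
  · have h1 : (‖z‖ : ℂ) ≠ 0 := by exact_mod_cast norm_ne_zero_iff.2 h
    rw [div_mul_eq_mul_div, Complex.mul_conj, Complex.normSq_eq_norm_sq, div_eq_iff h1]
    push_cast
    ring

theorem one_bound (δ : ℝ) (hδ : 0 < δ) : ∃ C : ℝ, ∀ (A : Finset ℤ) (c : ℤ → ℂ), (∀ a ∈ A, 1 ≤ ‖c a‖) →
    (1 / π - δ) * Real.log (A.card : ℝ) - C ≤
      ∫ x in (0:ℝ)..1, ‖∑ a ∈ A, c a * Complex.exp (2 * (Real.pi : ℂ) * Complex.I * (a : ℂ) * (x : ℂ))‖ := by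
  have hπ := Real.pi_pos
  -- choose `r`
  obtain ⟨r, hr, hr1, hrδ⟩ : ∃ r : ℝ, 0.95 ≤ r ∧ r < 1 ∧ 1 / π - δ ≤ r / π := by
    refine ⟨max 0.95 (1 - δ), le_max_left _ _, max_lt (by norm_num) (by linarith), ?_⟩
    have h1 : 1 - δ ≤ max 0.95 (1 - δ) := le_max_right _ _
    have h2 : (1 - δ) / π ≤ max 0.95 (1 - δ) / π := div_le_div_of_nonneg_right h1 hπ.le
    have h3 : δ / π ≤ δ := by
      rw [div_le_iff₀ hπ]; have := Real.pi_gt_three; nlinarith
    have h4 : (1 - δ) / π = 1 / π - δ / π := by ring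
    linarith
  have hr0 : 0 ≤ r := by linarith
  obtain ⟨s, hs, hF⟩ := one_sided hr hr1
  refine ⟨(r / π) * Real.log (s + 1), fun A c hc => ?_⟩
  set m : ℤ := if h : A.Nonempty then A.min' h - 1 else 0 with hm
  have hmA : ∀ a ∈ A, 1 ≤ a - m := by
    intro a ha
    have hne : A.Nonempty := ⟨a, ha⟩
    have h1 := A.min'_le a ha
    rw [hm, dif_pos hne]
    omega
  -- enumerate `A - m`
  obtain ⟨t, ht, ht0, htA⟩ := enum (A.image (fun a => a - m)) 1 (by
    intro b hb
    rw [Finset.mem_image] at hb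
    obtain ⟨a, ha, rfl⟩ := hb
    exact hmA a ha)
  have hcard : (A.image (fun a => a - m)).card = A.card :=
    Finset.card_image_of_injective _ (fun a b h => by simpa using h)
  rw [hcard] at htA
  set N := A.card with hN
  obtain ⟨F, hF1, -, hFco, -⟩ := hF N t ht (by omega) (fun j => ph (c (t j + m))) (fun j => norm_ph _)
  have hsum : ∑ a ∈ A, co (a - m) F * (starRingEnd ℂ) (c a) =
      ∑ j ∈ Finset.range N, co (t j) F * (starRingEnd ℂ) (c (t j + m)) := by
    have h1 : ∑ a ∈ A, co (a - m) F * (starRingEnd ℂ) (c a) =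
        ∑ b ∈ A.image (fun a => a - m), co b F * (starRingEnd ℂ) (c (b + m)) := by
      rw [Finset.sum_image (fun a _ b _ h => by simpa using h)]
      refine Finset.sum_congr rfl fun a _ => ?_
      rw [sub_add_cancel]
    rw [h1, htA, Finset.sum_image (fun a _ b _ h => ht.injective h)]
  have hval : ∀ j ∈ Finset.range N, co (t j) F * (starRingEnd ℂ) (c (t j + m)) =
      (((r / π / (s + ((N : ℝ) - j))) * ‖c (t j + m)‖ : ℝ) : ℂ) := by
    intro j hj
    rw [hFco j (Finset.mem_range.1 hj), mul_assoc, ph_mul_conj]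
    push_cast
    ring
  have hmem : ∀ j ∈ Finset.range N, t j + m ∈ A := by
    intro j hj
    have h1 : t j ∈ A.image (fun a => a - m) := by
      rw [htA]; exact Finset.mem_image_of_mem _ hj
    rw [Finset.mem_image] at h1
    obtain ⟨a, ha, h2⟩ := h1
    have : t j + m = a := by omega
    rw [this]; exact ha
  have hp := pairing F hF1 A c m
  refine le_trans ?_ hp
  rw [hsum, Finset.sum_congr rfl hval, ← Complex.ofReal_sum, Complex.norm_real, Real.norm_eq_abs]
  refine le_trans ?_ (le_abs_self _)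
  have hlow : (r / π) * ∑ j ∈ Finset.range N, 1 / (s + ((N : ℝ) - j)) ≤
      ∑ j ∈ Finset.range N, (r / π / (s + ((N : ℝ) - j))) * ‖c (t j + m)‖ := by
    rw [Finset.mul_sum]
    refine Finset.sum_le_sum fun j hj => ?_
    have h1 : (j:ℝ) < N := by exact_mod_cast Finset.mem_range.1 hj
    have h2 : 0 < s + ((N : ℝ) - j) := by linarith
    have h3 : (0:ℝ) ≤ r / π / (s + ((N : ℝ) - j)) := by positivity
    have h4 := mul_le_mul_of_nonneg_left (hc _ (hmem j hj)) h3
    calc r / π * (1 / (s + ((N : ℝ) - j))) = r / π / (s + ((N : ℝ) - j)) * 1 := by ring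
      _ ≤ _ := h4
  have hh := harm s (by linarith) N
  have h5 : (r / π) * (Real.log (N + 1) - Real.log (s + 1)) ≤
      (r / π) * ∑ j ∈ Finset.range N, 1 / (s + ((N : ℝ) - j)) :=
    mul_le_mul_of_nonneg_left hh (by positivity)
  have h6 : (1 / π - δ) * Real.log (N : ℝ) ≤ (r / π) * Real.log (N + 1) := by
    rcases Nat.eq_zero_or_pos N with h0 | h0
    · rw [h0]; simp
    · have h7 : 0 ≤ Real.log (N : ℝ) := Real.log_natCast_nonneg N
      have h8 : Real.log (N : ℝ) ≤ Real.log (N + 1) :=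
        Real.log_le_log (by exact_mod_cast h0) (by linarith)
      calc (1 / π - δ) * Real.log (N : ℝ) ≤ (r / π) * Real.log (N : ℝ) :=
            mul_le_mul_of_nonneg_right hrδ h7
        _ ≤ _ := mul_le_mul_of_nonneg_left h8 (by positivity)
  linarith

end Pool.Agent.SLit
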