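import Pool.Agent.Lib_SLit.MainEst

/-!
# SLit: the one-sided theorem

For `0.95 ≤ r < 1` there is `s` such that for all times `0 < t 0 < t 1 < …`, all `N` and all phases `ε` there is a continuous `F`, `|F| ≤ 1`, with spectrum in
`[t 0, ∞)`, `co (t j) F = (r/π)/(s + N - j) ε j` for `j < N` and small energy below each time.
-/

set_option autoImplicit false

namespace Pool.Agent.SLit

open MeasureTheory Set Real

/-- invariant after `k` steps -/
structure Inv (r s : ℝ) (N : ℕ) (t : ℕ → ℤ) (ε : ℕ → ℂ) (k : ℕ) (F : CC) (ρ : ℝ) : Prop where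
  sch : Sch (if k = 0 then 0 else t (k - 1)) F ρ
  hs : HS (t 0) F
  hit : ∀ j < k, co (t j) F = ((r / π / (s + ((N : ℝ) - j)) : ℝ) : ℂ) * ε j
  gap : ∀ p : ℤ, ∀ j < k, p < t j → (∀ i < j, t i < p) →
    ‖co p F‖ ≤ 0.63 * (r / π) / (s + ((N : ℝ) - j))
  rho : 1 - ρ ≤ (1 / 4) * ∑ m ∈ Finset.Icc 1 k, 1 / (s + ((N : ℝ) - k) + m) ^ 2
  energy : ∀ k' ≤ k, ∑ p ∈ Finset.Ico 0 (t k'), ‖co p F‖ ^ 2 ≤ 1 / (4 * (s + ((N : ℝ) - k')))

/-- `∑_{m=1}^K 1/(σ+m)² ≤ 1/σ - 1/(σ+K)` -/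
theorem sum_inv_sq_le {σ : ℝ} (hσ : 0 < σ) (K : ℕ) :
    ∑ m ∈ Finset.Icc 1 K, 1 / (σ + m) ^ 2 ≤ 1 / σ - 1 / (σ + K) := by
  induction K with
  | zero => simp
  | succ K ih =>
    rw [Finset.sum_Icc_succ_top (by omega)]
    have h0 : 0 < σ + K := by positivity
    have h1 : 0 < σ + (K + 1 : ℕ) := by positivity
    have h2 : 1 / (σ + (K + 1 : ℕ)) ^ 2 ≤ 1 / (σ + K) - 1 / (σ + (K + 1 : ℕ)) := by
      rw [div_sub_div _ _ h0.ne' h1.ne', div_le_div_iff₀ (by positivity) (by positivity)]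
      push_cast
      nlinarith
    linarith

theorem shift_sum (σ : ℝ) (k : ℕ) :
    ∑ m ∈ Finset.Icc 1 (k + 1), 1 / (σ - 1 + m) ^ 2 =
      1 / σ ^ 2 + ∑ m ∈ Finset.Icc 1 k, 1 / (σ + m) ^ 2 := by
  induction k with
  | zero => simp
  | succ k ih =>
    rw [Finset.sum_Icc_succ_top (by omega), ih, Finset.sum_Icc_succ_top (b := k) (by omega), add_assoc]
    congr 3
    push_cast
    ring_nf

/-- the numerical conditions -/
theorem num_cond {r : ℝ} (hr : 0.95 ≤ r) (hr1 : r < 1) :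
    ∃ s : ℝ, 1000 ≤ s ∧ ∀ σ : ℝ, s ≤ σ →
      (1 / 4 - r ^ 2 * (1 / π - 1 / 4) + 1 / (4 * π * σ)) ≤ 0.63 * (r / π) ∧
      (1 / 4 - r ^ 2 * (1 / π - 1 / 4) + 1 / (4 * π * σ)) + r / π ≤ (1 / 2) * (1 - 1 / (4 * σ)) := by
  have hπ := Real.pi_pos
  have hP1 : 1 / π ≤ 0.31832 := by
    rw [div_le_iff₀ hπ]; have := Real.pi_gt_d6; nlinarith
  have hP2 : 0.3183 ≤ 1 / π := by
    rw [le_div_iff₀ hπ]; have := Real.pi_lt_d6; nlinarith
  set P := 1 / π with hP
  set D : ℝ := (1 - r) * ((1 + r) / 4 - r * P) with hD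
  have hDpos : 0 < D := by
    refine mul_pos (by linarith) ?_
    nlinarith
  refine ⟨max 1000 (1 / (4 * D)), le_max_left _ _, fun σ hσ => ?_⟩
  have h1 : 1000 ≤ σ := (le_max_left _ _).trans hσ
  have h2 : 1 / (4 * D) ≤ σ := (le_max_right _ _).trans hσ
  have hσ0 : 0 < σ := by linarith
  have h3 : 1 / (4 * π * σ) = P / 4 * (1 / σ) := by rw [hP]; field_simp
  have h4 : 1 / (4 * σ) = 1 / 4 * (1 / σ) := by field_simp
  have h5 : 1 / σ ≤ 4 * D := by
    rw [div_le_iff₀ (by positivity)] at h2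
    rw [div_le_iff₀ hσ0]
    linarith
  have h6 : 1 / σ ≤ 1 / 1000 := one_div_le_one_div_of_le (by norm_num) h1
  have h7 : 0 < 1 / σ := by positivity
  have h8 : r / π = r * P := by rw [hP]; ring
  rw [h3, h4, h8]
  constructor
  · nlinarith [mul_pos h7 h7]
  · have h9 : P / 4 * (1 / σ) ≤ 0.08 * (1 / σ) := by nlinarith
    have h10 : 1 / 4 - r ^ 2 * (P - 1 / 4) + r * P = 1 / 2 - D := by rw [hD]; ring
    nlinarith

theorem inv_step {r s : ℝ} (hr : 0.95 ≤ r) (hr1 : r < 1) (hs : 1000 ≤ s)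
    (hnum : ∀ σ : ℝ, s ≤ σ →
      (1 / 4 - r ^ 2 * (1 / π - 1 / 4) + 1 / (4 * π * σ)) ≤ 0.63 * (r / π) ∧
      (1 / 4 - r ^ 2 * (1 / π - 1 / 4) + 1 / (4 * π * σ)) + r / π ≤ (1 / 2) * (1 - 1 / (4 * σ)))
    {N : ℕ} {t : ℕ → ℤ} (ht : StrictMono t) (ht0 : 0 < t 0) {ε : ℕ → ℂ} (hε : ∀ j, ‖ε j‖ = 1)
    {k : ℕ} (hk : k < N) {F : CC} {ρ : ℝ} (h : Inv r s N t ε k F ρ) :
    ∃ F' ρ', Inv r s N t ε (k + 1) F' ρ' := by
  have hπ := Real.pi_pos
  set σ : ℝ := s + ((N : ℝ) - k) with hσdef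
  have hkN : (k : ℝ) + 1 ≤ N := by exact_mod_cast hk
  have hσs : s + 1 ≤ σ := by linarith
  have hσ : 1000 ≤ σ := by linarith
  have hσ0 : 0 < σ := by linarith
  obtain ⟨hn1, hn2⟩ := hnum σ (by linarith)
  set M : ℝ := 1 / 4 - r ^ 2 * (1 / π - 1 / 4) + 1 / (4 * π * σ) with hM
  -- the last time
  set T : ℤ := if k = 0 then 0 else t (k - 1) with hT
  have hTk : T < t k := by
    rw [hT]
    split_ifs with h0
    · rw [h0]; exact ht0
    · exact ht (by omega)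
  have hlow : ∀ n : ℤ, T < n → (∀ j < k, t j < n) := by
    intro n hn j hj
    have hk0 : k ≠ 0 := by omega
    rw [hT, if_neg hk0] at hn
    exact lt_of_le_of_lt (ht.monotone (by omega)) hn
  have hmain : ∀ n : ℤ, T < n → ‖co n F‖ ≤ M / σ := by
    intro n hn
    refine main_est hr hr1 hσ k t ht n (hlow n hn) h.sch hn ε hε ?_ ?_ ?_
    · intro j hj
      rw [h.hit j hj]
      congr 3
      rw [hσdef]; ring
    · intro p j hj hp hi
      refine (h.gap p j hj hp hi).trans (le_of_eq ?_)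
      congr 1
      rw [hσdef]; ring
    · exact h.rho
  -- gap bound before `t k`
  have hgapk : ∀ p : ℤ, p < t k → (∀ i < k, t i < p) → ‖co p F‖ ≤ 0.63 * (r / π) / σ := by
    intro p hp hi
    by_cases h0 : k = 0
    · have h1 : co p F = 0 := h.hs p (by rw [h0] at hp; exact hp)
      rw [h1, norm_zero]
      have : 0 ≤ r := by linarith
      positivity
    · have h1 : T < p := by
        rw [hT, if_neg h0]; exact hi (k - 1) (by omega)
      exact (hmain p h1).trans (div_le_div_of_nonneg_right hn1 hσ0.le)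
  have hρ0 : 0 < ρ := sch_pos h.sch
  have hρ1 : 1 - ρ ≤ 1 / (4 * σ) := by
    refine h.rho.trans ?_
    have h1 := sum_inv_sq_le hσ0 k
    have h2 : 0 < 1 / (σ + k) := by positivity
    have h3 : 1 / (4 * σ) = 1 / 4 * (1 / σ) := by field_simp
    rw [h3]
    refine mul_le_mul_of_nonneg_left ?_ (by norm_num)
    linarith
  have hρle : ρ ≤ 1 := by
    have h1 := sch_energy h.sch
    have h2 := nsq_nonneg F
    linarith
  -- the new parameter
  set g : ℝ := r / π / σ with hg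
  have hg0 : 0 ≤ g := by have : 0 ≤ r := by linarith
                         positivity
  set γ : ℂ := (((g : ℝ) : ℂ) * ε k - co (t k) F) / (ρ : ℂ) with hγdef
  have hγ : ‖γ‖ ≤ 1 / (2 * σ) := by
    have h1 : ‖((g : ℝ) : ℂ) * ε k - co (t k) F‖ ≤ g + M / σ := by
      refine (norm_sub_le _ _).trans (add_le_add ?_ (hmain (t k) hTk))
      rw [norm_mul, hε, mul_one, Complex.norm_real, Real.norm_eq_abs, abs_of_nonneg hg0]
    rw [hγdef, norm_div, Complex.norm_real, Real.norm_eq_abs, abs_of_pos hρ0, div_le_iff₀ hρ0]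
    refine h1.trans ?_
    have h2 : g + M / σ = (M + r / π) / σ := by rw [hg]; ring
    rw [h2, div_le_iff₀ hσ0]
    have h3 : 1 / (2 * σ) * ρ * σ = ρ / 2 := by field_simp
    rw [h3]
    linarith
  have hγ1 : ‖γ‖ < 1 := by
    refine lt_of_le_of_lt hγ ?_
    rw [div_lt_one (by positivity)]
    linarith
  obtain ⟨F', hS', hag, hco⟩ := sch_next h.sch hTk γ hγ1
  have hco' : co (t k) F' = ((g : ℝ) : ℂ) * ε k := by
    rw [hco, hγdef]
    have : (ρ : ℂ) ≠ 0 := by exact_mod_cast hρ0.ne'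
    field_simp
    ring
  have hρ' : 1 - (1 - ‖γ‖ ^ 2) * ρ ≤
      (1 / 4) * ∑ m ∈ Finset.Icc 1 (k + 1), 1 / (s + ((N : ℝ) - (k + 1 : ℕ)) + m) ^ 2 := by
    have h1 : s + ((N : ℝ) - (k + 1 : ℕ)) = σ - 1 := by rw [hσdef]; push_cast; ring
    rw [h1, shift_sum]
    have h2 := h.rho
    have h3 : ‖γ‖ ^ 2 ≤ 1 / 4 * (1 / σ ^ 2) := by
      calc ‖γ‖ ^ 2 ≤ (1 / (2 * σ)) ^ 2 := pow_le_pow_left₀ (norm_nonneg _) hγ 2
        _ = 1 / 4 * (1 / σ ^ 2) := by field_simp; norm_num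
    have h4 : ‖γ‖ ^ 2 * ρ ≤ ‖γ‖ ^ 2 := mul_le_of_le_one_right (by positivity) hρle
    rw [mul_add]
    nlinarith
  refine ⟨F', (1 - ‖γ‖ ^ 2) * ρ, ?_, ?_, ?_, ?_, hρ', ?_⟩
  · simpa using hS'
  · intro p hp
    rw [hag p (lt_of_lt_of_le hp (ht.monotone (Nat.zero_le k)))]
    exact h.hs p hp
  · intro j hj
    rcases Nat.lt_succ_iff_lt_or_eq.1 hj with h1 | h1
    · rw [hag (t j) (ht h1)]
      exact h.hit j h1
    · subst h1
      exact hco'
  · intro p j hj hp hi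
    rcases Nat.lt_succ_iff_lt_or_eq.1 hj with h1 | h1
    · rw [hag p (hp.trans (ht h1))]
      exact h.gap p j h1 hp hi
    · subst h1
      rw [hag p hp]
      exact hgapk p hp hi
  · intro k' hk'
    rcases Nat.lt_or_eq_of_le hk' with h1 | h1
    · have h2 : ∑ p ∈ Finset.Ico 0 (t k'), ‖co p F'‖ ^ 2 = ∑ p ∈ Finset.Ico 0 (t k'), ‖co p F‖ ^ 2 := by
        refine Finset.sum_congr rfl fun p hp => ?_
        rw [Finset.mem_Ico] at hp
        rw [hag p (lt_of_lt_of_le hp.2 (ht.monotone (by omega)))]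
      rw [h2]
      exact h.energy k' (by omega)
    · subst h1
      refine (bessel F' _).trans ((sch_energy hS').trans (hρ'.trans ?_))
      have h2 : s + ((N : ℝ) - (k + 1 : ℕ)) = σ - 1 := by rw [hσdef]; push_cast; ring
      rw [h2]
      have h3 : 0 < σ - 1 := by linarith
      have h4 := sum_inv_sq_le h3 (k + 1)
      have h5 : 0 < 1 / (σ - 1 + (k + 1 : ℕ)) := by positivity
      have h6 : 1 / (4 * (σ - 1)) = 1 / 4 * (1 / (σ - 1)) := by field_simp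
      rw [h6]
      refine mul_le_mul_of_nonneg_left ?_ (by norm_num)
      linarith

theorem one_sided {r : ℝ} (hr : 0.95 ≤ r) (hr1 : r < 1) :
    ∃ s : ℝ, 1000 ≤ s ∧ ∀ (N : ℕ) (t : ℕ → ℤ), StrictMono t → 0 < t 0 → ∀ ε : ℕ → ℂ, (∀ j, ‖ε j‖ = 1) →
      ∃ F : CC, (∀ x, ‖F x‖ ≤ 1) ∧ HS (t 0) F ∧
        (∀ j < N, co (t j) F = ((r / π / (s + ((N : ℝ) - j)) : ℝ) : ℂ) * ε j) ∧
        (∀ k ≤ N, ∑ p ∈ Finset.Ico 0 (t k), ‖co p F‖ ^ 2 ≤ 1 / (4 * (s + ((N : ℝ) - k)))) := by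
  obtain ⟨s, hs, hnum⟩ := num_cond hr hr1
  refine ⟨s, hs, fun N t ht ht0 ε hε => ?_⟩
  have key : ∀ k ≤ N, ∃ F ρ, Inv r s N t ε k F ρ := by
    intro k
    induction k with
    | zero =>
      intro _
      refine ⟨0, 1, ?_, ?_, ?_, ?_, ?_, ?_⟩
      · simpa using sch_zero le_rfl
      · intro p _
        exact co_zero' p
      · intro j hj; omega
      · intro p j hj; omega
      · simp
      · intro k' _
        have h0 : ∀ p : ℤ, co p (0 : CC) = 0 := co_zero'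
        simp only [h0, norm_zero]
        have : k' = 0 := by omega
        subst this
        simp only [ne_eq, OfNat.ofNat_ne_zero, not_false_eq_true, zero_pow, Finset.sum_const_zero,
          Nat.cast_zero, sub_zero]
        positivity
    | succ k ih =>
      intro hk
      obtain ⟨F, ρ, h⟩ := ih (by omega)
      exact inv_step hr hr1 hs hnum ht ht0 hε (by omega) h
  obtain ⟨F, ρ, h⟩ := key N le_rfl
  exact ⟨F, fun x => sch_norm h.sch x, h.hs, h.hit, h.energy⟩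

end Pool.Agent.SLit
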