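import Mathlib

/-!
# SLit piece PHI: the combination of the two sides
-/

set_option autoImplicit false

namespace Pool.Agent.SLit

open Real

/-- Maximum principle for `f + conj g`, `f`, `g` entire. PROOF: for unimodular `λ`, `Re (λ (f + conj g)) = Re (λ f + conj λ g) = Re Q` with `Q` entire. On
`|z| = 1`: `|exp Q| = exp (Re Q) ≤ e`; by the maximum modulus principle (`Complex.norm_le_of_forall_mem_frontier_norm_le`) `|exp Q| ≤ e` on the
closed disc, i.e. `Re (λ (f + conj g)) ≤ 1`. Choose `λ` with `λ (f z + conj (g z)) = |f z + conj (g z)|`. -/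
theorem maxp (f g : ℂ → ℂ) (hf : Differentiable ℂ f) (hg : Differentiable ℂ g)
    (h : ∀ z : ℂ, ‖z‖ = 1 → ‖f z + (starRingEnd ℂ) (g z)‖ ≤ 1) (z : ℂ) (hz : ‖z‖ ≤ 1) :
    ‖f z + (starRingEnd ℂ) (g z)‖ ≤ 1 := by
  by_cases hw : f z + (starRingEnd ℂ) (g z) = 0
  · rw [hw, norm_zero]
    exact zero_le_one
  obtain ⟨l, hl1, hl2⟩ : ∃ l : ℂ, ‖l‖ = 1 ∧
      l * (f z + (starRingEnd ℂ) (g z)) = (‖f z + (starRingEnd ℂ) (g z)‖ : ℂ) := by
    have hn : (‖f z + (starRingEnd ℂ) (g z)‖ : ℂ) ≠ 0 := by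
      rw [Ne, Complex.ofReal_eq_zero, norm_eq_zero]
      exact hw
    refine ⟨(‖f z + (starRingEnd ℂ) (g z)‖ : ℂ) / (f z + (starRingEnd ℂ) (g z)), ?_, ?_⟩
    · rw [norm_div, Complex.norm_real, norm_norm, div_self]
      rwa [Ne, norm_eq_zero]
    · rw [div_mul_cancel₀ _ hw]
  have hre : ∀ x : ℂ, (l * f x + (starRingEnd ℂ) l * g x).re =
      (l * (f x + (starRingEnd ℂ) (g x))).re := by
    intro x
    simp only [Complex.add_re, Complex.mul_re, Complex.conj_re, Complex.conj_im, Complex.add_im]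
    ring
  have hQ : Differentiable ℂ fun x => Complex.exp (l * f x + (starRingEnd ℂ) l * g x) :=
    ((hf.const_mul _).add (hg.const_mul _)).cexp
  have key : ‖Complex.exp (l * f z + (starRingEnd ℂ) l * g z)‖ ≤ Real.exp 1 := by
    refine Complex.norm_le_of_forall_mem_frontier_norm_le (U := Metric.ball (0 : ℂ) 1)
      Metric.isBounded_ball hQ.diffContOnCl ?_ ?_
      (f := fun x => Complex.exp (l * f x + (starRingEnd ℂ) l * g x))
    · intro x hx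
      rw [frontier_ball (0 : ℂ) one_ne_zero, mem_sphere_zero_iff_norm] at hx
      rw [Complex.norm_exp, Real.exp_le_exp, hre]
      refine (Complex.re_le_norm _).trans ?_
      rw [norm_mul, hl1, one_mul]
      exact h x hx
    · rw [closure_ball (0 : ℂ) one_ne_zero, mem_closedBall_zero_iff]
      exact hz
  rw [Complex.norm_exp, Real.exp_le_exp, hre, hl2, Complex.ofReal_re] at key
  exact key

/-- The real part of the arctangent. -/
private theorem PHI_arctan (z : ℂ) (hz : ‖z‖ < 1) : |(Complex.arctan z).re| ≤ π / 4 := by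
  have h1 : (Complex.arctan z).re =
      ((1 + z * Complex.I) / (1 - z * Complex.I)).arg / 2 := by
    rw [Complex.arctan, ← Complex.log_im]
    simp only [Complex.mul_re, Complex.neg_re, Complex.neg_im, Complex.div_ofNat_re,
      Complex.div_ofNat_im, Complex.I_re, Complex.I_im]
    ring
  have h2 : |((1 + z * Complex.I) / (1 - z * Complex.I)).arg| ≤ π / 2 := by
    rw [Complex.abs_arg_le_pi_div_two_iff, Complex.div_re, ← add_div]
    refine div_nonneg ?_ (Complex.normSq_nonneg _)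
    have h3 : Complex.normSq z < 1 := by
      rw [Complex.normSq_eq_norm_sq]
      have h4 := norm_nonneg z
      nlinarith
    rw [Complex.normSq_apply] at h3
    simp only [Complex.add_re, Complex.sub_re, Complex.add_im, Complex.sub_im, Complex.mul_re,
      Complex.mul_im, Complex.I_re, Complex.I_im, Complex.one_re, Complex.one_im]
    nlinarith
  rw [h1, abs_div, abs_two]
  linarith

/-- The coefficients. -/
private noncomputable def PHI_a (η : ℝ) (k : ℕ) : ℝ :=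
  4 / π * ((-1) ^ k * η ^ (2 * k + 1) / (2 * k + 1))

/-- The tail bound. -/
private theorem PHI_tail {η : ℝ} (h0 : 0 < η) (h1 : η < 1) :
    Summable (fun k : ℕ => 4 / π * η ^ (2 * k + 1)) := by
  have h2 : Summable (fun k : ℕ => (η ^ 2) ^ k) :=
    summable_geometric_of_lt_one (by positivity) (by nlinarith)
  refine ((h2.mul_left (4 / π * η))).congr fun k => ?_
  rw [pow_add, pow_mul, pow_one]
  ring

private theorem PHI_abs {η : ℝ} (h0 : 0 < η) (k : ℕ) : |PHI_a η k| ≤ 4 / π * η ^ (2 * k + 1) := by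
  have h1 : |(-1 : ℝ) ^ k * η ^ (2 * k + 1) / (2 * k + 1)| ≤ η ^ (2 * k + 1) := by
    rw [abs_div, abs_mul, abs_pow, abs_neg, abs_one, one_pow, one_mul,
      abs_of_pos (by positivity : (0 : ℝ) < η ^ (2 * k + 1)),
      abs_of_pos (by positivity : (0 : ℝ) < 2 * k + 1)]
    refine div_le_self (by positivity) ?_
    have : (0 : ℝ) ≤ k := Nat.cast_nonneg k
    linarith
  rw [PHI_a, abs_mul, abs_of_pos (by positivity : (0 : ℝ) < 4 / π)]
  exact mul_le_mul_of_nonneg_left h1 (by positivity)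

/-- The real series of the arctangent. -/
private theorem PHI_hasSum {η : ℝ} (q : ℂ) (hz : ‖(η : ℂ) * q‖ < 1) :
    HasSum (fun k : ℕ => PHI_a η k * (q ^ (2 * k + 1)).re)
      (4 / π * (Complex.arctan ((η : ℂ) * q)).re) := by
  have h3 := (Complex.hasSum_re (Complex.hasSum_arctan hz)).mul_left (4 / π)
  have h4 : ∀ k : ℕ, PHI_a η k * (q ^ (2 * k + 1)).re =
      4 / π * ((-1 : ℂ) ^ k * ((η : ℂ) * q) ^ (2 * k + 1) / ((2 * k + 1 : ℕ) : ℂ)).re := by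
    intro k
    have h5 : ((-1 : ℂ) ^ k * ((η : ℂ) * q) ^ (2 * k + 1) / ((2 * k + 1 : ℕ) : ℂ)) =
        (((-1) ^ k * η ^ (2 * k + 1) / (2 * k + 1) : ℝ) : ℂ) * q ^ (2 * k + 1) := by
      push_cast
      rw [mul_pow]
      ring
    rw [h5, Complex.re_ofReal_mul, PHI_a]
    ring
  rw [funext h4]
  exact h3

private theorem PHI_tailsum {η : ℝ} (h0 : 0 < η) (h1 : η < 1) (q : ℂ) (hq : ‖q‖ = 1) (K : ℕ) :
    |∑' k : ℕ, PHI_a η (k + (K + 1)) * (q ^ (2 * (k + (K + 1)) + 1)).re| ≤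
      ∑' k : ℕ, 4 / π * η ^ (2 * (k + (K + 1)) + 1) := by
  have hT : Summable (fun k : ℕ => 4 / π * η ^ (2 * (k + (K + 1)) + 1)) :=
    (summable_nat_add_iff (f := fun k : ℕ => 4 / π * η ^ (2 * k + 1)) (K + 1)).2
      (PHI_tail h0 h1)
  have h8 : ∀ k : ℕ, ‖PHI_a η (k + (K + 1)) * (q ^ (2 * (k + (K + 1)) + 1)).re‖ ≤
      4 / π * η ^ (2 * (k + (K + 1)) + 1) := by
    intro k
    rw [Real.norm_eq_abs, abs_mul]
    have h7 : |(q ^ (2 * (k + (K + 1)) + 1)).re| ≤ 1 := by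
      have h9 := Complex.abs_re_le_norm (q ^ (2 * (k + (K + 1)) + 1))
      rwa [norm_pow, hq, one_pow] at h9
    have h10 := mul_le_mul_of_nonneg_left h7 (abs_nonneg (PHI_a η (k + (K + 1))))
    rw [mul_one] at h10
    exact h10.trans (PHI_abs h0 _)
  have h11 := tsum_of_norm_bounded hT.hasSum h8
  rwa [Real.norm_eq_abs] at h11

/-- The real series on the circle. -/
private theorem PHI_series {η : ℝ} (h0 : 0 < η) (h1 : η < 1) (q : ℂ) (hq : ‖q‖ = 1) (K : ℕ) :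
    |∑ k ∈ Finset.range (K + 1), PHI_a η k * (q ^ (2 * k + 1)).re| ≤
      1 + ∑' k : ℕ, 4 / π * η ^ (2 * (k + (K + 1)) + 1) := by
  have hz : ‖(η : ℂ) * q‖ < 1 := by
    rw [norm_mul, hq, mul_one, Complex.norm_real, Real.norm_eq_abs, abs_of_pos h0]
    exact h1
  have hs2 := PHI_hasSum q hz
  have hsum := hs2.summable.sum_add_tsum_nat_add (K + 1)
  rw [hs2.tsum_eq] at hsum
  have hA : |4 / π * (Complex.arctan ((η : ℂ) * q)).re| ≤ 1 := by
    rw [abs_mul, abs_of_pos (by positivity : (0 : ℝ) < 4 / π)]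
    have h5 := mul_le_mul_of_nonneg_left (PHI_arctan _ hz) (by positivity : (0 : ℝ) ≤ 4 / π)
    have h6 : 4 / π * (π / 4) = 1 := by
      field_simp
    linarith
  have hC := eq_sub_of_add_eq hsum
  rw [hC]
  exact (abs_sub _ _).trans (add_le_add hA (PHI_tailsum h0 h1 q hq K))

/-- The bound on the torus. -/
private theorem PHI_torus (b : ℕ → ℝ) (K : ℕ)
    (h : ∀ q : ℂ, ‖q‖ = 1 → |∑ k ∈ Finset.range (K + 1), b k * (q ^ (2 * k + 1)).re| ≤ 1)
    (u v : ℂ) (hu : ‖u‖ = 1) (hv : ‖v‖ = 1) :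
    ‖∑ k ∈ Finset.range (K + 1), ((b k / 2 : ℝ) : ℂ) *
        (u ^ (k + 1) * v ^ k + (starRingEnd ℂ) (v ^ (k + 1) * u ^ k))‖ ≤ 1 := by
  obtain ⟨q, hq⟩ := IsAlgClosed.exists_pow_nat_eq (u * v) (n := 2) two_pos
  have hqn : ‖q‖ = 1 := by
    have h1 : ‖q‖ ^ 2 = 1 := by
      rw [← norm_pow, hq, norm_mul, hu, hv, one_mul]
    nlinarith [norm_nonneg q]
  have hqc : q * (starRingEnd ℂ) q = 1 := by
    rw [Complex.mul_conj, Complex.normSq_eq_norm_sq, hqn]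
    norm_num
  have hvc : v * (starRingEnd ℂ) v = 1 := by
    rw [Complex.mul_conj, Complex.normSq_eq_norm_sq, hv]
    norm_num
  have hvq : (starRingEnd ℂ) v = u * (starRingEnd ℂ) q ^ 2 := by
    calc (starRingEnd ℂ) v = (q * (starRingEnd ℂ) q) ^ 2 * (starRingEnd ℂ) v := by
          rw [hqc, one_pow, one_mul]
      _ = (u * v) * (starRingEnd ℂ) q ^ 2 * (starRingEnd ℂ) v := by
          rw [mul_pow, hq]
      _ = (v * (starRingEnd ℂ) v) * (u * (starRingEnd ℂ) q ^ 2) := by ring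
      _ = u * (starRingEnd ℂ) q ^ 2 := by rw [hvc, one_mul]
  have hterm : ∀ k : ℕ, ((b k / 2 : ℝ) : ℂ) *
      (u ^ (k + 1) * v ^ k + (starRingEnd ℂ) (v ^ (k + 1) * u ^ k)) =
      u * (starRingEnd ℂ) q * ((b k * (q ^ (2 * k + 1)).re : ℝ) : ℂ) := by
    intro k
    have e1 : u ^ (k + 1) * v ^ k = u * (starRingEnd ℂ) q * q ^ (2 * k + 1) := by
      have : u ^ (k + 1) * v ^ k = u * (u * v) ^ k := by
        rw [mul_pow]
        ring
      rw [this, ← hq, ← pow_mul]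
      calc u * q ^ (2 * k) = u * (q * (starRingEnd ℂ) q) * q ^ (2 * k) := by rw [hqc, mul_one]
        _ = u * (starRingEnd ℂ) q * q ^ (2 * k + 1) := by ring
    have e2 : (starRingEnd ℂ) (v ^ (k + 1) * u ^ k) =
        u * (starRingEnd ℂ) q * (starRingEnd ℂ) (q ^ (2 * k + 1)) := by
      have : v ^ (k + 1) * u ^ k = v * (u * v) ^ k := by
        rw [mul_pow]
        ring
      rw [this, ← hq, ← pow_mul, map_mul, map_pow, map_pow, hvq]
      ring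
    have e3 : q ^ (2 * k + 1) + (starRingEnd ℂ) (q ^ (2 * k + 1)) =
        ((2 * (q ^ (2 * k + 1)).re : ℝ) : ℂ) := Complex.add_conj _
    rw [e1, e2, ← mul_add, e3]
    push_cast
    ring
  rw [Finset.sum_congr rfl fun k _ => hterm k, ← Finset.mul_sum, ← Complex.ofReal_sum, norm_mul,
    norm_mul, hu, RCLike.norm_conj, hqn, one_mul, one_mul, Complex.norm_real, Real.norm_eq_abs]
  exact h q hqn

/-- The bound on the bidisc. -/
private theorem PHI_disc (b : ℕ → ℝ) (K : ℕ)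
    (h : ∀ q : ℂ, ‖q‖ = 1 → |∑ k ∈ Finset.range (K + 1), b k * (q ^ (2 * k + 1)).re| ≤ 1)
    (u v : ℂ) (hu : ‖u‖ ≤ 1) (hv : ‖v‖ ≤ 1) :
    ‖∑ k ∈ Finset.range (K + 1), ((b k / 2 : ℝ) : ℂ) *
        (u ^ (k + 1) * v ^ k + (starRingEnd ℂ) (v ^ (k + 1) * u ^ k))‖ ≤ 1 := by
  have hsplit : ∀ u v : ℂ, ∑ k ∈ Finset.range (K + 1), ((b k / 2 : ℝ) : ℂ) *
        (u ^ (k + 1) * v ^ k + (starRingEnd ℂ) (v ^ (k + 1) * u ^ k)) =
      (∑ k ∈ Finset.range (K + 1), ((b k / 2 : ℝ) : ℂ) * (u ^ (k + 1) * v ^ k)) +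
      (starRingEnd ℂ) (∑ k ∈ Finset.range (K + 1), ((b k / 2 : ℝ) : ℂ) * (v ^ (k + 1) * u ^ k)) := by
    intro u v
    rw [map_sum, ← Finset.sum_add_distrib]
    refine Finset.sum_congr rfl fun k _ => ?_
    have h1 : (starRingEnd ℂ) (((b k / 2 : ℝ) : ℂ) * (v ^ (k + 1) * u ^ k)) =
        ((b k / 2 : ℝ) : ℂ) * (starRingEnd ℂ) (v ^ (k + 1) * u ^ k) := by
      rw [map_mul, Complex.conj_ofReal]
    rw [h1, mul_add]
  have step1 : ∀ v : ℂ, ‖v‖ = 1 → ∀ u : ℂ, ‖u‖ ≤ 1 →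
      ‖∑ k ∈ Finset.range (K + 1), ((b k / 2 : ℝ) : ℂ) *
        (u ^ (k + 1) * v ^ k + (starRingEnd ℂ) (v ^ (k + 1) * u ^ k))‖ ≤ 1 := by
    intro v hv u hu
    rw [hsplit]
    refine maxp (fun u => ∑ k ∈ Finset.range (K + 1), ((b k / 2 : ℝ) : ℂ) * (u ^ (k + 1) * v ^ k))
      (fun u => ∑ k ∈ Finset.range (K + 1), ((b k / 2 : ℝ) : ℂ) * (v ^ (k + 1) * u ^ k))
      (by fun_prop) (by fun_prop) (fun z hz => ?_) u hu
    have := PHI_torus b K h z v hz hv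
    rwa [hsplit] at this
  rw [hsplit]
  refine maxp (fun v => ∑ k ∈ Finset.range (K + 1), ((b k / 2 : ℝ) : ℂ) * (u ^ (k + 1) * v ^ k))
    (fun v => ∑ k ∈ Finset.range (K + 1), ((b k / 2 : ℝ) : ℂ) * (v ^ (k + 1) * u ^ k))
    (by fun_prop) (by fun_prop) (fun z hz => ?_) v hv
  have := step1 z hz u hu
  rwa [hsplit] at this

/-- PROOF. Let `0 < η < 1`, `τ = ∑_{k > K} (4/π) η^(2k+1)`, `b k = (1+τ)⁻¹ (4/π) (-1)^k η^(2k+1)/(2k+1)`. For `‖u‖ = ‖v‖ = 1` take `q` with `q² = u v` (`‖q‖ = 1`). Then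
`u^(k+1) v^k = (u/q) q^(2k+1)` and `conj (v^(k+1) u^k) = (u/q) conj (q^(2k+1))`, so the sum is `(u/q) ∑ b k Re (q^(2k+1))`. The full series
`(4/π) ∑ (-1)^k η^(2k+1) q^(2k+1)/(2k+1)` is `(4/π) arctan (η q)` (`Complex.hasSum_arctan`), and `|Re arctan z| ≤ π/4` for `‖z‖ < 1`
(`Complex.arctan z = -I/2 * log ((1 + z I)/(1 - z I))` and `(1+zI)/(1-zI)` has positive real part, so `|arg| < π/2`). Hence
`|∑_{k ≤ K} b k Re q^(2k+1)| ≤ (1+τ)⁻¹ (1 + τ) = 1`. The general case `‖u‖, ‖v‖ ≤ 1`: `maxp` in `u` for fixed `‖v‖ = 1`, then in `v` for fixed `‖u‖ ≤ 1`.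
`b 0 = (1+τ)⁻¹ η 4/π` is close to `4/π` for `η` close to `1` and `K` large. -/
theorem phi (ε : ℝ) (hε : 0 < ε) :
    ∃ (K : ℕ) (b : ℕ → ℝ), 4 / π - ε ≤ b 0 ∧ 0 ≤ b 0 ∧ ∀ u v : ℂ, ‖u‖ ≤ 1 → ‖v‖ ≤ 1 →
      ‖∑ k ∈ Finset.range (K + 1), ((b k / 2 : ℝ) : ℂ) *
        (u ^ (k + 1) * v ^ k + (starRingEnd ℂ) (v ^ (k + 1) * u ^ k))‖ ≤ 1 := by
  obtain ⟨η, h0, h1, h2⟩ : ∃ η : ℝ, 0 < η ∧ η < 1 ∧ 4 / π - ε < 4 / π * η := by
    have hp : (0 : ℝ) < 4 / π := by positivity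
    refine ⟨max (1 / 2) (1 - ε * π / 8), ?_, ?_, ?_⟩
    · exact lt_max_of_lt_left (by norm_num)
    · exact max_lt (by norm_num) (by have := Real.pi_pos; nlinarith [mul_pos hε this])
    · have h3 : 4 / π * (1 - ε * π / 8) ≤ 4 / π * max (1 / 2) (1 - ε * π / 8) :=
        mul_le_mul_of_nonneg_left (le_max_right _ _) hp.le
      have h4 : 4 / π * (1 - ε * π / 8) = 4 / π - ε / 2 := by
        field_simp
        ring
      linarith
  have hlim : Filter.Tendsto (fun K : ℕ => (1 + ∑' k : ℕ, 4 / π * η ^ (2 * (k + K) + 1))⁻¹ *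
      (4 / π * η)) Filter.atTop (nhds ((1 + 0)⁻¹ * (4 / π * η))) := by
    refine Filter.Tendsto.mul_const _ (Filter.Tendsto.inv₀ ?_ (by norm_num))
    exact tendsto_const_nhds.add (tendsto_sum_nat_add (fun k : ℕ => 4 / π * η ^ (2 * k + 1)))
  rw [add_zero, inv_one, one_mul] at hlim
  have hev := (hlim.eventually (lt_mem_nhds h2)).and (Filter.eventually_ge_atTop 1)
  obtain ⟨K', hK', hK1⟩ := hev.exists
  obtain ⟨K, rfl⟩ : ∃ K, K' = K + 1 := ⟨K' - 1, by omega⟩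
  have hτ : 0 ≤ ∑' k : ℕ, 4 / π * η ^ (2 * (k + (K + 1)) + 1) :=
    tsum_nonneg fun k => by positivity
  set τ : ℝ := ∑' k : ℕ, 4 / π * η ^ (2 * (k + (K + 1)) + 1) with hτd
  have hτ1 : 0 < 1 + τ := by linarith
  have hb0 : (1 + τ)⁻¹ * PHI_a η 0 = (1 + τ)⁻¹ * (4 / π * η) := by
    rw [PHI_a]
    simp
  refine ⟨K, fun k => (1 + τ)⁻¹ * PHI_a η k, ?_, ?_, ?_⟩
  · change 4 / π - ε ≤ (1 + τ)⁻¹ * PHI_a η 0
    rw [hb0]
    exact hK'.le
  · change 0 ≤ (1 + τ)⁻¹ * PHI_a η 0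
    rw [hb0]
    positivity
  · refine fun u v hu hv => PHI_disc _ K (fun q hq => ?_) u v hu hv
    have h5 := PHI_series h0 h1 q hq K
    have h6 : ∑ k ∈ Finset.range (K + 1), (1 + τ)⁻¹ * PHI_a η k * (q ^ (2 * k + 1)).re =
        (1 + τ)⁻¹ * ∑ k ∈ Finset.range (K + 1), PHI_a η k * (q ^ (2 * k + 1)).re := by
      rw [Finset.mul_sum]
      exact Finset.sum_congr rfl fun k _ => mul_assoc _ _ _
    change |∑ k ∈ Finset.range (K + 1), (1 + τ)⁻¹ * PHI_a η k * (q ^ (2 * k + 1)).re| ≤ 1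
    rw [h6, abs_mul, abs_of_pos (inv_pos.2 hτ1)]
    calc (1 + τ)⁻¹ * |∑ k ∈ Finset.range (K + 1), PHI_a η k * (q ^ (2 * k + 1)).re|
        ≤ (1 + τ)⁻¹ * (1 + τ) := mul_le_mul_of_nonneg_left h5 (inv_pos.2 hτ1).le
      _ = 1 := inv_mul_cancel₀ hτ1.ne'

end Pool.Agent.SLit
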