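import Pool.Agent.Lib_SLit.Step

/-!
# SLit piece SCHL: consequences for the Schur functions of the cascade
-/

set_option autoImplicit false

namespace Pool.Agent.SLit

open MeasureTheory AddCircle

/-- `A = 0`, `B = H = 1`. -/
theorem sch_zero {T : ℤ} (hT : 0 ≤ T) : Sch T 0 1 := by
  have h0 : ∀ m : ℤ, HS m (0 : CC) := by
    intro m n _
    have h := co_smul n (0 : ℂ) (1 : CC)
    have h0 : (0 : ℂ) • (1 : CC) = 0 := zero_smul ℂ (1 : CC)
    rw [h0, zero_mul] at h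
    exact h
  refine ⟨0, 1, 1, ⟨?_, h0 0, ?_, HS.one, ?_, HS.one, ?_, one_pos, ?_⟩, ?_⟩
  · rw [mul_one]
  · rw [star_zero, mul_zero]
    exact h0 0
  · rw [star_one, mul_one]
    exact (HS.ex T).mono hT
  · rw [co_one, if_pos rfl]
  · intro x
    simp
  · rw [zero_mul]

/-- `|A H|² = |A|²/|B|² < 1`. -/
theorem sch_norm {T : ℤ} {F : CC} {ρ : ℝ} (h : Sch T F ρ) (x : UnitAddCircle) : ‖F x‖ ≤ 1 := by
  obtain ⟨A, B, H, hs, rfl⟩ := h
  have h1 : B x * H x = 1 := by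
    have := congrArg (fun f : CC => f x) hs.inv
    simpa using this
  have h2 : ‖B x‖ * ‖H x‖ = 1 := by rw [← norm_mul, h1, norm_one]
  have h3 : ‖A x‖ ≤ ‖B x‖ := by
    have h4 := hs.id x
    have h5 := hs.pos
    exact le_of_sq_le_sq (by linarith) (norm_nonneg _)
  rw [ContinuousMap.mul_apply, norm_mul]
  exact (mul_le_mul_of_nonneg_right h3 (norm_nonneg _)).trans_eq h2

theorem sch_hs {T : ℤ} {F : CC} {ρ : ℝ} (h : Sch T F ρ) : HS 0 F := by
  obtain ⟨A, B, H, hs, rfl⟩ := h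
  exact HS.mul0 hs.specA hs.specH

theorem sch_pos {T : ℤ} {F : CC} {ρ : ℝ} (h : Sch T F ρ) : 0 < ρ := by
  obtain ⟨A, B, H, hs, rfl⟩ := h
  exact hs.pos

/-- `|F|² = 1 - ρ |H|²` pointwise and `∫ |H|² ≥ |co 0 H|² = 1` (`bessel`). -/
theorem sch_energy {T : ℤ} {F : CC} {ρ : ℝ} (h : Sch T F ρ) : nsq F ≤ 1 - ρ := by
  obtain ⟨A, B, H, hs, rfl⟩ := h
  have hpt : ∀ x, ‖(A * H) x‖ ^ 2 = 1 - ρ * ‖H x‖ ^ 2 := by
    intro x
    have h1 : B x * H x = 1 := by
      have := congrArg (fun f : CC => f x) hs.inv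
      simpa using this
    have h2 : ‖B x‖ * ‖H x‖ = 1 := by rw [← norm_mul, h1, norm_one]
    have h4 := hs.id x
    have h5 : ‖A x‖ ^ 2 = ‖B x‖ ^ 2 - ρ := by linarith
    have h6 : (‖B x‖ * ‖H x‖) ^ 2 = 1 := by rw [h2, one_pow]
    rw [ContinuousMap.mul_apply, norm_mul, mul_pow, h5]
    rw [mul_pow] at h6
    linarith [sub_mul (‖B x‖ ^ 2) ρ (‖H x‖ ^ 2)]
  have h7 : nsq (A * H) = 1 - ρ * nsq H := by
    unfold nsq
    rw [integral_congr_ae (Filter.Eventually.of_forall hpt), integral_sub, integral_const_mul,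
      integral_const]
    · simp
    · exact integrable_const _
    · exact (integrable_cc _ (by fun_prop)).const_mul ρ
  have h8 : (1:ℝ) ≤ nsq H := by
    have h := bessel H {0}
    rw [Finset.sum_singleton, hs.coH, norm_one, one_pow] at h
    exact h
  rw [h7]
  have h9 := mul_le_mul_of_nonneg_left h8 hs.pos.le
  linarith

/-- from `Stage.next` with `F' = A' H'`: `co p (ex n * (H * H')) = co (p-n) (H H')` is `0` for `p < n` and `1` for `p = n`. -/
theorem sch_next {T n : ℤ} {F : CC} {ρ : ℝ} (h : Sch T F ρ) (hn : T < n) (γ : ℂ) (hγ : ‖γ‖ < 1) :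
    ∃ F' : CC, Sch n F' ((1 - ‖γ‖ ^ 2) * ρ) ∧ (∀ p < n, co p F' = co p F) ∧
      co n F' = co n F + γ * (ρ : ℂ) := by
  obtain ⟨A, B, H, hs, rfl⟩ := h
  obtain ⟨A', B', H', hs', hF⟩ := hs.next hn γ hγ
  have hHH : HS 0 (H * H') := HS.mul0 hs.specH hs'.specH
  have hco : co 0 (H * H') = 1 := by
    rw [co_mul_zero hs.specH hs'.specH, hs.coH, hs'.coH, mul_one]
  refine ⟨A' * H', ⟨A', B', H', hs', rfl⟩, ?_, ?_⟩
  · intro p hp
    rw [hF, co_add, co_smul, co_ex_mul, hHH (p - n) (by omega), mul_zero, add_zero]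
  · rw [hF, co_add, co_smul, co_ex_mul, sub_self, hco, mul_one]

/-- THE KEY INEQUALITY. PROOF. For `|γ| < 1` let `F' = A'H'` as in `Stage.next`. Then
`co n (F' x²) = co n (F x²) + γ ρ co 0 (H H' x²) = co n (F x²) + γ ρ` (all factors in `HS 0`, `co 0` multiplicative), and
`|co n (F' x²)| ≤ nsq x` (`norm_co_sq_le`, `Stage.next` gives `|F'| ≤ 1`). With `γ = s · (phase of co n (F x²))`, `0 < s < 1`:
`|co n (F x²)| + s ρ ≤ nsq x`; let `s → 1`. -/
theorem sch_star {T n : ℤ} {F x : CC} {ρ : ℝ} (h : Sch T F ρ) (hn : T < n) (hx : HS 0 x) (hx0 : co 0 x = 1) :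
    ‖co n (F * (x * x))‖ ≤ nsq x - ρ := by
  obtain ⟨A, B, H, hs, rfl⟩ := h
  have hxx : HS 0 (x * x) := HS.mul0 hx hx
  have hcxx : co 0 (x * x) = 1 := by rw [co_mul_zero hx hx, hx0, mul_one]
  have key : ∀ γ : ℂ, ‖γ‖ < 1 → ‖co n (A * H * (x * x)) + γ * (ρ : ℂ)‖ ≤ nsq x := by
    intro γ hγ
    obtain ⟨A', B', H', hs', hF⟩ := hs.next hn γ hγ
    have hHH : HS 0 (H * H') := HS.mul0 hs.specH hs'.specH
    have hco : co 0 (H * H') = 1 := by
      rw [co_mul_zero hs.specH hs'.specH, hs.coH, hs'.coH, mul_one]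
    have h1 : co n (A' * H' * (x * x)) = co n (A * H * (x * x)) + γ * (ρ : ℂ) := by
      rw [hF, add_mul, smul_mul_assoc, mul_assoc (ex n), co_add, co_smul, co_ex_mul, sub_self,
        co_mul_zero hHH hxx, hco, hcxx, mul_one, mul_one]
    rw [← h1]
    exact norm_co_sq_le n _ x (sch_norm ⟨A', B', H', hs', rfl⟩)
  have hρ := hs.pos
  set z := co n (A * H * (x * x)) with hz
  have key2 : ∀ s : ℝ, 0 < s → s < 1 → ‖z‖ + s * ρ ≤ nsq x := by
    intro s hs0 hs1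
    obtain ⟨u, hu, hzu⟩ : ∃ u : ℂ, ‖u‖ = 1 ∧ z = ‖z‖ * u := by
      by_cases hz0 : z = 0
      · exact ⟨1, norm_one, by rw [hz0]; simp⟩
      · have hn0 : (‖z‖ : ℂ) ≠ 0 := by
          exact_mod_cast (norm_ne_zero_iff.2 hz0)
        refine ⟨z / ‖z‖, ?_, ?_⟩
        · rw [norm_div, Complex.norm_real, norm_norm, div_self (norm_ne_zero_iff.2 hz0)]
        · field_simp
    have h1 := key ((s : ℂ) * u) (by
      rw [norm_mul, hu, mul_one, Complex.norm_real, Real.norm_of_nonneg hs0.le]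
      exact hs1)
    have h2 : z + (s : ℂ) * u * (ρ : ℂ) = ((‖z‖ + s * ρ : ℝ) : ℂ) * u := by
      conv_lhs => rw [hzu]
      push_cast
      ring
    rw [h2, norm_mul, hu, mul_one, Complex.norm_real, Real.norm_of_nonneg (by positivity)] at h1
    exact h1
  have h3 : Filter.Tendsto (fun s : ℝ => ‖z‖ + s * ρ) (nhdsWithin 1 (Set.Iio 1)) (nhds (‖z‖ + 1 * ρ)) := by
    have : Continuous (fun s : ℝ => ‖z‖ + s * ρ) := by fun_prop
    exact (this.tendsto 1).mono_left nhdsWithin_le_nhds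
  have h4 : ∀ᶠ s in nhdsWithin (1:ℝ) (Set.Iio 1), ‖z‖ + s * ρ ≤ nsq x := by
    have h5 : Set.Ioo (0:ℝ) 1 ∈ nhdsWithin (1:ℝ) (Set.Iio 1) := Ioo_mem_nhdsLT one_pos
    filter_upwards [h5] with s hs
    exact key2 s hs.1 hs.2
  have h6 := le_of_tendsto h3 h4
  linarith

end Pool.Agent.SLit
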