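import Pool.Agent.Lib_SLit.Chi

/-!
# SLit piece SUMA: Riemann sums with the weight `X0`
-/

set_option autoImplicit false

namespace Pool.Agent.SLit

open MeasureTheory Set Real

private theorem sumA_anti {x : ℝ} (hx : 0 ≤ x) :
    AntitoneOn (fun y => X0 y / (1 + x + y)) (Ici 0) := by
  intro y hy z hz hyz
  have hy' : (0:ℝ) ≤ y := hy
  have hz' : (0:ℝ) ≤ z := hz
  have h1 := X0_mono y z hy' hyz
  have h2 := X0_nonneg z hz'
  have h3 := X0_nonneg y hy'
  have h4 : X0 z ≤ X0 y := by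
    have h5 : (1 + y) * X0 z ≤ (1 + z) * X0 z := by
      apply mul_le_mul_of_nonneg_right _ h2
      linarith
    have h6 : (1 + y) * X0 z ≤ (1 + y) * X0 y := h5.trans h1
    exact le_of_mul_le_mul_left h6 (by linarith)
  show X0 z / (1 + x + z) ≤ X0 y / (1 + x + y)
  rw [div_le_div_iff₀ (by linarith) (by linarith)]
  calc X0 z * (1 + x + y) ≤ X0 y * (1 + x + y) :=
        mul_le_mul_of_nonneg_right h4 (by linarith)
    _ ≤ X0 y * (1 + x + z) := mul_le_mul_of_nonneg_left (by linarith) h3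

private theorem sumA_int {x σ : ℝ} (hx : 0 ≤ x) (hσ : 0 < σ) (K : ℕ) :
    ∑ k ∈ Finset.range K, X0 ((k + 1 : ℕ) / σ) / (1 + x + (k + 1 : ℕ) / σ) ≤
      σ * (1 / (1 + x) - π * X0 x) := by
  have hanti := sumA_anti hx
  set f : ℝ → ℝ := fun y => X0 y / (1 + x + y) with hf
  have hg : AntitoneOn (fun s : ℝ => f (s / σ)) (Icc (0:ℝ) (0 + (K:ℕ))) := by
    intro s hs t ht hst
    apply hanti
    · exact div_nonneg hs.1 hσ.le
    · exact div_nonneg ht.1 hσ.le
    · exact div_le_div_of_nonneg_right hst hσ.le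
  have h1 := hg.sum_le_integral
  have h2 : ∫ s in (0:ℝ)..(0 + (K:ℕ)), f (s / σ) = σ * ∫ y in (0:ℝ)..(K / σ), f y := by
    rw [intervalIntegral.integral_comp_div (fun y => f y) hσ.ne']
    simp
  obtain ⟨hint, hval⟩ := X0_eq x hx
  have h3 : ∫ y in (0:ℝ)..(K / σ), f y ≤ 1 / (1 + x) - π * X0 x := by
    rw [← hval, intervalIntegral.integral_of_le (by positivity)]
    apply MeasureTheory.setIntegral_mono_set hint
    · rw [Filter.EventuallyLE, ae_restrict_iff' measurableSet_Ioi]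
      refine Filter.Eventually.of_forall fun y hy => ?_
      have hy' : (0:ℝ) < y := hy
      have := X0_nonneg y hy'.le
      show 0 ≤ X0 y / (1 + x + y)
      positivity
    · exact (Ioc_subset_Ioi_self).eventuallyLE
  calc ∑ k ∈ Finset.range K, X0 ((k + 1 : ℕ) / σ) / (1 + x + (k + 1 : ℕ) / σ)
      = ∑ k ∈ Finset.range K, f ((0 + (k + 1 : ℕ)) / σ) := by
        apply Finset.sum_congr rfl
        intro k _
        simp [hf]
    _ ≤ ∫ s in (0:ℝ)..(0 + (K:ℕ)), f (s / σ) := h1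
    _ = σ * ∫ y in (0:ℝ)..(K / σ), f y := h2
    _ ≤ σ * (1 / (1 + x) - π * X0 x) := mul_le_mul_of_nonneg_left h3 hσ.le

/-- SUMA. PROOF: `χ m' (r/π)/(σ+m+m') = (r²/(π σ²)) f(m'/σ)`, `f y = X0 y/(1+x+y)`, `x = m/σ`, nonincreasing on `[0,∞)`, so
`(1/σ) ∑_{m'=1}^K f(m'/σ) ≤ ∫_0^∞ f = 1/(1+x) - π X0 x` (`X0_eq`); and `(r²/(πσ))(1/(1+x) - π X0 x) = r g m - r χ m`. -/
theorem sumA {r σ : ℝ} (hr : 0 ≤ r) (hσ : 0 < σ) (m K : ℕ) :
    ∑ m' ∈ Finset.Icc 1 K, chi r σ m' * (r / π / (σ + m + m')) ≤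
      r * (r / π / (σ + m)) - r * chi r σ m := by
  have hx : (0:ℝ) ≤ m / σ := by positivity
  have hpi := Real.pi_pos
  have h1 := sumA_int hx hσ K
  have h2 : ∑ m' ∈ Finset.Icc 1 K, chi r σ m' * (r / π / (σ + m + m')) =
      (r ^ 2 / (π * σ ^ 2)) *
        ∑ k ∈ Finset.range K, X0 ((k + 1 : ℕ) / σ) / (1 + m / σ + (k + 1 : ℕ) / σ) := by
    rw [Finset.mul_sum, Finset.range_eq_Ico]
    rw [Finset.sum_Ico_add' (fun k : ℕ => r ^ 2 / (π * σ ^ 2) *
      (X0 ((k : ℕ) / σ) / (1 + m / σ + (k : ℕ) / σ))) 0 K 1]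
    have hset : Finset.Icc 1 K = Finset.Ico (0 + 1) (K + 1) := by
      ext a; simp only [Finset.mem_Icc, Finset.mem_Ico]; omega
    rw [hset]
    apply Finset.sum_congr rfl
    intro k _
    unfold chi
    have hden : (0:ℝ) < σ + m + k := by positivity
    have hden2 : (1 + (m:ℝ) / σ + (k:ℝ) / σ) = (σ + m + k) / σ := by field_simp
    rw [hden2]
    field_simp
  rw [h2]
  have h3 : r * (r / π / (σ + m)) - r * chi r σ m =
      (r ^ 2 / (π * σ ^ 2)) * (σ * (1 / (1 + m / σ) - π * X0 (m / σ))) := by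
    unfold chi
    have hden : (0:ℝ) < σ + m := by positivity
    have hden2 : (1 + (m:ℝ) / σ) = (σ + m) / σ := by field_simp
    rw [hden2]
    field_simp
  rw [h3]
  exact mul_le_mul_of_nonneg_left h1 (by positivity)

end Pool.Agent.SLit
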