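import Pool.Agent.Lib_SLit.OneSided
import Pool.Agent.Lib_SLit.Phi
import Pool.Agent.Lib_SLit.Mix

/-!
# SLit: the two-sided test function
-/

set_option autoImplicit false

namespace Pool.Agent.SLit

open MeasureTheory Set Real

/-- the combination -/
noncomputable def comb (K : ℕ) (b : ℕ → ℝ) (U V : CC) : CC :=
  ∑ k ∈ Finset.range (K + 1), ((b k / 2 : ℝ) : ℂ) • (U ^ (k + 1) * V ^ k + star (V ^ (k + 1) * U ^ k))

theorem comb_norm {K : ℕ} {b : ℕ → ℝ} (h : ∀ u v : ℂ, ‖u‖ ≤ 1 → ‖v‖ ≤ 1 →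
      ‖∑ k ∈ Finset.range (K + 1), ((b k / 2 : ℝ) : ℂ) *
        (u ^ (k + 1) * v ^ k + (starRingEnd ℂ) (v ^ (k + 1) * u ^ k))‖ ≤ 1)
    {U V : CC} (hU : ∀ x, ‖U x‖ ≤ 1) (hV : ∀ x, ‖V x‖ ≤ 1) (x : UnitAddCircle) : ‖comb K b U V x‖ ≤ 1 := by
  have h1 := h (U x) (V x) (hU x) (hV x)
  refine le_trans (le_of_eq ?_) h1
  congr 1
  unfold comb
  rw [ContinuousMap.coe_sum, Finset.sum_apply]
  refine Finset.sum_congr rfl fun k _ => ?_
  simp

theorem co_comb (K : ℕ) (b : ℕ → ℝ) (U V : CC) (n : ℤ) :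
    co n (comb K b U V) = ∑ k ∈ Finset.range (K + 1), ((b k / 2 : ℝ) : ℂ) *
      (co n (U ^ (k + 1) * V ^ k) + (starRingEnd ℂ) (co (-n) (V ^ (k + 1) * U ^ k))) := by
  unfold comb
  rw [co_sum]
  refine Finset.sum_congr rfl fun k _ => ?_
  rw [co_smul, co_add, co_star]

theorem hs_pow {D : ℤ} (hD : 0 ≤ D) {U : CC} (hU : HS D U) (k : ℕ) : HS D (U ^ (k + 1)) := by
  have hU0 : HS 0 U := hU.mono hD
  rw [pow_succ]
  have := HS.mul (HS.pow0 hU0 k) hU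
  simpa using this

/-- spectrum of the combination avoids `(-D, D)` -/
theorem comb_zero {K : ℕ} {b : ℕ → ℝ} {D : ℤ} (hD : 0 < D) {U V : CC} (hU : HS D U) (hV : HS D V) (n : ℤ)
    (h1 : -D < n) (h2 : n < D) : co n (comb K b U V) = 0 := by
  have hU0 : HS 0 U := hU.mono hD.le
  have hV0 : HS 0 V := hV.mono hD.le
  rw [co_comb]
  refine Finset.sum_eq_zero fun k _ => ?_
  have h3 : HS D (U ^ (k + 1) * V ^ k) := by
    have := HS.mul (hs_pow hD.le hU k) (HS.pow0 hV0 k)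
    simpa using this
  have h4 : HS D (V ^ (k + 1) * U ^ k) := by
    have := HS.mul (hs_pow hD.le hV k) (HS.pow0 hU0 k)
    simpa using this
  rw [h3 n h2, h4 (-n) (by omega)]
  simp

/-- coefficient of the combination at a positive frequency -/
theorem comb_pos {K : ℕ} {b : ℕ → ℝ} {D : ℤ} (hD : 0 < D) {U V : CC} (hU : HS D U) (hV : HS D V)
    (hU1 : ∀ x, ‖U x‖ ≤ 1) (hV1 : ∀ x, ‖V x‖ ≤ 1) (n : ℤ) (hn : 0 < n) :
    b 0 / 2 * (co n U).re - (∑ k ∈ Finset.range (K + 1), 3 * |b k| / 2) *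
      (√(∑ p ∈ Finset.Icc 0 (n / 2), ‖co p U‖ ^ 2) * √(∑ p ∈ Finset.Icc 0 n, ‖co p U‖ ^ 2)) ≤
      (co n (comb K b U V)).re := by
  have hU0 : HS 0 U := hU.mono hD.le
  have hV0 : HS 0 V := hV.mono hD.le
  set E : ℝ := √(∑ p ∈ Finset.Icc 0 (n / 2), ‖co p U‖ ^ 2) * √(∑ p ∈ Finset.Icc 0 n, ‖co p U‖ ^ 2) with hE
  have hE0 : 0 ≤ E := mul_nonneg (Real.sqrt_nonneg _) (Real.sqrt_nonneg _)
  obtain ⟨BB, hBB⟩ : ∃ BB : ℝ, BB = ∑ k ∈ Finset.range (K + 1), 3 * |b k| / 2 := ⟨_, rfl⟩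
  rw [co_comb, ← hBB]
  have h0 : ∀ k ∈ Finset.range (K + 1), ((b k / 2 : ℝ) : ℂ) *
      (co n (U ^ (k + 1) * V ^ k) + (starRingEnd ℂ) (co (-n) (V ^ (k + 1) * U ^ k))) =
      ((b k / 2 : ℝ) : ℂ) * co n (U ^ (k + 1) * V ^ k) := by
    intro k _
    have h4 : HS D (V ^ (k + 1) * U ^ k) := by
      have := HS.mul (hs_pow hD.le hV k) (HS.pow0 hU0 k)
      simpa using this
    rw [h4 (-n) (by omega)]
    simp
  rw [Finset.sum_congr rfl h0, Finset.sum_range_succ']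
  simp only [pow_zero, mul_one, zero_add, pow_one]
  have h1 : ∀ k ∈ Finset.range K, ‖((b (k + 1) / 2 : ℝ) : ℂ) * co n (U ^ (k + 1 + 1) * V ^ (k + 1))‖ ≤
      3 * |b (k + 1)| / 2 * E := by
    intro k _
    have h2 : U ^ (k + 1 + 1) * V ^ (k + 1) = U * U * (U ^ k * V ^ (k + 1)) := by ring
    have hG : HS 0 (U ^ k * V ^ (k + 1)) := HS.mul0 (HS.pow0 hU0 k) (HS.pow0 hV0 (k + 1))
    have hG1 : ∀ x, ‖(U ^ k * V ^ (k + 1)) x‖ ≤ 1 := by
      intro x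
      rw [ContinuousMap.mul_apply, ContinuousMap.pow_apply, ContinuousMap.pow_apply, norm_mul, norm_pow,
        norm_pow]
      exact mul_le_one₀ (pow_le_one₀ (norm_nonneg _) (hU1 x)) (by positivity)
        (pow_le_one₀ (norm_nonneg _) (hV1 x))
    have h3 := mix U _ hU0 hG hG1 n hn.le
    rw [norm_mul, Complex.norm_real, Real.norm_eq_abs, abs_div, abs_two, h2]
    calc |b (k + 1)| / 2 * ‖co n (U * U * (U ^ k * V ^ (k + 1)))‖ ≤ |b (k + 1)| / 2 *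
          (3 * √(∑ p ∈ Finset.Icc 0 (n / 2), ‖co p U‖ ^ 2) * √(∑ p ∈ Finset.Icc 0 n, ‖co p U‖ ^ 2)) :=
          mul_le_mul_of_nonneg_left h3 (by positivity)
      _ = 3 * |b (k + 1)| / 2 * E := by rw [hE]; ring
  have h2 : ‖∑ k ∈ Finset.range K, ((b (k + 1) / 2 : ℝ) : ℂ) * co n (U ^ (k + 1 + 1) * V ^ (k + 1))‖ ≤
      BB * E := by
    refine (norm_sum_le_of_le _ h1).trans ?_
    rw [hBB, Finset.sum_range_succ', add_mul, Finset.sum_mul]
    have : 0 ≤ 3 * |b 0| / 2 * E := by positivity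
    linarith
  have h3 := Complex.abs_re_le_norm (∑ k ∈ Finset.range K, ((b (k + 1) / 2 : ℝ) : ℂ) *
    co n (U ^ (k + 1 + 1) * V ^ (k + 1)))
  have h4 := neg_abs_le (∑ k ∈ Finset.range K, ((b (k + 1) / 2 : ℝ) : ℂ) *
    co n (U ^ (k + 1 + 1) * V ^ (k + 1))).re
  rw [Complex.add_re, Complex.re_ofReal_mul]
  linarith

/-- symmetric form -/
theorem star_comb (K : ℕ) (b : ℕ → ℝ) (U V : CC) : star (comb K b U V) = comb K b V U := by
  unfold comb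
  rw [star_sum]
  refine Finset.sum_congr rfl fun k _ => ?_
  rw [star_smul, star_add, star_star, add_comm]
  congr 1
  simp

theorem comb_neg {K : ℕ} {b : ℕ → ℝ} {D : ℤ} (hD : 0 < D) {U V : CC} (hU : HS D U) (hV : HS D V)
    (hU1 : ∀ x, ‖U x‖ ≤ 1) (hV1 : ∀ x, ‖V x‖ ≤ 1) (n : ℤ) (hn : 0 < n) :
    b 0 / 2 * (co n V).re - (∑ k ∈ Finset.range (K + 1), 3 * |b k| / 2) *
      (√(∑ p ∈ Finset.Icc 0 (n / 2), ‖co p V‖ ^ 2) * √(∑ p ∈ Finset.Icc 0 n, ‖co p V‖ ^ 2)) ≤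
      (co (-n) (comb K b U V)).re := by
  have h1 := comb_pos (K := K) (b := b) hD hV hU hV1 hU1 n hn
  have h2 : co (-n) (comb K b U V) = (starRingEnd ℂ) (co n (comb K b V U)) := by
    rw [← star_comb K b V U, co_star]
    simp
  rw [h2, Complex.conj_re]
  exact h1

theorem two_sided (δ : ℝ) (hδ : 0 < δ) : ∃ s B : ℝ, 1000 ≤ s ∧ 0 ≤ B ∧
    ∀ (N M : ℕ) (t u : ℕ → ℤ), StrictMono t → StrictMono u → ∀ D : ℤ, 0 < D → D ≤ t 0 → D ≤ u 0 →
      ∃ F : CC, (∀ x, ‖F x‖ ≤ 1) ∧ (∀ p : ℤ, -D < p → p < D → co p F = 0) ∧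
        (∀ j < N, ∀ k ≤ N, t j / 2 < t k →
          (2 / π ^ 2 - δ) / (s + ((N : ℝ) - j)) - B / (√(s + ((N : ℝ) - j - 1)) * √(s + ((N : ℝ) - k))) ≤
            (co (t j) F).re) ∧
        (∀ j < M, ∀ k ≤ M, u j / 2 < u k →
          (2 / π ^ 2 - δ) / (s + ((M : ℝ) - j)) - B / (√(s + ((M : ℝ) - j - 1)) * √(s + ((M : ℝ) - k))) ≤
            (co (-(u j)) F).re) := by
  have hπ := Real.pi_pos
  have hπ3 := Real.pi_gt_three
  obtain ⟨K, b, hb, hb0, hphi⟩ := phi δ hδ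
  obtain ⟨r, hr, hr1, hrδ⟩ : ∃ r : ℝ, 0.95 ≤ r ∧ r < 1 ∧ 1 - δ ≤ r :=
    ⟨max 0.95 (1 - δ), le_max_left _ _, max_lt (by norm_num) (by linarith), le_max_right _ _⟩
  have hr0 : 0 ≤ r := by linarith
  obtain ⟨s, hs, hF⟩ := one_sided hr hr1
  set B : ℝ := (∑ k ∈ Finset.range (K + 1), 3 * |b k| / 2) / 4 with hB
  have hBs : 0 ≤ ∑ k ∈ Finset.range (K + 1), 3 * |b k| / 2 := Finset.sum_nonneg fun k _ => by positivity
  have hmainconst : 2 / π ^ 2 - δ ≤ b 0 / 2 * (r / π) := by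
    have h1 : 4 / π - δ ≤ b 0 := hb
    by_cases hd : δ ≤ 1
    · have h2 : (2 / π - δ / 2) * ((1 - δ) / π) ≤ b 0 / 2 * (r / π) := by
        refine mul_le_mul (by have : 4 / π = 2 * (2 / π) := by ring
                              linarith) (div_le_div_of_nonneg_right hrδ hπ.le) ?_ (by positivity)
        exact div_nonneg (by linarith) hπ.le
      refine le_trans ?_ h2
      have h3 : (2 / π - δ / 2) * ((1 - δ) / π) = 2 / π ^ 2 - (2 / π ^ 2) * δ - δ / (2 * π) + δ ^ 2 / (2 * π) := by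
        field_simp
        ring
      rw [h3]
      have h4 : 2 / π ^ 2 ≤ 2 / 9 := by
        apply div_le_div_of_nonneg_left (by norm_num) (by norm_num); nlinarith
      have h5 : δ / (2 * π) ≤ δ / 6 := by
        apply div_le_div_of_nonneg_left hδ.le (by norm_num); linarith
      have h6 : 0 ≤ δ ^ 2 / (2 * π) := by positivity
      nlinarith
    · have h2 : 2 / π ^ 2 ≤ 2 / 9 := by
        apply div_le_div_of_nonneg_left (by norm_num) (by norm_num); nlinarith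
      have h3 : 0 ≤ b 0 / 2 * (r / π) := by positivity
      linarith
  refine ⟨s, B, hs, by positivity, fun N M t u ht hu D hD hDt hDu => ?_⟩
  obtain ⟨U, hU1, hUs, hUco, hUe⟩ := hF N t ht (by omega) (fun _ => 1) (fun _ => by simp)
  obtain ⟨V, hV1, hVs, hVco, hVe⟩ := hF M u hu (by omega) (fun _ => 1) (fun _ => by simp)
  have hUD : HS D U := hUs.mono hDt
  have hVD : HS D V := hVs.mono hDu
  -- common part
  have common : ∀ (N : ℕ) (t : ℕ → ℤ) (U : CC), StrictMono t → D ≤ t 0 →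
      (∀ j < N, co (t j) U = ((r / π / (s + ((N : ℝ) - j)) : ℝ) : ℂ) * 1) →
      (∀ k ≤ N, ∑ p ∈ Finset.Ico 0 (t k), ‖co p U‖ ^ 2 ≤ 1 / (4 * (s + ((N : ℝ) - k)))) →
      ∀ j < N, ∀ k ≤ N, t j / 2 < t k →
        (2 / π ^ 2 - δ) / (s + ((N : ℝ) - j)) - B / (√(s + ((N : ℝ) - j - 1)) * √(s + ((N : ℝ) - k))) ≤
        b 0 / 2 * (co (t j) U).re - (∑ k ∈ Finset.range (K + 1), 3 * |b k| / 2) *
          (√(∑ p ∈ Finset.Icc 0 (t j / 2), ‖co p U‖ ^ 2) * √(∑ p ∈ Finset.Icc 0 (t j), ‖co p U‖ ^ 2)) := by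
    intro N t U ht hDt hUco hUe j hj k hk hjk
    have hjN : (j:ℝ) + 1 ≤ N := by exact_mod_cast hj
    have hkN : (k:ℝ) ≤ N := by exact_mod_cast hk
    have hs1 : 0 < s + ((N : ℝ) - j) := by linarith
    have hs2 : 0 < s + ((N : ℝ) - j - 1) := by linarith
    have hs3 : 0 < s + ((N : ℝ) - k) := by linarith
    have h1 : ∑ p ∈ Finset.Icc 0 (t j / 2), ‖co p U‖ ^ 2 ≤ 1 / (4 * (s + ((N : ℝ) - k))) := by
      refine le_trans (Finset.sum_le_sum_of_subset_of_nonneg ?_ fun _ _ _ => by positivity) (hUe k hk)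
      intro p hp
      rw [Finset.mem_Icc] at hp
      rw [Finset.mem_Ico]
      exact ⟨hp.1, by omega⟩
    have h2 : ∑ p ∈ Finset.Icc 0 (t j), ‖co p U‖ ^ 2 ≤ 1 / (4 * (s + ((N : ℝ) - j - 1))) := by
      have h3 := hUe (j + 1) (by omega)
      have h4 : s + ((N : ℝ) - (j + 1 : ℕ)) = s + ((N : ℝ) - j - 1) := by push_cast; ring
      rw [h4] at h3
      refine le_trans (Finset.sum_le_sum_of_subset_of_nonneg ?_ fun _ _ _ => by positivity) h3
      intro p hp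
      rw [Finset.mem_Icc] at hp
      rw [Finset.mem_Ico]
      have := ht (Nat.lt_succ_self j)
      exact ⟨hp.1, lt_of_le_of_lt hp.2 this⟩
    have hsq : ∀ x : ℝ, 0 < x → √(1 / (4 * x)) = 1 / (2 * √x) := by
      intro x hx
      rw [Real.sqrt_div zero_le_one, Real.sqrt_one, Real.sqrt_mul (by norm_num)]
      congr 2
      rw [show (4:ℝ) = 2 ^ 2 by norm_num, Real.sqrt_sq (by norm_num)]
    have h5 : √(∑ p ∈ Finset.Icc 0 (t j / 2), ‖co p U‖ ^ 2) * √(∑ p ∈ Finset.Icc 0 (t j), ‖co p U‖ ^ 2) ≤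
        (1 / (2 * √(s + ((N : ℝ) - k)))) * (1 / (2 * √(s + ((N : ℝ) - j - 1)))) := by
      rw [← hsq _ hs2, ← hsq _ hs3]
      exact mul_le_mul (Real.sqrt_le_sqrt h1) (Real.sqrt_le_sqrt h2) (Real.sqrt_nonneg _) (Real.sqrt_nonneg _)
    have h6 := mul_le_mul_of_nonneg_left h5 hBs
    have h7 : (∑ k ∈ Finset.range (K + 1), 3 * |b k| / 2) *
        ((1 / (2 * √(s + ((N : ℝ) - k)))) * (1 / (2 * √(s + ((N : ℝ) - j - 1))))) =
        B / (√(s + ((N : ℝ) - j - 1)) * √(s + ((N : ℝ) - k))) := by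
      have h8 : 0 < √(s + ((N : ℝ) - j - 1)) := Real.sqrt_pos.2 hs2
      have h9 : 0 < √(s + ((N : ℝ) - k)) := Real.sqrt_pos.2 hs3
      rw [hB]
      generalize ∑ k ∈ Finset.range (K + 1), 3 * |b k| / 2 = Z
      field_simp
      norm_num
    rw [h7] at h6
    have h8 : (co (t j) U).re = r / π / (s + ((N : ℝ) - j)) := by
      rw [hUco j hj, mul_one, Complex.ofReal_re]
    have h9 : (2 / π ^ 2 - δ) / (s + ((N : ℝ) - j)) ≤ b 0 / 2 * (co (t j) U).re := by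
      rw [h8]
      have : b 0 / 2 * (r / π / (s + ((N : ℝ) - j))) = (b 0 / 2 * (r / π)) / (s + ((N : ℝ) - j)) := by ring
      rw [this]
      exact div_le_div_of_nonneg_right hmainconst hs1.le
    linarith
  refine ⟨comb K b U V, comb_norm hphi hU1 hV1, fun p h1 h2 => comb_zero hD hUD hVD p h1 h2, ?_, ?_⟩
  · intro j hj k hk hjk
    refine (common N t U ht hDt hUco hUe j hj k hk hjk).trans ?_
    exact comb_pos hD hUD hVD hU1 hV1 (t j) (by have := ht.monotone (Nat.zero_le j); omega)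
  · intro j hj k hk hjk
    refine (common M u V hu hDu hVco hVe j hj k hk hjk).trans ?_
    exact comb_neg hD hUD hVD hU1 hV1 (u j) (by have := hu.monotone (Nat.zero_le j); omega)

end Pool.Agent.SLit
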