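import Pool.Agent.Lib_SLit.Two
import Pool.Agent.Lib_SLit.Pair
import Pool.Agent.Lib_SLit.Ann

/-!
# SLit: the two-sided lower bound, general form
-/

set_option autoImplicit false

namespace Pool.Agent.SLit

open MeasureTheory Set Real

/-- the dyadic class of a distance -/
def cls (D : ℕ) (x : ℤ) : ℕ := Nat.log 2 (x.natAbs / D)

theorem cls_half {D : ℕ} (hD : 0 < D) {x y : ℤ} (hx : (D : ℤ) ≤ x) (hy : (D : ℤ) ≤ y)
    (h : cls D x = cls D y) : x / 2 < y := by
  obtain ⟨a, rfl⟩ := Int.eq_ofNat_of_zero_le (show 0 ≤ x by omega)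
  obtain ⟨b, rfl⟩ := Int.eq_ofNat_of_zero_le (show 0 ≤ y by omega)
  have ha : D ≤ a := by exact_mod_cast hx
  have hb : D ≤ b := by exact_mod_cast hy
  unfold cls at h
  simp only [Int.natAbs_natCast] at h
  have hb1 : b / D ≠ 0 := (Nat.div_pos hb hD).ne'
  have h1 : a / D < 2 ^ (Nat.log 2 (a / D) + 1) := Nat.lt_pow_succ_log_self (by norm_num) _
  have h2 : 2 ^ Nat.log 2 (b / D) ≤ b / D := Nat.pow_log_le_self 2 hb1
  rw [h, pow_succ] at h1
  have h3 : a / D < b / D * 2 := by omega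
  have h4 : a < (b / D * 2) * D := by
    have := (Nat.div_lt_iff_lt_mul hD).1 h3
    exact this
  have h5 : b / D * D ≤ b := Nat.div_mul_le_self b D
  have h6 : (b / D * 2) * D = 2 * (b / D * D) := by ring
  omega

/-- one side -/
theorem side {s B η : ℝ} (hs : 1000 ≤ s) (hB : 0 ≤ B) (hη : 0 ≤ η) (N : ℕ) (t : ℕ → ℤ) (ht : StrictMono t)
    (D : ℕ) (hD : 0 < D) (hDt : (D : ℤ) ≤ t 0) (v : ℕ → ℝ)
    (h : ∀ j < N, ∀ k ≤ N, t j / 2 < t k →
      η / (s + ((N : ℝ) - j)) - B / (√(s + ((N : ℝ) - j - 1)) * √(s + ((N : ℝ) - k))) ≤ v j) :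
    η * (Real.log (N + 1) - Real.log (s + 1)) -
      2 * B * (((Finset.range N).image (fun j => cls D (t j))).card : ℝ) ≤ ∑ j ∈ Finset.range N, v j := by
  classical
  have hex : ∀ j, ∃ k, cls D (t k) = cls D (t j) := fun j => ⟨j, rfl⟩
  set k : ℕ → ℕ := fun j => Nat.find (hex j) with hk
  have hkj : ∀ j, k j ≤ j := fun j => Nat.find_min' (hex j) rfl
  have hkc : ∀ j, cls D (t (k j)) = cls D (t j) := fun j => Nat.find_spec (hex j)
  have hkk : ∀ j < N, ∀ j' < N, cls D (t j) = cls D (t j') → k j = k j' := by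
    intro j _ j' _ hjj
    refine le_antisymm (Nat.find_min' (hex j) ?_) (Nat.find_min' (hex j') ?_)
    · rw [hjj]; exact hkc j'
    · rw [← hjj]; exact hkc j
  have hDj : ∀ j, (D : ℤ) ≤ t j := fun j => hDt.trans (ht.monotone (Nat.zero_le j))
  have h1 : ∀ j ∈ Finset.range N, η / (s + ((N : ℝ) - j)) -
      B / (√(s + ((N : ℝ) - j - 1)) * √(s + ((N : ℝ) - k j))) ≤ v j := by
    intro j hj
    rw [Finset.mem_range] at hj
    exact h j hj (k j) ((hkj j).trans hj.le) (cls_half hD (hDj j) (hDj _) (hkc j).symm)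
  have h2 := Finset.sum_le_sum h1
  rw [Finset.sum_sub_distrib] at h2
  have h3 := ann s (by linarith) N (fun j => cls D (t j)) k (fun j _ => hkj j) hkk
  have h4 := harm s (by linarith) N
  have h5 : ∑ j ∈ Finset.range N, η / (s + ((N : ℝ) - j)) = η * ∑ j ∈ Finset.range N, 1 / (s + ((N : ℝ) - j)) := by
    rw [Finset.mul_sum]
    exact Finset.sum_congr rfl fun j _ => by ring
  have h6 : ∑ j ∈ Finset.range N, B / (√(s + ((N : ℝ) - j - 1)) * √(s + ((N : ℝ) - k j))) =
      B * ∑ j ∈ Finset.range N, 1 / (√(s + ((N : ℝ) - j - 1)) * √(s + ((N : ℝ) - k j))) := by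
    rw [Finset.mul_sum]
    exact Finset.sum_congr rfl fun j _ => by ring
  rw [h5, h6] at h2
  have h7 := mul_le_mul_of_nonneg_left h4 hη
  have h8 := mul_le_mul_of_nonneg_left h3 hB
  linarith

/-- number of dyadic annuli `2^i D ≤ |a - x0| < 2^(i+1) D` (`i ≥ 0`) that meet `A` -/
def annuli (A : Finset ℤ) (x0 : ℤ) (D : ℕ) : ℕ :=
  ((A.filter (fun a => D ≤ (a - x0).natAbs)).image (fun a => Nat.log 2 ((a - x0).natAbs / D))).card

theorem two_bound (δ : ℝ) (hδ : 0 < δ) : ∃ C : ℝ, 0 ≤ C ∧ ∀ (A : Finset ℤ) (x0 : ℤ) (D : ℕ), 0 < D →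
    (2 / π ^ 2 - δ) * (Real.log ((A.filter (fun a => x0 + D ≤ a)).card + 1) +
      Real.log ((A.filter (fun a => a ≤ x0 - D)).card + 1)) - C * (1 + annuli A x0 D) ≤
      ∫ x in (0:ℝ)..1, ‖∑ a ∈ A, Complex.exp (2 * (Real.pi : ℂ) * Complex.I * (a : ℂ) * (x : ℂ))‖ := by
  classical
  have hπ := Real.pi_pos
  have hπ3 := Real.pi_gt_three
  have hπ4 := Real.pi_lt_four
  set δ' : ℝ := min δ (1 / 10) with hδ'
  have hδ'0 : 0 < δ' := lt_min hδ (by norm_num)
  have hη : 0 ≤ 2 / π ^ 2 - δ' := by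
    have h1 : 2 / 16 ≤ 2 / π ^ 2 := by
      apply div_le_div_of_nonneg_left (by norm_num) (by positivity); nlinarith
    have h2 : δ' ≤ 1 / 10 := min_le_right _ _
    linarith
  obtain ⟨s, B, hs, hB, hF⟩ := two_sided δ' hδ'0
  set η : ℝ := 2 / π ^ 2 - δ' with hηdef
  have hls : 0 ≤ Real.log (s + 1) := Real.log_nonneg (by linarith)
  refine ⟨4 * B + 2 * η * Real.log (s + 1), by positivity, fun A x0 D hD => ?_⟩
  set R := A.filter (fun a => x0 + D ≤ a) with hR
  set L := A.filter (fun a => a ≤ x0 - D) with hL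
  obtain ⟨t, ht, ht0, htR⟩ := enum (R.image (fun a => a - x0)) D (by
    intro b hb
    rw [Finset.mem_image] at hb
    obtain ⟨a, ha, rfl⟩ := hb
    rw [hR, Finset.mem_filter] at ha
    omega)
  obtain ⟨u, hu, hu0, huL⟩ := enum (L.image (fun a => x0 - a)) D (by
    intro b hb
    rw [Finset.mem_image] at hb
    obtain ⟨a, ha, rfl⟩ := hb
    rw [hL, Finset.mem_filter] at ha
    omega)
  have hcR : (R.image (fun a => a - x0)).card = R.card :=
    Finset.card_image_of_injective _ (fun a b h => by simpa using h)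
  have hcL : (L.image (fun a => x0 - a)).card = L.card :=
    Finset.card_image_of_injective _ (fun a b h => by simpa using h)
  rw [hcR] at htR
  rw [hcL] at huL
  obtain ⟨F, hF1, hF0, hFt, hFu⟩ := hF R.card L.card t u ht hu D (by exact_mod_cast hD) ht0 hu0
  have hsumR : ∑ a ∈ R, (co (a - x0) F).re = ∑ j ∈ Finset.range R.card, (co (t j) F).re := by
    have h1 : ∑ a ∈ R, (co (a - x0) F).re = ∑ b ∈ R.image (fun a => a - x0), (co b F).re := by
      rw [Finset.sum_image (fun a _ b _ h => by simpa using h)]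
    rw [h1, htR, Finset.sum_image (fun a _ b _ h => ht.injective h)]
  have hsumL : ∑ a ∈ L, (co (a - x0) F).re = ∑ j ∈ Finset.range L.card, (co (-(u j)) F).re := by
    have h1 : ∑ a ∈ L, (co (a - x0) F).re = ∑ b ∈ L.image (fun a => x0 - a), (co (-b) F).re := by
      rw [Finset.sum_image (fun a _ b _ h => by simpa using h)]
      exact Finset.sum_congr rfl fun a _ => by rw [neg_sub]
    rw [h1, huL, Finset.sum_image (fun a _ b _ h => hu.injective h)]
  have hsplit : ∑ a ∈ A, (co (a - x0) F).re = ∑ a ∈ R, (co (a - x0) F).re + ∑ a ∈ L, (co (a - x0) F).re := by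
    have hdisj : Disjoint R L := by
      rw [Finset.disjoint_left]
      intro a ha hb
      rw [hR, Finset.mem_filter] at ha
      rw [hL, Finset.mem_filter] at hb
      omega
    rw [← Finset.sum_union hdisj]
    refine (Finset.sum_subset ?_ ?_).symm
    · intro a ha
      rw [Finset.mem_union, hR, hL, Finset.mem_filter, Finset.mem_filter] at ha
      rcases ha with ha | ha <;> exact ha.1
    · intro a ha hna
      rw [Finset.mem_union, hR, hL, Finset.mem_filter, Finset.mem_filter] at hna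
      have h1 : ¬ (x0 + D ≤ a) := fun h => hna (Or.inl ⟨ha, h⟩)
      have h2 : ¬ (a ≤ x0 - D) := fun h => hna (Or.inr ⟨ha, h⟩)
      rw [hF0 (a - x0) (by omega) (by omega), Complex.zero_re]
  have hsR := side hs hB hη R.card t ht D hD ht0 (fun j => (co (t j) F).re) hFt
  have hsL := side hs hB hη L.card u hu D hD hu0 (fun j => (co (-(u j)) F).re) hFu
  have hannR : ((Finset.range R.card).image (fun j => cls D (t j))).card ≤ annuli A x0 D := by
    refine Finset.card_le_card ?_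
    intro c hc
    rw [Finset.mem_image] at hc
    obtain ⟨j, hj, rfl⟩ := hc
    have h1 : t j ∈ R.image (fun a => a - x0) := by
      rw [htR]; exact Finset.mem_image_of_mem _ hj
    rw [Finset.mem_image] at h1
    obtain ⟨a, ha, h2⟩ := h1
    rw [Finset.mem_image]
    rw [hR, Finset.mem_filter] at ha
    refine ⟨a, ?_, ?_⟩
    · rw [Finset.mem_filter]
      exact ⟨ha.1, by omega⟩
    · unfold cls
      rw [h2]
  have hannL : ((Finset.range L.card).image (fun j => cls D (u j))).card ≤ annuli A x0 D := by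
    refine Finset.card_le_card ?_
    intro c hc
    rw [Finset.mem_image] at hc
    obtain ⟨j, hj, rfl⟩ := hc
    have h1 : u j ∈ L.image (fun a => x0 - a) := by
      rw [huL]; exact Finset.mem_image_of_mem _ hj
    rw [Finset.mem_image] at h1
    obtain ⟨a, ha, h2⟩ := h1
    rw [Finset.mem_image]
    rw [hL, Finset.mem_filter] at ha
    refine ⟨a, ?_, ?_⟩
    · rw [Finset.mem_filter]
      exact ⟨ha.1, by omega⟩
    · unfold cls
      rw [← h2, ← Int.natAbs_neg, neg_sub]
  have hp := pairing F hF1 A (fun _ => 1) x0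
  have hp2 : ∑ a ∈ A, (co (a - x0) F).re ≤
      ∫ x in (0:ℝ)..1, ‖∑ a ∈ A, Complex.exp (2 * (Real.pi : ℂ) * Complex.I * (a : ℂ) * (x : ℂ))‖ := by
    have h1 : ∑ a ∈ A, (co (a - x0) F).re = (∑ a ∈ A, co (a - x0) F * (starRingEnd ℂ) (1:ℂ)).re := by
      rw [Complex.re_sum]
      exact Finset.sum_congr rfl fun a _ => by simp
    rw [h1]
    refine (Complex.re_le_norm _).trans (hp.trans (le_of_eq ?_))
    simp only [one_mul]
  refine le_trans ?_ hp2
  rw [hsplit, hsumR, hsumL]
  have hR' : (((Finset.range R.card).image (fun j => cls D (t j))).card : ℝ) ≤ annuli A x0 D := by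
    exact_mod_cast hannR
  have hL' : (((Finset.range L.card).image (fun j => cls D (u j))).card : ℝ) ≤ annuli A x0 D := by
    exact_mod_cast hannL
  have hR'' := mul_le_mul_of_nonneg_left hR' (by positivity : 0 ≤ 2 * B)
  have hL'' := mul_le_mul_of_nonneg_left hL' (by positivity : 0 ≤ 2 * B)
  have hRc : (0:ℝ) ≤ R.card := Nat.cast_nonneg _
  have hLc : (0:ℝ) ≤ L.card := Nat.cast_nonneg _
  have hlR : 0 ≤ Real.log ((R.card : ℝ) + 1) := Real.log_nonneg (by linarith)
  have hlL : 0 ≤ Real.log ((L.card : ℝ) + 1) := Real.log_nonneg (by linarith)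
  have hδδ : 2 / π ^ 2 - δ ≤ η := by
    have h0 : δ' ≤ δ := min_le_left _ _
    rw [hηdef]
    linarith
  have h9 : (2 / π ^ 2 - δ) * (Real.log ((R.card : ℝ) + 1) + Real.log ((L.card : ℝ) + 1)) ≤
      η * (Real.log ((R.card : ℝ) + 1) + Real.log ((L.card : ℝ) + 1)) :=
    mul_le_mul_of_nonneg_right hδδ (by linarith)
  have h10 : (0:ℝ) ≤ annuli A x0 D := by positivity
  have h11 : 0 ≤ η * Real.log (s + 1) := mul_nonneg hη hls
  have h12 : 0 ≤ (annuli A x0 D : ℝ) * (2 * η * Real.log (s + 1)) := by positivity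
  nlinarith

end Pool.Agent.SLit
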