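import Pool.Agent.Lib_SLit.XDef

/-!
# SLit piece XA: first properties of `X0`
-/

set_option autoImplicit false

namespace Pool.Agent.SLit

open MeasureTheory Set Real

theorem X0_den_pos (x : ℝ) (hx : 0 ≤ x) (t : ℝ) : 0 < 1 + x * Real.cos t ^ 2 := by
  have := mul_nonneg hx (sq_nonneg (Real.cos t))
  linarith

theorem X0_den_cont (x : ℝ) : Continuous fun t : ℝ => √(1 + x * Real.cos t ^ 2) := by
  fun_prop

theorem X0_int_cont (x : ℝ) (hx : 0 ≤ x) :
    Continuous fun t : ℝ => Real.sin t ^ 2 / √(1 + x * Real.cos t ^ 2) := by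
  refine Continuous.div (by fun_prop) (X0_den_cont x) ?_
  intro t
  exact (Real.sqrt_pos.mpr (X0_den_pos x hx t)).ne'

theorem X0_nonneg (x : ℝ) (hx : 0 ≤ x) : 0 ≤ X0 x := by
  unfold X0
  refine mul_nonneg ?_ ?_
  · have := Real.pi_pos
    positivity
  · refine intervalIntegral.integral_nonneg (by have := Real.pi_pos; linarith) ?_
    intro t _
    exact div_nonneg (sq_nonneg _) (Real.sqrt_nonneg _)

/-- `∫₀^{π/2} sin² = π/4` -/
theorem X0_zero : X0 0 = 1 / 4 := by
  unfold X0
  have h : (∫ t in (0:ℝ)..(π / 2), Real.sin t ^ 2 / √(1 + 0 * Real.cos t ^ 2)) =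
      ∫ t in (0:ℝ)..(π / 2), Real.sin t ^ 2 := by
    refine intervalIntegral.integral_congr ?_
    intro t _
    simp
  rw [h, integral_sin_sq]
  have := Real.pi_ne_zero
  simp
  field_simp
  norm_num

theorem X0_scaled (x : ℝ) (hx : 0 ≤ x) :
    (1 + x) * X0 x = (1 / π) * ∫ t in (0:ℝ)..(π / 2), Real.sin t ^ 2 / √(1 + x * Real.cos t ^ 2) := by
  unfold X0
  have h1 : (1 + x) ≠ 0 := by positivity
  have h2 := Real.pi_ne_zero
  rw [← mul_assoc]
  congr 1
  field_simp

/-- `(1+x) X0 x = (1/π) ∫ sin²t/√(1+x cos²t)` is nonincreasing (integrand is) -/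
theorem X0_mono (x y : ℝ) (hx : 0 ≤ x) (hxy : x ≤ y) : (1 + y) * X0 y ≤ (1 + x) * X0 x := by
  have hy : 0 ≤ y := le_trans hx hxy
  rw [X0_scaled x hx, X0_scaled y hy]
  refine mul_le_mul_of_nonneg_left ?_ (by have := Real.pi_pos; positivity)
  refine intervalIntegral.integral_mono_on (by have := Real.pi_pos; linarith)
    ((X0_int_cont y hy).intervalIntegrable _ _) ((X0_int_cont x hx).intervalIntegrable _ _) ?_
  intro t _
  refine div_le_div_of_nonneg_left (sq_nonneg _) (Real.sqrt_pos.mpr (X0_den_pos x hx t)) ?_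
  refine Real.sqrt_le_sqrt ?_
  have := mul_le_mul_of_nonneg_right hxy (sq_nonneg (Real.cos t))
  linarith

/-- continuity (parametric integral, continuous integrand on a compact interval: `intervalIntegral.continuousOn...` or
`continuous_parametric_intervalIntegral_of_continuous` after replacing `x` by `max x 0`) -/
theorem X0_cont : ContinuousOn X0 (Ici 0) := by
  have hc : Continuous fun x : ℝ => (1 / (π * (1 + max x 0))) *
      ∫ t in (0:ℝ)..(π / 2), Real.sin t ^ 2 / √(1 + max x 0 * Real.cos t ^ 2) := by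
    refine Continuous.mul ?_ ?_
    · refine Continuous.div continuous_const (by fun_prop) ?_
      intro x
      have h1 : 0 ≤ max x 0 := le_max_right _ _
      have := Real.pi_pos
      positivity
    · refine intervalIntegral.continuous_parametric_intervalIntegral_of_continuous' ?_ _ _
      refine Continuous.div (by fun_prop) (by fun_prop) ?_
      rintro ⟨x, t⟩
      exact (Real.sqrt_pos.mpr (X0_den_pos (max x 0) (le_max_right _ _) t)).ne'
  refine hc.continuousOn.congr ?_
  intro x hx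
  have hx' : max x 0 = x := max_eq_left hx
  simp only [hx']
  rfl

theorem X0_phi_deriv (x : ℝ) (hx : 0 ≤ x) (t : ℝ) :
    HasDerivAt (fun t : ℝ => Real.sin t * Real.cos t / √(1 + x * Real.cos t ^ 2))
      ((1 + x) * (Real.cos t ^ 2 / √(1 + x * Real.cos t ^ 2) ^ 3) -
        Real.sin t ^ 2 / √(1 + x * Real.cos t ^ 2)) t := by
  have hD := X0_den_pos x hx t
  have hs : 0 < √(1 + x * Real.cos t ^ 2) := Real.sqrt_pos.mpr hD
  have h1 : HasDerivAt (fun t : ℝ => 1 + x * Real.cos t ^ 2)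
      (x * (2 * Real.cos t * (-Real.sin t))) t := by
    have h0 := ((Real.hasDerivAt_cos t).pow 2).const_mul x
    have h0' := h0.const_add 1
    refine h0'.congr_deriv ?_
    ring
  have h2 := h1.sqrt hD.ne'
  have h3 := (Real.hasDerivAt_sin t).mul (Real.hasDerivAt_cos t)
  have h4 := h3.div h2 hs.ne'
  refine h4.congr_deriv ?_
  have hsq : √(1 + x * Real.cos t ^ 2) ^ 2 = 1 + x * Real.cos t ^ 2 := Real.sq_sqrt hD.le
  set s := √(1 + x * Real.cos t ^ 2) with hsdef
  have hsc : Real.sin t ^ 2 = 1 - Real.cos t ^ 2 := by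
    have := Real.sin_sq_add_cos_sq t
    linarith
  simp only [Pi.mul_apply]
  field_simp
  have h5 : s ^ 2 = 1 + x * Real.cos t ^ 2 := hsq
  have h6 : Real.sin t * Real.sin t = 1 - Real.cos t ^ 2 := by rw [← hsc]; ring
  have key : (Real.cos t ^ 2 - Real.sin t ^ 2) * s ^ 2 + x * Real.sin t ^ 2 * Real.cos t ^ 2 =
      (1 + x) * Real.cos t ^ 2 - Real.sin t ^ 2 * s ^ 2 := by
    rw [h5, hsc]; ring
  linear_combination key

/-- Second representation. PROOF: for `φ t = sin t cos t/√(1+x cos²t)` one has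
`φ' = (1+x) cos²t/(1+x cos²t)^{3/2} - sin²t/(1+x cos²t)^{1/2}` and `φ 0 = φ (π/2) = 0` (fundamental theorem of calculus). -/
theorem X0_rep (x : ℝ) (hx : 0 ≤ x) :
    X0 x = (1 / π) * ∫ t in (0:ℝ)..(π / 2), Real.cos t ^ 2 / √(1 + x * Real.cos t ^ 2) ^ 3 := by
  have hcont3 : Continuous fun t : ℝ => Real.cos t ^ 2 / √(1 + x * Real.cos t ^ 2) ^ 3 := by
    refine Continuous.div (by fun_prop) (by fun_prop) ?_
    intro t
    exact (pow_pos (Real.sqrt_pos.mpr (X0_den_pos x hx t)) 3).ne'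
  have hcont4 : Continuous fun t : ℝ => (1 + x) * (Real.cos t ^ 2 / √(1 + x * Real.cos t ^ 2) ^ 3) :=
    continuous_const.mul hcont3
  have hI := intervalIntegral.integral_eq_sub_of_hasDerivAt (a := (0:ℝ)) (b := π / 2)
    (f := fun t : ℝ => Real.sin t * Real.cos t / √(1 + x * Real.cos t ^ 2))
    (f' := fun t : ℝ => (1 + x) * (Real.cos t ^ 2 / √(1 + x * Real.cos t ^ 2) ^ 3) -
        Real.sin t ^ 2 / √(1 + x * Real.cos t ^ 2))
    (fun t _ => X0_phi_deriv x hx t)
    ((hcont4.sub (X0_int_cont x hx)).intervalIntegrable _ _)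
  rw [intervalIntegral.integral_sub (hcont4.intervalIntegrable _ _)
    ((X0_int_cont x hx).intervalIntegrable _ _), intervalIntegral.integral_const_mul] at hI
  simp only [Real.sin_zero, Real.cos_pi_div_two, zero_mul, mul_zero, zero_div, sub_zero] at hI
  have h1 : (1 + x) ≠ 0 := by positivity
  have h2 := Real.pi_ne_zero
  unfold X0
  have h3 : (∫ t in (0:ℝ)..(π / 2), Real.sin t ^ 2 / √(1 + x * Real.cos t ^ 2)) =
      (1 + x) * ∫ t in (0:ℝ)..(π / 2), Real.cos t ^ 2 / √(1 + x * Real.cos t ^ 2) ^ 3 := by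
    linarith
  rw [h3]
  field_simp

end Pool.Agent.SLit
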