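import Mathlib

/-!
# SLit piece XB: three classical integrals
-/

set_option autoImplicit false

namespace Pool.Agent.SLit

open MeasureTheory Set Real

theorem int_arg (a b : ℝ) (ha : 0 < a) (hb : 0 < b) :
    ∫ t in (0:ℝ)..(π / 2), a * b / (b ^ 2 * Real.cos t ^ 2 + a ^ 2 * Real.sin t ^ 2) = π / 2 := by
  have hpi := Real.pi_pos
  set f : ℝ → ℂ := fun t => ((b * Real.cos t : ℝ) : ℂ) + ((a * Real.sin t : ℝ) : ℂ) * Complex.I with hf
  have hre : ∀ t, (f t).re = b * Real.cos t := by
    intro t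
    simp only [hf, Complex.add_re, Complex.mul_re, Complex.ofReal_re, Complex.ofReal_im, Complex.I_re,
      Complex.I_im]
    ring
  have him : ∀ t, (f t).im = a * Real.sin t := by
    intro t
    simp only [hf, Complex.add_im, Complex.mul_im, Complex.ofReal_re, Complex.ofReal_im, Complex.I_re,
      Complex.I_im]
    ring
  have hslit : ∀ t ∈ uIcc (0:ℝ) (π / 2), f t ∈ Complex.slitPlane := by
    intro t ht
    rw [uIcc_of_le (by linarith), mem_Icc] at ht
    rw [Complex.mem_slitPlane_iff, hre, him]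
    rcases eq_or_lt_of_le ht.2 with h1 | h1
    · right
      rw [h1, Real.sin_pi_div_two, mul_one]
      exact ha.ne'
    · left
      exact mul_pos hb (Real.cos_pos_of_mem_Ioo ⟨by linarith, h1⟩)
  set f' : ℝ → ℂ := fun t => ((-(b * Real.sin t) : ℝ) : ℂ) + ((a * Real.cos t : ℝ) : ℂ) * Complex.I with hf'
  have hfd : ∀ t, HasDerivAt f (f' t) t := by
    intro t
    have h1 : HasDerivAt (fun t : ℝ => b * Real.cos t) (-(b * Real.sin t)) t := by
      have := (Real.hasDerivAt_cos t).const_mul b
      simpa using this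
    have h2 : HasDerivAt (fun t : ℝ => a * Real.sin t) (a * Real.cos t) t :=
      (Real.hasDerivAt_sin t).const_mul a
    exact h1.ofReal_comp.add (h2.ofReal_comp.mul_const Complex.I)
  have hderiv : ∀ t ∈ uIcc (0:ℝ) (π / 2), HasDerivAt (fun s => (Complex.log (f s)).im)
      (a * b / (b ^ 2 * Real.cos t ^ 2 + a ^ 2 * Real.sin t ^ 2)) t := by
    intro t ht
    have h1 := (hfd t).clog_real (hslit t ht)
    have h2 := (Complex.imCLM.hasFDerivAt.comp_hasDerivAt t h1)
    have h3 : Complex.imCLM (f' t / f t) = a * b / (b ^ 2 * Real.cos t ^ 2 + a ^ 2 * Real.sin t ^ 2) := by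
      have hn : Complex.normSq (f t) = b ^ 2 * Real.cos t ^ 2 + a ^ 2 * Real.sin t ^ 2 := by
        rw [Complex.normSq_apply, hre, him]; ring
      have hre' : (f' t).re = -(b * Real.sin t) := by
        simp only [hf', Complex.add_re, Complex.mul_re, Complex.ofReal_re, Complex.ofReal_im, Complex.I_re,
          Complex.I_im]
        ring
      have him' : (f' t).im = a * Real.cos t := by
        simp only [hf', Complex.add_im, Complex.mul_im, Complex.ofReal_re, Complex.ofReal_im, Complex.I_re,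
          Complex.I_im]
        ring
      rw [Complex.imCLM_apply, Complex.div_im, hn, hre, him, hre', him']
      have h4 : a * b = a * Real.cos t * (b * Real.cos t) - -(b * Real.sin t) * (a * Real.sin t) := by
        have := Real.sin_sq_add_cos_sq t
        have h5 : a * Real.cos t * (b * Real.cos t) - -(b * Real.sin t) * (a * Real.sin t) =
          a * b * (Real.sin t ^ 2 + Real.cos t ^ 2) := by ring
        rw [h5, this, mul_one]
      rw [h4]
      ring
    rw [← h3]
    exact h2
  have hcont : ContinuousOn (fun t : ℝ => a * b / (b ^ 2 * Real.cos t ^ 2 + a ^ 2 * Real.sin t ^ 2))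
      (uIcc (0:ℝ) (π / 2)) := by
    apply Continuous.continuousOn
    apply Continuous.div continuous_const (by fun_prop)
    intro t
    have h1 := Real.sin_sq_add_cos_sq t
    have h2 : 0 < b ^ 2 * Real.cos t ^ 2 + a ^ 2 * Real.sin t ^ 2 := by
      rcases eq_or_ne (Real.cos t) 0 with h3 | h3
      · have h4 : Real.sin t ^ 2 = 1 := by rw [h3] at h1; nlinarith
        rw [h3, h4]; positivity
      · have h4 : 0 < Real.cos t ^ 2 := by positivity
        positivity
    exact h2.ne'
  rw [intervalIntegral.integral_eq_sub_of_hasDerivAt hderiv hcont.intervalIntegrable]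
  have h0 : f 0 = ((b : ℝ) : ℂ) := by simp [hf]
  have h1 : f (π / 2) = ((a : ℝ) : ℂ) * Complex.I := by
    simp only [hf, Real.cos_pi_div_two, Real.sin_pi_div_two, mul_zero, mul_one, Complex.ofReal_zero, zero_add]
  simp only [Complex.log_im]
  rw [h0, h1, Complex.arg_ofReal_of_nonneg hb.le, Complex.arg_real_mul _ ha, Complex.arg_I, sub_zero]

theorem int_cos (ξ α : ℝ) (hξ : 0 < ξ) (hα : 0 < α) :
    ∫ t in (0:ℝ)..(π / 2), 2 * Real.cos t ^ 2 / (ξ * Real.cos t ^ 2 + α) =
      (π / ξ) * (1 - √(α / (α + ξ))) := by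
  have hpi := Real.pi_pos
  have ha : 0 < √α := Real.sqrt_pos.2 hα
  have hb : 0 < √(α + ξ) := Real.sqrt_pos.2 (by linarith)
  have hsa : √α ^ 2 = α := Real.sq_sqrt hα.le
  have hsb : √(α + ξ) ^ 2 = α + ξ := Real.sq_sqrt (by linarith)
  have h1 := int_arg (√α) (√(α + ξ)) ha hb
  have hden : ∀ t, √(α + ξ) ^ 2 * Real.cos t ^ 2 + √α ^ 2 * Real.sin t ^ 2 = ξ * Real.cos t ^ 2 + α := by
    intro t
    rw [hsa, hsb]
    have := Real.sin_sq_add_cos_sq t
    nlinarith
  have hpos : ∀ t, 0 < ξ * Real.cos t ^ 2 + α := by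
    intro t; positivity
  have h2 : ∀ t, 2 * Real.cos t ^ 2 / (ξ * Real.cos t ^ 2 + α) =
      2 / ξ - (2 * √α / (ξ * √(α + ξ))) * (√α * √(α + ξ) / (√(α + ξ) ^ 2 * Real.cos t ^ 2 + √α ^ 2 * Real.sin t ^ 2)) := by
    intro t
    rw [hden]
    have := (hpos t).ne'
    field_simp
    rw [hsa]
    ring
  simp_rw [h2]
  rw [intervalIntegral.integral_sub, intervalIntegral.integral_const, intervalIntegral.integral_const_mul, h1,
    Real.sqrt_div hα.le]
  · simp only [smul_eq_mul]
    field_simp
    ring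
  · exact intervalIntegrable_const
  · apply Continuous.intervalIntegrable
    apply Continuous.mul continuous_const
    apply Continuous.div continuous_const (by fun_prop)
    intro t
    rw [hden]
    exact (hpos t).ne'


theorem lint_subst (k x : ℝ) (hk : 0 < k) (hx : 0 ≤ x) :
    ∫⁻ y in Ioi (0:ℝ), ENNReal.ofReal (k / ((1 + x + y) * √(1 + k * y) ^ 3)) =
      ∫⁻ q in Ioi (1:ℝ), ENNReal.ofReal (2 * k / (q ^ 2 * ((1 + x) * k + (q ^ 2 - 1)))) := by
  have himg : (fun q : ℝ => (q ^ 2 - 1) / k) '' Ioi 1 = Ioi 0 := by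
    ext y
    simp only [mem_image, mem_Ioi]
    constructor
    · rintro ⟨q, hq, rfl⟩
      apply div_pos _ hk
      nlinarith
    · intro hy
      refine ⟨√(1 + k * y), ?_, ?_⟩
      · rw [Real.lt_sqrt (by norm_num)]
        have : 0 < k * y := mul_pos hk hy
        linarith
      · rw [Real.sq_sqrt (by positivity)]
        field_simp
        ring
  rw [← himg, lintegral_image_eq_lintegral_abs_deriv_mul measurableSet_Ioi
    (f' := fun q => 2 * q / k)]
  · refine setLIntegral_congr_fun measurableSet_Ioi ?_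
    intro q hq
    rw [mem_Ioi] at hq
    have hq0 : 0 < q := by linarith
    show ENNReal.ofReal |2 * q / k| * ENNReal.ofReal (k / ((1 + x + (q ^ 2 - 1) / k) * √(1 + k * ((q ^ 2 - 1) / k)) ^ 3)) = _
    rw [← ENNReal.ofReal_mul (abs_nonneg _), abs_of_nonneg (by positivity)]
    have h1 : 1 + k * ((q ^ 2 - 1) / k) = q ^ 2 := by field_simp; ring
    rw [h1, Real.sqrt_sq hq0.le]
    congr 1
    have h2 : (0:ℝ) < (1 + x) * k + (q ^ 2 - 1) := by
      have : 0 < (1 + x) * k := by positivity
      nlinarith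
    have h3 : 1 + x + (q ^ 2 - 1) / k = ((1 + x) * k + (q ^ 2 - 1)) / k := by field_simp
    rw [h3]
    have := h2.ne'
    field_simp
  · intro q _
    have h1 : HasDerivAt (fun q : ℝ => (q ^ 2 - 1) / k) (2 * q / k) q := by
      have := ((hasDerivAt_pow 2 q).sub_const 1).div_const k
      simpa using this
    exact h1.hasDerivWithinAt
  · intro a ha b hb hab
    rw [mem_Ioi] at ha hb
    simp only at hab
    have h1 : a ^ 2 - 1 = b ^ 2 - 1 := by
      have := (div_left_inj' hk.ne').1 hab
      exact this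
    nlinarith [sq_nonneg (a - b), mul_pos (show 0 < a by linarith) (show 0 < b by linarith)]

theorem lint_q (x : ℝ) (hx : 0 ≤ x) :
    ∫⁻ q in Ioi (1:ℝ), ENNReal.ofReal ((1 / q ^ 2) * (1 - √((q ^ 2 - 1) / (q ^ 2 + x)))) =
      ENNReal.ofReal (1 - ∫ t in (0:ℝ)..(π / 2), Real.sin t ^ 2 / √(1 + x * Real.cos t ^ 2)) := by
  have hpi := Real.pi_pos
  have hcos : ∀ t ∈ Ioo (0:ℝ) (π / 2), 0 < Real.cos t := fun t ht =>
    Real.cos_pos_of_mem_Ioo ⟨by linarith [ht.1], ht.2⟩
  have hsin : ∀ t ∈ Ioo (0:ℝ) (π / 2), 0 < Real.sin t := fun t ht =>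
    Real.sin_pos_of_pos_of_lt_pi ht.1 (by linarith [ht.2])
  have himg : (fun t : ℝ => (Real.cos t)⁻¹) '' Ioo 0 (π / 2) = Ioi 1 := by
    ext q
    simp only [mem_image, mem_Ioi]
    constructor
    · rintro ⟨t, ht, rfl⟩
      rw [one_lt_inv₀ (hcos t ht)]
      have h1 := Real.cos_lt_cos_of_nonneg_of_le_pi_div_two le_rfl ht.2.le ht.1
      rwa [Real.cos_zero] at h1
    · intro hq
      have hq0 : 0 < q := by linarith
      have h1 : q⁻¹ < 1 := inv_lt_one_of_one_lt₀ hq
      have h2 : 0 < q⁻¹ := by positivity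
      refine ⟨Real.arccos q⁻¹, ⟨Real.arccos_pos.2 h1, Real.arccos_lt_pi_div_two.2 h2⟩, ?_⟩
      rw [Real.cos_arccos (by linarith) h1.le, inv_inv]
  rw [← himg, lintegral_image_eq_lintegral_abs_deriv_mul measurableSet_Ioo
    (f' := fun t => Real.sin t / Real.cos t ^ 2)]
  · have hcg : ∀ t ∈ Ioo (0:ℝ) (π / 2), ENNReal.ofReal |Real.sin t / Real.cos t ^ 2| *
        ENNReal.ofReal ((1 / ((Real.cos t)⁻¹) ^ 2) * (1 - √((((Real.cos t)⁻¹) ^ 2 - 1) / (((Real.cos t)⁻¹) ^ 2 + x)))) =
        ENNReal.ofReal (Real.sin t - Real.sin t ^ 2 / √(1 + x * Real.cos t ^ 2)) := by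
      intro t ht
      have hc := hcos t ht
      have hs := hsin t ht
      rw [← ENNReal.ofReal_mul (abs_nonneg _), abs_of_nonneg (by positivity)]
      congr 1
      have h1 : (((Real.cos t)⁻¹) ^ 2 - 1) / (((Real.cos t)⁻¹) ^ 2 + x) =
          Real.sin t ^ 2 / (1 + x * Real.cos t ^ 2) := by
        have h2 : ((Real.cos t)⁻¹) ^ 2 - 1 = Real.sin t ^ 2 / Real.cos t ^ 2 := by
          rw [Real.sin_sq]; field_simp
        have h3 : ((Real.cos t)⁻¹) ^ 2 + x = (1 + x * Real.cos t ^ 2) / Real.cos t ^ 2 := by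
          field_simp
        rw [h2, h3, div_div_div_cancel_right₀ (by positivity)]
      rw [h1, Real.sqrt_div (by positivity), Real.sqrt_sq hs.le]
      have h4 : 0 < √(1 + x * Real.cos t ^ 2) := Real.sqrt_pos.2 (by positivity)
      field_simp
    rw [setLIntegral_congr_fun measurableSet_Ioo hcg]
    have hcont : Continuous fun t : ℝ => Real.sin t - Real.sin t ^ 2 / √(1 + x * Real.cos t ^ 2) := by
      apply Continuous.sub Real.continuous_sin
      apply Continuous.div (by fun_prop) (by fun_prop)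
      intro t
      exact (Real.sqrt_pos.2 (by positivity)).ne'
    have hcont2 : Continuous fun t : ℝ => Real.sin t ^ 2 / √(1 + x * Real.cos t ^ 2) := by
      apply Continuous.div (by fun_prop) (by fun_prop)
      intro t
      exact (Real.sqrt_pos.2 (by positivity)).ne'
    have hint : IntegrableOn (fun t : ℝ => Real.sin t - Real.sin t ^ 2 / √(1 + x * Real.cos t ^ 2)) (Ioo 0 (π / 2)) :=
      (hcont.integrableOn_Icc (a := 0) (b := π / 2)).mono_set Ioo_subset_Icc_self
    rw [← ofReal_integral_eq_lintegral_ofReal hint]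
    · congr 1
      have h1 : ∫ t in Ioo (0:ℝ) (π / 2), (Real.sin t - Real.sin t ^ 2 / √(1 + x * Real.cos t ^ 2)) =
          ∫ t in (0:ℝ)..(π / 2), (Real.sin t - Real.sin t ^ 2 / √(1 + x * Real.cos t ^ 2)) := by
        rw [intervalIntegral.integral_of_le (by linarith), ← integral_Ioc_eq_integral_Ioo]
      rw [h1, intervalIntegral.integral_sub (Real.continuous_sin.intervalIntegrable _ _)
        (hcont2.intervalIntegrable _ _), integral_sin]
      simp
    · filter_upwards [ae_restrict_mem measurableSet_Ioo] with t ht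
      have hs := hsin t ht
      have h1 : Real.sin t ≤ 1 := Real.sin_le_one t
      have h2 : 1 ≤ √(1 + x * Real.cos t ^ 2) := by
        rw [Real.one_le_sqrt]
        have : 0 ≤ x * Real.cos t ^ 2 := by positivity
        linarith
      have h3 : Real.sin t ^ 2 / √(1 + x * Real.cos t ^ 2) ≤ Real.sin t := by
        rw [div_le_iff₀ (by linarith)]
        nlinarith
      simp only [Pi.zero_apply]
      linarith
  · intro t ht
    have hc := hcos t ht
    have h1 : HasDerivAt (fun t : ℝ => (Real.cos t)⁻¹) (Real.sin t / Real.cos t ^ 2) t := by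
      have := (Real.hasDerivAt_cos t).inv hc.ne'
      rw [neg_neg] at this
      exact this
    exact h1.hasDerivWithinAt
  · intro a ha b hb hab
    have h1 := inv_injective hab
    exact Real.injOn_cos ⟨ha.1.le, by linarith [ha.2]⟩ ⟨hb.1.le, by linarith [hb.2]⟩ h1

end Pool.Agent.SLit
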