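import Pool.Agent.Lib_SLit.XA
import Pool.Agent.Lib_SLit.XB

/-!
# SLit piece XC: the integral equation for `X0`
-/

set_option autoImplicit false

namespace Pool.Agent.SLit

open MeasureTheory Set Real

/-- the double integrand after the first step -/
private theorem xc_inner (x y : ℝ) (hx : 0 ≤ x) (hy : 0 < y) :
    ENNReal.ofReal (X0 y / (1 + x + y)) =
      ENNReal.ofReal (1 / π) * ∫⁻ t in Ioc (0:ℝ) (π / 2),
        ENNReal.ofReal (Real.cos t ^ 2 / ((1 + x + y) * √(1 + Real.cos t ^ 2 * y) ^ 3)) := by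
  have hpi : 0 < π := Real.pi_pos
  have hpos : ∀ t : ℝ, 0 < 1 + y * Real.cos t ^ 2 := fun t => by positivity
  have hcont : Continuous fun t : ℝ => Real.cos t ^ 2 / √(1 + y * Real.cos t ^ 2) ^ 3 := by
    refine Continuous.div (by fun_prop) (by fun_prop) fun t => ?_
    have := Real.sqrt_pos.2 (hpos t)
    positivity
  have hnn : ∀ t : ℝ, 0 ≤ Real.cos t ^ 2 / √(1 + y * Real.cos t ^ 2) ^ 3 := fun t => by
    positivity
  have h1 : ENNReal.ofReal (∫ t in (0:ℝ)..(π / 2),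
      Real.cos t ^ 2 / √(1 + y * Real.cos t ^ 2) ^ 3) =
      ∫⁻ t in Ioc (0:ℝ) (π / 2), ENNReal.ofReal
        (Real.cos t ^ 2 / √(1 + y * Real.cos t ^ 2) ^ 3) := by
    rw [intervalIntegral.integral_of_le (by positivity)]
    refine ofReal_integral_eq_lintegral_ofReal ?_ (Filter.Eventually.of_forall hnn)
    exact (hcont.intervalIntegrable 0 (π / 2)).1
  rw [X0_rep y hy.le]
  have h2 : 1 / π * (∫ t in (0:ℝ)..(π / 2), Real.cos t ^ 2 / √(1 + y * Real.cos t ^ 2) ^ 3) /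
      (1 + x + y) = 1 / π * ((1 / (1 + x + y)) *
        ∫ t in (0:ℝ)..(π / 2), Real.cos t ^ 2 / √(1 + y * Real.cos t ^ 2) ^ 3) := by
    ring
  rw [h2, ENNReal.ofReal_mul (by positivity), ENNReal.ofReal_mul (by positivity), h1,
    ← lintegral_const_mul]
  · congr 1
    refine lintegral_congr fun t => ?_
    rw [← ENNReal.ofReal_mul (by positivity)]
    congr 1
    rw [mul_comm (Real.cos t ^ 2) y, div_mul_div_comm, one_mul]
  · exact ENNReal.measurable_ofReal.comp hcont.measurable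

/-- first substitution, also for `k = 0` -/
private theorem xc_subst (k x : ℝ) (hk : 0 ≤ k) (hx : 0 ≤ x) :
    ∫⁻ y in Ioi (0:ℝ), ENNReal.ofReal (k / ((1 + x + y) * √(1 + k * y) ^ 3)) =
      ∫⁻ q in Ioi (1:ℝ), ENNReal.ofReal (2 * k / (q ^ 2 * ((1 + x) * k + (q ^ 2 - 1)))) := by
  rcases hk.eq_or_lt with h | h
  · subst h; simp
  · exact lint_subst k x h hx

/-- the integral over `t` -/
private theorem xc_cos (x q : ℝ) (hx : 0 ≤ x) (hq : 1 < q) :
    ∫⁻ t in Ioc (0:ℝ) (π / 2), ENNReal.ofReal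
        (2 * Real.cos t ^ 2 / (q ^ 2 * ((1 + x) * Real.cos t ^ 2 + (q ^ 2 - 1)))) =
      ENNReal.ofReal (π / (1 + x)) *
        ENNReal.ofReal ((1 / q ^ 2) * (1 - √((q ^ 2 - 1) / (q ^ 2 + x)))) := by
  have hpi : 0 < π := Real.pi_pos
  have hα : 0 < q ^ 2 - 1 := by nlinarith
  have hq0 : 0 < q := by linarith
  have hpos : ∀ t : ℝ, 0 < (1 + x) * Real.cos t ^ 2 + (q ^ 2 - 1) := fun t => by positivity
  have hcont : Continuous fun t : ℝ =>
      2 * Real.cos t ^ 2 / (q ^ 2 * ((1 + x) * Real.cos t ^ 2 + (q ^ 2 - 1))) := by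
    refine Continuous.div (by fun_prop) (by fun_prop) fun t => ?_
    have := hpos t
    positivity
  have hnn : ∀ t : ℝ, 0 ≤
      2 * Real.cos t ^ 2 / (q ^ 2 * ((1 + x) * Real.cos t ^ 2 + (q ^ 2 - 1))) := fun t => by
    have := hpos t
    positivity
  have h1 : ENNReal.ofReal (∫ t in (0:ℝ)..(π / 2),
      2 * Real.cos t ^ 2 / (q ^ 2 * ((1 + x) * Real.cos t ^ 2 + (q ^ 2 - 1)))) =
      ∫⁻ t in Ioc (0:ℝ) (π / 2), ENNReal.ofReal
        (2 * Real.cos t ^ 2 / (q ^ 2 * ((1 + x) * Real.cos t ^ 2 + (q ^ 2 - 1)))) := by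
    rw [intervalIntegral.integral_of_le (by positivity)]
    refine ofReal_integral_eq_lintegral_ofReal ?_ (Filter.Eventually.of_forall hnn)
    exact (hcont.intervalIntegrable 0 (π / 2)).1
  rw [← h1, ← ENNReal.ofReal_mul (by positivity)]
  congr 1
  have h2 : ∫ t in (0:ℝ)..(π / 2),
      2 * Real.cos t ^ 2 / (q ^ 2 * ((1 + x) * Real.cos t ^ 2 + (q ^ 2 - 1))) =
      (1 / q ^ 2) * ∫ t in (0:ℝ)..(π / 2),
        2 * Real.cos t ^ 2 / ((1 + x) * Real.cos t ^ 2 + (q ^ 2 - 1)) := by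
    rw [← intervalIntegral.integral_const_mul]
    congr 1
    funext t
    rw [div_mul_div_comm, one_mul]
  rw [h2, int_cos (1 + x) (q ^ 2 - 1) (by linarith) hα]
  have h3 : q ^ 2 - 1 + (1 + x) = q ^ 2 + x := by ring
  rw [h3]
  ring

/-- the lower integral -/
private theorem xc_lint (x : ℝ) (hx : 0 ≤ x) :
    ∫⁻ y in Ioi (0:ℝ), ENNReal.ofReal (X0 y / (1 + x + y)) =
      ENNReal.ofReal (1 / (1 + x) - π * X0 x) := by
  have hpi : 0 < π := Real.pi_pos
  calc ∫⁻ y in Ioi (0:ℝ), ENNReal.ofReal (X0 y / (1 + x + y))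
      = ∫⁻ y in Ioi (0:ℝ), ENNReal.ofReal (1 / π) * ∫⁻ t in Ioc (0:ℝ) (π / 2),
        ENNReal.ofReal (Real.cos t ^ 2 / ((1 + x + y) * √(1 + Real.cos t ^ 2 * y) ^ 3)) :=
        setLIntegral_congr_fun measurableSet_Ioi fun y hy => xc_inner x y hx hy
    _ = ENNReal.ofReal (1 / π) * ∫⁻ y in Ioi (0:ℝ), ∫⁻ t in Ioc (0:ℝ) (π / 2),
        ENNReal.ofReal (Real.cos t ^ 2 / ((1 + x + y) * √(1 + Real.cos t ^ 2 * y) ^ 3)) := by
        rw [lintegral_const_mul]
        refine Measurable.lintegral_prod_right' (f := fun p : ℝ × ℝ =>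
          ENNReal.ofReal (Real.cos p.2 ^ 2 / ((1 + x + p.1) * √(1 + Real.cos p.2 ^ 2 * p.1) ^ 3)))
          ?_
        fun_prop
    _ = ENNReal.ofReal (1 / π) * ∫⁻ t in Ioc (0:ℝ) (π / 2), ∫⁻ y in Ioi (0:ℝ),
        ENNReal.ofReal (Real.cos t ^ 2 / ((1 + x + y) * √(1 + Real.cos t ^ 2 * y) ^ 3)) := by
        congr 1
        refine lintegral_lintegral_swap (f := fun y t => ENNReal.ofReal
          (Real.cos t ^ 2 / ((1 + x + y) * √(1 + Real.cos t ^ 2 * y) ^ 3))) ?_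
        refine Measurable.aemeasurable ?_
        unfold Function.uncurry
        fun_prop
    _ = ENNReal.ofReal (1 / π) * ∫⁻ t in Ioc (0:ℝ) (π / 2), ∫⁻ q in Ioi (1:ℝ),
        ENNReal.ofReal
          (2 * Real.cos t ^ 2 / (q ^ 2 * ((1 + x) * Real.cos t ^ 2 + (q ^ 2 - 1)))) := by
        congr 1
        exact lintegral_congr fun t => xc_subst (Real.cos t ^ 2) x (by positivity) hx
    _ = ENNReal.ofReal (1 / π) * ∫⁻ q in Ioi (1:ℝ), ∫⁻ t in Ioc (0:ℝ) (π / 2),
        ENNReal.ofReal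
          (2 * Real.cos t ^ 2 / (q ^ 2 * ((1 + x) * Real.cos t ^ 2 + (q ^ 2 - 1)))) := by
        congr 1
        refine lintegral_lintegral_swap (f := fun t q => ENNReal.ofReal
          (2 * Real.cos t ^ 2 / (q ^ 2 * ((1 + x) * Real.cos t ^ 2 + (q ^ 2 - 1))))) ?_
        refine Measurable.aemeasurable ?_
        unfold Function.uncurry
        fun_prop
    _ = ENNReal.ofReal (1 / π) * ∫⁻ q in Ioi (1:ℝ), ENNReal.ofReal (π / (1 + x)) *
        ENNReal.ofReal ((1 / q ^ 2) * (1 - √((q ^ 2 - 1) / (q ^ 2 + x)))) := by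
        congr 1
        exact setLIntegral_congr_fun measurableSet_Ioi fun q hq => xc_cos x q hx hq
    _ = ENNReal.ofReal (1 / π) * (ENNReal.ofReal (π / (1 + x)) *
        ENNReal.ofReal (1 - ∫ t in (0:ℝ)..(π / 2),
          Real.sin t ^ 2 / √(1 + x * Real.cos t ^ 2))) := by
        congr 1
        rw [← lint_q x hx, ← lintegral_const_mul]
        fun_prop
    _ = ENNReal.ofReal (1 / (1 + x) - π * X0 x) := by
        rw [← mul_assoc, ← ENNReal.ofReal_mul (by positivity),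
          ← ENNReal.ofReal_mul (by positivity)]
        congr 1
        unfold X0
        have : 1 + x ≠ 0 := by positivity
        field_simp

/-- PROOF. By `X0_rep` and Tonelli,
`∫⁻_y X0 y/(1+x+y) = (1/π) ∫⁻_t ∫⁻_y cos²t/((1+x+y)(1+y cos²t)^{3/2})`, by `lint_subst` (`k = cos²t > 0` for `t < π/2`)
`= (1/π) ∫⁻_t ∫⁻_{q>1} 2cos²t/(q²((1+x)cos²t + q²-1))`, Tonelli and `int_cos` (`ξ = 1+x`, `α = q²-1`):
`= (1/π) ∫⁻_{q>1} q^{-2} (π/(1+x)) (1 - √((q²-1)/(q²+x)))`, and by `lint_q` this is `(1/(1+x)) (1 - ∫ sin²/√) = 1/(1+x) - π X0 x`.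
The right side is finite, so the function is integrable (it is continuous on `Ioi 0`, nonnegative) and the Bochner integral has this value. -/
theorem X0_eq (x : ℝ) (hx : 0 ≤ x) :
    IntegrableOn (fun y => X0 y / (1 + x + y)) (Ioi 0) ∧
      ∫ y in Ioi (0:ℝ), X0 y / (1 + x + y) = 1 / (1 + x) - π * X0 x := by
  have hpi : 0 < π := Real.pi_pos
  have hV : 0 ≤ 1 / (1 + x) - π * X0 x := by
    have h1 := X0_mono 0 x le_rfl hx
    rw [X0_zero] at h1
    have h2 : π * X0 x ≤ 1 / (1 + x) := by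
      rw [le_div_iff₀ (by positivity)]
      have h3 : π < 4 := Real.pi_lt_four
      have h0 : 0 ≤ X0 x := X0_nonneg x hx
      nlinarith
    linarith
  have hnn : ∀ y ∈ Ioi (0:ℝ), 0 ≤ X0 y / (1 + x + y) := fun y hy => by
    have h0 : (0:ℝ) < y := hy
    have := X0_nonneg y h0.le
    positivity
  have hmeas : AEStronglyMeasurable (fun y => X0 y / (1 + x + y)) (volume.restrict (Ioi 0)) := by
    refine ContinuousOn.aestronglyMeasurable ?_ measurableSet_Ioi
    refine ContinuousOn.div (X0_cont.mono Ioi_subset_Ici_self) (by fun_prop) fun y hy => ?_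
    have h0 : (0:ℝ) < y := hy
    positivity
  have hae : 0 ≤ᵐ[volume.restrict (Ioi (0:ℝ))] fun y => X0 y / (1 + x + y) :=
    (ae_restrict_iff' measurableSet_Ioi).2 (Filter.Eventually.of_forall hnn)
  constructor
  · refine ⟨hmeas, ?_⟩
    rw [hasFiniteIntegral_iff_ofReal hae, xc_lint x hx]
    exact ENNReal.ofReal_lt_top
  · rw [integral_eq_lintegral_of_nonneg_ae hae hmeas, xc_lint x hx, ENNReal.toReal_ofReal hV]

end Pool.Agent.SLit
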