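import Mathlib

/-!
# SLit: the weight `X0`

`X0 x = (1/(π(1+x))) ∫₀^{π/2} sin²t (1 + x cos²t)^{-1/2} dt`; it solves `X0 + (1/π) ∫₀^∞ X0(y)/(1+x+y) dy = 1/(π(1+x))`.
-/

set_option autoImplicit false

namespace Pool.Agent.SLit

open MeasureTheory Set Real

noncomputable def X0 (x : ℝ) : ℝ :=
  (1 / (π * (1 + x))) * ∫ t in (0:ℝ)..(π / 2), Real.sin t ^ 2 / √(1 + x * Real.cos t ^ 2)

end Pool.Agent.SLit
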